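import Pool.Agent.Lib.LX33.Blue

namespace Pool.Agent.Lib.LX33

open Matrix Module

namespace BIG

theorem hs_nonneg {Ω : Type} [Fintype Ω] (Λ : Finset Ω) (A : Matrix Ω Ω ℂ) : 0 ≤ hs Λ A :=
  Finset.sum_nonneg fun _ _ => Finset.sum_nonneg fun _ _ => sq_nonneg _

variable {κ : Type} [Fintype κ] [DecidableEq κ]

theorem levels (A : Matrix (Finset κ) (Finset κ) ℂ) (a k : ℕ) :
    ∑ j ∈ Finset.range k, √(hs (lev κ (a + 2 * j + 2)) A) ^ 2 ≤ hs Finset.univ A := by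
  simp only [Real.sq_sqrt (hs_nonneg _ _)]
  unfold hs
  rw [← Finset.sum_biUnion]
  · exact Finset.sum_le_sum_of_subset_of_nonneg (Finset.subset_univ _)
      fun _ _ _ => Finset.sum_nonneg fun _ _ => sq_nonneg _
  · intro i _ j _ hij
    refine Finset.disjoint_left.2 fun x h1 h2 => hij ?_
    have h3 := (Finset.mem_powersetCard.1 h1).2
    have h4 := (Finset.mem_powersetCard.1 h2).2
    omega

theorem diag (A : Matrix (Finset κ) (Finset κ) ℂ) (f : ℕ → ℝ) (d : ℕ) :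
    hs (lev κ d) (A - (f d : ℂ) • 1) = hs (lev κ d) (A - diagonal fun T => (f T.card : ℂ)) := by
  refine Finset.sum_congr rfl fun x hx => Finset.sum_congr rfl fun y _ => ?_
  have h := (Finset.mem_powersetCard.1 hx).2
  by_cases hxy : x = y
  · subst hxy
    simp [h]
  · simp [hxy]

theorem n1 {s θ T S X : ℝ} (hs : 0 < s) (hT : 0 < T) (h1 : S ≤ T * (8 * (s * s) ^ 3))
    (h2 : 8 * (s * s) ^ 3 * s ≤ X ^ 2 * θ) : S ≤ X ^ 2 * (θ * T / s) := by
  rw [← mul_div_assoc, le_div_iff₀ hs]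
  have h3 := mul_le_mul_of_nonneg_right h1 hs.le
  have h4 := mul_le_mul_of_nonneg_left h2 hT.le
  linarith

theorem n2 {s θ T S R Y k : ℝ} (hs : 0 < s) (hθ : 0 < θ) (hT : 0 < T) (hS : 0 ≤ S)
    (hk : k * θ ≤ s) (h1 : S ≤ T * R) (h2 : s * s * R ≤ Y ^ 2 * θ ^ 2) :
    k * S ≤ Y ^ 2 * (θ * T / s) := by
  rw [← mul_div_assoc, le_div_iff₀ hs]
  refine le_of_mul_le_mul_right ?_ hθ
  have h3 := mul_le_mul_of_nonneg_right hk (mul_nonneg hS hs.le)
  have h4 := mul_le_mul_of_nonneg_left h1 (mul_pos hs hs).le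
  have h5 := mul_le_mul_of_nonneg_left h2 hT.le
  linarith

theorem n3 {s θ T S Z k : ℝ} (hs : 0 < s) (hθ : 0 < θ) (hT : 0 < T) (hS : 0 ≤ S)
    (hk : k * θ ≤ s) (h1 : S ≤ T * (8 * (s * s) ^ 3)) (h2 : 1152 * (s * s) ^ 3 ≤ Z ^ 2 * θ ^ 4) :
    k * (12 / (θ * s)) ^ 2 * S ≤ Z ^ 2 * (θ * T / s) := by
  have h3 := n2 (R := (12 / (θ * s)) ^ 2 * (8 * (s * s) ^ 3)) (Y := Z) hs hθ hT
    (mul_nonneg (sq_nonneg (12 / (θ * s))) hS) hk
    ((mul_le_mul_of_nonneg_left h1 (sq_nonneg _)).trans (le_of_eq (by ring))) (by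
      have h4 : s * s * ((12 / (θ * s)) ^ 2 * (8 * (s * s) ^ 3)) = 1152 * (s * s) ^ 3 / θ ^ 2 := by
        field_simp
        ring
      rw [h4, div_le_iff₀ (by positivity)]
      linarith)
  rwa [← mul_assoc] at h3

end BIG

theorem st_BIG (hPROJ : St_PROJ) (hLA : St_LA) (hLB : St_LB) (hLC : St_LC) (hLTR : St_LTR)
    (hHS1 : St_HS1) (hHS2 : St_HS2) (hTEL : St_TEL) (hRAT : St_RAT) : St_BIG := by
  intro κ C _ _ _ g M N db sig θ X Y Z n a k hn hs0 hbal hdb hp hm hw hθ hθ1 h24 hX hY hZ e1 e2 e3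
  choose P hP using fun d => hPROJ (Finset κ) (M d)
  choose Q hQ using fun d => hPROJ (Finset κ) (N d)
  have hN : ∀ d, Supp (lev κ d) (N d) := fun d v hv => (hp d).2 v ((hp d).1 hv)
  have la := fun d => hLA _ C (fun c => Eg (g c)) (P (d + 2)) (Q d) _ _ (lev κ d) (hP _) (hQ _)
    (hN d) (fun c => hm c d)
  have ltr' := hLTR κ C g hs0
  have h1 := hHS1 κ C g db sig hs0 hbal (hn ▸ hdb)
  have h2 := hHS2 κ C g db sig hs0 hbal (hn ▸ hdb)
  have hc : ∀ d, (lev κ d).card = n.choose d := fun d => by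
    rw [lev, Finset.card_powersetCard, Finset.card_univ, hn]
  unfold defect
  rw [hn] at ltr' h1 h2 ⊢
  obtain ⟨w1, w2, w3⟩ := hw
  have hq : 0 < √(n : ℝ) := by
    by_contra h
    nlinarith [Real.sqrt_nonneg (n : ℝ)]
  have ss : √(n : ℝ) * √(n : ℝ) = n := Real.mul_self_sqrt (Nat.cast_nonneg n)
  have hκ : 12 / (θ * √n) ≤ 1 / 2 := by
    rw [div_le_iff₀ (by positivity)]
    linarith
  have hk : 12 * (√n / θ) / n = 12 / (θ * √n) := by
    rw [div_eq_div_iff (by rw [← ss]; positivity) (by positivity)]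
    field_simp
    rw [Real.sq_sqrt (Nat.cast_nonneg n)]
  have hT : (0 : ℝ) < 2 ^ n := by positivity
  refine hTEL k (fun j => rtr (P (a + 2 * j + 2)) (Dn g)) (fun j => rtr (Q (a + 2 * j + 2)) (Dn g))
    (fun j => rtr (Q (a + 2 * j)) (Up g))
    (fun j => (finrank ℂ (M (a + 2 * j + 2)) : ℝ) - finrank ℂ (N (a + 2 * j + 2)))
    (fun j => n.choose (a + 2 * j + 2)) (fun j => (n - 2).choose (a + 2 * j))
    (fun j => √(hs (lev κ (a + 2 * j + 2)) (Dn g - ((tau g / 2 : ℝ) : ℂ) • 1)))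
    (fun j => √(hs (lev κ (a + 2 * j + 2))
      (Dn g - Up g - diagonal fun T => ((db * (2 * T.card - n) : ℝ) : ℂ))))
    (tau g) (12 / (θ * √n)) (θ * 2 ^ n / √n) X Y Z ?_ (by positivity) hκ (by positivity) hX hY hZ
    ?_ (la _).2.1 (fun j hj => ?_) ?_ ?_ ?_
  · exact Finset.sum_nonneg fun _ _ => Finset.sum_nonneg fun _ _ => sq_nonneg _
  · exact (la _).2.2.trans (ltr' _).2.le
  · obtain ⟨w4, w5⟩ := w3 j hj
    have r := hRAT n (a + 2 * j) (√n / θ) (by omega)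
      (by rw [le_div_iff₀ hθ]; nlinarith) (by rw [div_le_iff₀ hθ]; nlinarith)
      (by rw [le_div_iff₀ hθ]; exact w5)
    rw [hk] at r
    have hB : θ * 2 ^ n / √n ≤ n.choose (a + 2 * j + 2) := by
      rw [div_le_iff₀ hq]
      linarith
    have hC : (0 : ℝ) < n.choose (a + 2 * j + 2) := lt_of_lt_of_le (by positivity) hB
    have hh := mul_le_mul_of_nonneg_right hκ hC.le
    have c1 : ((n - 2).choose (a + 2 * j) : ℝ) ≠ 0 := by
      have := (abs_le.1 r.1).1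
      exact ne_of_gt (by linarith)
    have c2 : ((n - 2).choose (a + 2 * j + 2) : ℝ) ≠ 0 := by
      have := (abs_le.1 r.2).1
      exact ne_of_gt (by linarith)
    refine ⟨(la _).1, sub_nonneg.2 (Nat.cast_le.2 (Submodule.finrank_mono (hp _).1)),
      Real.sqrt_nonneg _, Real.sqrt_nonneg _, hB, r.1, r.2,
      hLB _ (Dn g) _ _ _ _ _ _ _ (hP _) (hQ _) (hp _).1 (hp _).2 (Real.sqrt_nonneg _)
        (Real.sq_sqrt (BIG.hs_nonneg _ _)).ge, ?_⟩
    have lc := hLC _ (Dn g) (Up g) _ _ _ (1 / (n - 2).choose (a + 2 * j + 2))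
      (1 / (n - 2).choose (a + 2 * j)) (tau g / 2) (db * (2 * (a + 2 * j + 2 : ℕ) - n)) _ _
      (hQ (a + 2 * j + 2)) (hN _) (Real.sqrt_nonneg _) (Real.sqrt_nonneg _)
      (by rw [(ltr' _).1, (ltr' _).2]; field_simp) (Real.sq_sqrt (BIG.hs_nonneg _ _)).ge
      ((BIG.diag _ (fun d => db * (2 * d - n)) _).le.trans (Real.sq_sqrt (BIG.hs_nonneg _ _)).ge)
    rw [hc] at lc
    exact lc
  · exact BIG.n1 hq hT (by rw [ss]; exact (BIG.levels _ a k).trans h1) (by rw [ss]; exact e1)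
  · exact BIG.n2 hq hθ hT (Finset.sum_nonneg fun _ _ => sq_nonneg _) w2
      ((BIG.levels _ a k).trans h2) (by rw [ss]; exact e2)
  · exact BIG.n3 hq hθ hT (Finset.sum_nonneg fun _ _ => sq_nonneg _) w2
      (by rw [ss]; exact (BIG.levels _ a k).trans h1) (by rw [ss]; exact e3)

end Pool.Agent.Lib.LX33
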