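import Pool.Agent.Lib.LX33.Blue

/-! The window of binomial coefficients. -/

namespace Pool.Agent.Lib.LX33

namespace BIN

open Finset

lemma tot (n : ℕ) : ∑ d ∈ range (n + 1), (n.choose d : ℝ) = 2 ^ n := by
  exact_mod_cast Nat.sum_range_choose n

lemma pascal (n : ℕ) (f : ℕ → ℝ) :
    ∑ d ∈ range (n + 2), ((n + 1).choose d : ℝ) * f d =
      ∑ d ∈ range (n + 1), (n.choose d : ℝ) * (f d + f (d + 1)) := by
  have h := Finset.sum_choose_succ_mul (R := ℝ) (fun i _ => f i) n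
  simp only [mul_add, sum_add_distrib]
  exact h

lemma var (n : ℕ) :
    ∑ d ∈ range (n + 1), (n.choose d : ℝ) * (2 * (d : ℝ) - n) ^ 2 = (n : ℝ) * 2 ^ n := by
  induction n with
  | zero => simp
  | succ n ih =>
    rw [pascal n (fun d => (2 * (d : ℝ) - (n + 1 : ℕ)) ^ 2)]
    have h : ∀ d ∈ range (n + 1), (n.choose d : ℝ) * ((2 * (d : ℝ) - (n + 1 : ℕ)) ^ 2 +
        (2 * ((d + 1 : ℕ) : ℝ) - (n + 1 : ℕ)) ^ 2) =
        2 * ((n.choose d : ℝ) * (2 * (d : ℝ) - n) ^ 2) + 2 * (n.choose d : ℝ) := by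
      intro d _
      push_cast
      ring
    rw [sum_congr rfl h, sum_add_distrib, ← mul_sum, ← mul_sum, ih, tot]
    push_cast
    ring

lemma par (n e : ℕ) (hn : 0 < n) (he : e < 2) :
    ∑ d ∈ range (n + 1), (n.choose d : ℝ) * (if d % 2 = e then 1 else 0) = 2 ^ (n - 1) := by
  obtain ⟨n, rfl⟩ : ∃ m, n = m + 1 := ⟨n - 1, by omega⟩
  rw [pascal n (fun d => if d % 2 = e then 1 else 0), Nat.add_sub_cancel, ← tot n]
  refine sum_congr rfl fun d _ => ?_
  have h : ((if d % 2 = e then 1 else 0 : ℝ) + if (d + 1) % 2 = e then 1 else 0) = 1 := by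
    by_cases h1 : d % 2 = e
    · rw [if_pos h1, if_neg (by omega), add_zero]
    · rw [if_neg h1, if_pos (by omega), zero_add]
  rw [h, mul_one]

lemma mono {n b : ℕ} : ∀ d, b ≤ d → d ≤ n / 2 → n.choose b ≤ n.choose d := by
  intro d h1
  induction d, h1 using Nat.le_induction with
  | base => exact fun _ => le_rfl
  | succ d _ ih =>
    intro h2
    exact (ih (by omega)).trans (Nat.choose_le_succ_of_lt_half_left (by omega))

lemma uni {n b d : ℕ} (h1 : b ≤ d) (h2 : d + b ≤ n) : n.choose b ≤ n.choose d := by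
  by_cases h : d ≤ n / 2
  · exact mono d h1 h
  · rw [← Nat.choose_symm (show d ≤ n by omega)]
    exact mono (n - d) (by omega) (by omega)

lemma bad (n m : ℕ) (t : ℝ) (ht : 0 ≤ t) (hm : 0 < m) :
    ∑ d ∈ range (n + 1), (if (n.choose d : ℝ) < t then (n.choose d : ℝ) else 0) ≤
      n * 2 ^ n / (m : ℝ) ^ 2 + (m + 2) * t := by
  have hm' : (0 : ℝ) < (m : ℝ) ^ 2 := by positivity
  have h1 : ∀ d ∈ range (n + 1), (if (n.choose d : ℝ) < t then (n.choose d : ℝ) else 0) ≤
      (n.choose d : ℝ) * (2 * (d : ℝ) - n) ^ 2 / (m : ℝ) ^ 2 +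
        if d ∈ Icc ((n - m) / 2) ((n + m) / 2) then t else 0 := by
    intro d _
    have h0 : 0 ≤ (n.choose d : ℝ) * (2 * (d : ℝ) - n) ^ 2 / (m : ℝ) ^ 2 := by positivity
    by_cases hd : d ∈ Icc ((n - m) / 2) ((n + m) / 2)
    · rw [if_pos hd]
      split_ifs with h
      · linarith
      · linarith
    · rw [if_neg hd, add_zero]
      split_ifs with h
      · rw [le_div_iff₀ hm']
        refine mul_le_mul_of_nonneg_left ?_ (by positivity)
        rw [mem_Icc] at hd
        rcases (by omega : 2 * d + m ≤ n ∨ n + m ≤ 2 * d) with h2 | h2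
        · have h3 : 2 * (d : ℝ) + m ≤ n := by exact_mod_cast h2
          have h4 : (0 : ℝ) ≤ m := by positivity
          nlinarith
        · have h3 : (n : ℝ) + m ≤ 2 * d := by exact_mod_cast h2
          have h4 : (0 : ℝ) ≤ m := by positivity
          nlinarith
      · exact h0
  refine (sum_le_sum h1).trans ?_
  rw [sum_add_distrib, ← sum_div, var, ← sum_filter, sum_const, nsmul_eq_mul]
  refine add_le_add le_rfl (mul_le_mul_of_nonneg_right ?_ ht)
  have h2 : ((range (n + 1)).filter fun d => d ∈ Icc ((n - m) / 2) ((n + m) / 2)).card ≤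
      m + 2 := by
    refine (card_le_card (t := Icc ((n - m) / 2) ((n + m) / 2))
      fun d hd => (mem_filter.mp hd).2).trans ?_
    rw [Nat.card_Icc]
    omega
  exact_mod_cast h2

lemma bad2 (n : ℕ) (ε C θ : ℝ) (hn : 0 < n) (hε : 0 < ε) (hC : 1 ≤ C) (hθ : 0 < θ)
    (h1 : 4 ≤ ε * C) (h2 : 4 * (C + 3) * θ ≤ ε) :
    ∑ d ∈ range (n + 1), (if (n.choose d : ℝ) < θ * 2 ^ n / √n then (n.choose d : ℝ) else 0) ≤
      ε * 2 ^ (n - 1) := by
  have hn1 : (1 : ℝ) ≤ n := by exact_mod_cast hn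
  have hs : (1 : ℝ) ≤ √n := Real.one_le_sqrt.mpr hn1
  have hs2 : √(n : ℝ) ^ 2 = n := Real.sq_sqrt (by positivity)
  have hm1 : C * √n ≤ (⌈C * √n⌉₊ : ℝ) := Nat.le_ceil _
  have hm2 : (⌈C * √n⌉₊ : ℝ) ≤ C * √n + 1 := (Nat.ceil_lt_add_one (by positivity)).le
  have hm0 : 0 < ⌈C * √n⌉₊ := Nat.ceil_pos.mpr (by positivity)
  refine (bad n _ _ (by positivity) hm0).trans ?_
  generalize (⌈C * √n⌉₊ : ℝ) = m at hm1 hm2
  have hp : (2 : ℝ) ^ n = 2 * 2 ^ (n - 1) := by
    rw [← pow_succ', Nat.sub_add_cancel hn]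
  have hq : (0 : ℝ) < 2 ^ (n - 1) := by positivity
  have hCs : 0 < C * √n := by positivity
  have hm : 0 < m := lt_of_lt_of_le hCs hm1
  have a1 : (n : ℝ) * 2 ^ n / m ^ 2 ≤ ε / 2 * 2 ^ (n - 1) := by
    rw [div_le_iff₀ (by positivity), hp]
    have b1 : (C * √n) ^ 2 ≤ m ^ 2 := pow_le_pow_left₀ hCs.le hm1 2
    rw [mul_pow, hs2] at b1
    have b2 : 4 * (n : ℝ) ≤ ε * (C ^ 2 * n) := by
      have : 4 ≤ ε * C ^ 2 := by nlinarith
      nlinarith
    have b3 : 4 * (n : ℝ) ≤ ε * m ^ 2 := b2.trans (mul_le_mul_of_nonneg_left b1 hε.le)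
    nlinarith
  have a2 : (m + 2) * (θ * 2 ^ n / √n) ≤ ε / 2 * 2 ^ (n - 1) := by
    rw [← mul_div_assoc, div_le_iff₀ (by positivity), hp]
    have b1 : m + 2 ≤ (C + 3) * √n := by nlinarith
    have b2 : (m + 2) * θ ≤ ε / 4 * √n := by nlinarith
    nlinarith
  linarith

end BIN

open Finset in
theorem st_BIN : St_BIN := by
  classical
  intro ε hε
  have hC : (1 : ℝ) ≤ 4 / ε + 1 := le_add_of_nonneg_left (by positivity)
  have hC4 : 4 ≤ ε * (4 / ε + 1) := by
    rw [mul_add, mul_div_cancel₀ _ hε.ne']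
    linarith
  generalize 4 / ε + 1 = C at hC hC4
  have hD : 0 < 4 * (C + 3) + ε := by positivity
  have hθ : 0 < ε / (4 * (C + 3) + ε) := by positivity
  have hθ1 : ε / (4 * (C + 3) + ε) ≤ 1 := by
    rw [div_le_one hD]
    linarith
  have hθ2 : 4 * (C + 3) * (ε / (4 * (C + 3) + ε)) ≤ ε := by
    rw [← mul_div_assoc, div_le_iff₀ hD]
    nlinarith
  generalize ε / (4 * (C + 3) + ε) = θ at hθ hθ1 hθ2
  refine ⟨θ, hθ, hθ1, ?_⟩
  obtain ⟨N, hN⟩ := Filter.eventually_atTop.mp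
    ((tendsto_pow_const_div_const_pow_of_one_lt 2 (by norm_num : (1 : ℝ) < 2)).eventually
      (gt_mem_nhds hθ))
  refine ⟨N + 1, fun n hn => ?_⟩
  have hn0 : 0 < n := by omega
  have hn1 : (1 : ℝ) ≤ n := by exact_mod_cast hn0
  have hs : (1 : ℝ) ≤ √n := Real.one_le_sqrt.mpr hn1
  have hs2 : √(n : ℝ) * √n = n := Real.mul_self_sqrt (by positivity)
  have hsn : √(n : ℝ) ≤ n := by nlinarith
  have hlarge : (n : ℝ) ^ 2 < θ * 2 ^ n := by
    have h := hN n (by omega)
    rwa [div_lt_iff₀ (by positivity)] at h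
  have hbad := BIN.bad2 n ε C θ hn0 hε hC hθ hC4 hθ2
  set t : ℝ := θ * 2 ^ n / √n with ht
  have ht0 : 0 < t := by positivity
  have htn : (n : ℝ) < t := by
    rw [ht, lt_div_iff₀ (by positivity)]
    nlinarith
  have split : ∀ e, e < 2 → (1 - ε) * 2 ^ (n - 1) ≤
      ∑ d ∈ (range (n + 1)).filter (fun d => d % 2 = e ∧ t ≤ (n.choose d : ℝ)),
        (n.choose d : ℝ) := by
    intro e he
    have h1 := BIN.par n e hn0 he
    have h2 : ∑ d ∈ range (n + 1), (n.choose d : ℝ) * (if d % 2 = e then 1 else 0) ≤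
        ∑ d ∈ range (n + 1), ((if d % 2 = e ∧ t ≤ (n.choose d : ℝ) then (n.choose d : ℝ) else 0) +
          if (n.choose d : ℝ) < t then (n.choose d : ℝ) else 0) := by
      refine sum_le_sum fun d _ => ?_
      have h0 : (0 : ℝ) ≤ n.choose d := by positivity
      by_cases h3 : (n.choose d : ℝ) < t
      · rw [if_pos h3, if_neg (show ¬ (d % 2 = e ∧ t ≤ (n.choose d : ℝ)) from
          fun h => absurd h.2 (not_le.mpr h3))]
        split_ifs <;> linarith
      · rw [if_neg h3]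
        by_cases h4 : d % 2 = e
        · rw [if_pos h4, if_pos ⟨h4, not_lt.mp h3⟩]
          linarith
        · rw [if_neg h4, if_neg (show ¬ (d % 2 = e ∧ t ≤ (n.choose d : ℝ)) from
            fun h => h4 h.1)]
          linarith
    rw [sum_add_distrib, ← sum_filter] at h2
    linarith
  by_cases hex : ∃ d, t ≤ (n.choose d : ℝ)
  swap
  · refine ⟨0, 0, ⟨by omega, by simp, fun j hj => absurd hj (by omega)⟩, ?_⟩
    have h := split 0 (by norm_num)
    rw [filter_false_of_mem (fun d _ h => hex ⟨d, h.2⟩)] at h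
    simpa using h
  have hb := Nat.find_spec hex
  have hmin : ∀ d, t ≤ (n.choose d : ℝ) → Nat.find hex ≤ d := fun d hd => Nat.find_min' hex hd
  generalize Nat.find hex = b at hb hmin
  have hmax : ∀ d, t ≤ (n.choose d : ℝ) → d + b ≤ n := by
    intro d hd
    have h1 : d ≤ n := by
      by_contra h
      rw [Nat.choose_eq_zero_of_lt (not_le.mp h)] at hd
      simp only [Nat.cast_zero] at hd
      linarith
    have h2 := hmin (n - d) (by rwa [Nat.choose_symm h1])
    omega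
  have hb2 : 2 ≤ b := by
    by_contra h
    rcases (by omega : b = 0 ∨ b = 1) with rfl | rfl
    · simp only [Nat.choose_zero_right, Nat.cast_one] at hb
      linarith
    · simp only [Nat.choose_one_right] at hb
      linarith
  have hbb := hmax b hb
  have hin : ∀ d, b ≤ d → d + b ≤ n → t ≤ (n.choose d : ℝ) := fun d h1 h2 =>
    hb.trans (by exact_mod_cast BIN.uni h1 h2)
  have hlen : ((n + 1 - 2 * b : ℕ) : ℝ) * θ ≤ √n := by
    have h1 : ((Icc b (n - b)).card : ℝ) * t ≤ ∑ d ∈ Icc b (n - b), (n.choose d : ℝ) := by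
      rw [← nsmul_eq_mul]
      exact card_nsmul_le_sum _ _ _ fun d hd =>
        hin d (mem_Icc.mp hd).1 (by have := (mem_Icc.mp hd).2; omega)
    have h2 : ∑ d ∈ Icc b (n - b), (n.choose d : ℝ) ≤ 2 ^ n := by
      rw [← BIN.tot n]
      refine sum_le_sum_of_subset_of_nonneg (fun d hd => ?_) fun _ _ _ => by positivity
      have := (mem_Icc.mp hd).2
      exact mem_range.mpr (by omega)
    rw [Nat.card_Icc, show n - b + 1 - b = n + 1 - 2 * b by omega, ht, ← mul_div_assoc,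
      div_le_iff₀ (by positivity)] at h1
    have h3 := h1.trans (mul_le_mul_of_nonneg_right h2 (by positivity))
    have h4 : (0 : ℝ) < 2 ^ n := by positivity
    nlinarith
  refine ⟨b - 2, (n - 2 * b) / 2 + 1, ⟨by omega, ?_, fun j hj => ⟨?_, ?_⟩⟩, ?_⟩
  · refine le_trans (mul_le_mul_of_nonneg_right ?_ hθ.le) hlen
    exact_mod_cast (by omega : (n - 2 * b) / 2 + 1 ≤ n + 1 - 2 * b)
  · have h := hin (b - 2 + 2 * j + 2) (by omega) (by omega)
    rw [ht, div_le_iff₀ (by positivity)] at h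
    linarith
  · refine le_trans (mul_le_mul_of_nonneg_right ?_ hθ.le) hlen
    have h1 : 2 * (b - 2 + 2 * j + 2) ≤ n + (n + 1 - 2 * b) := by omega
    have h2 : n ≤ 2 * (b - 2 + 2 * j + 2) + (n + 1 - 2 * b) := by omega
    generalize b - 2 + 2 * j + 2 = d at h1 h2
    generalize n + 1 - 2 * b = w at h1 h2
    have h3 : 2 * (d : ℝ) ≤ n + w := by exact_mod_cast h1
    have h4 : (n : ℝ) ≤ 2 * d + w := by exact_mod_cast h2
    rw [abs_le]
    constructor <;> linarith
  · refine (split (b % 2) (Nat.mod_lt _ (by norm_num))).trans ?_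
    rw [← sum_image (s := range ((n - 2 * b) / 2 + 1)) (g := fun j => b - 2 + 2 * j + 2)
      (f := fun d => (n.choose d : ℝ)) (fun i _ j _ h => by simp only at h; omega)]
    refine sum_le_sum_of_subset_of_nonneg (fun d hd => ?_) fun _ _ _ => by positivity
    obtain ⟨-, h1, h2⟩ := mem_filter.mp hd
    have h3 := hmin d h2
    have h4 := hmax d h2
    exact mem_image.mpr ⟨(d - b) / 2, mem_range.mpr (by omega), by omega⟩

end Pool.Agent.Lib.LX33
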