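import Pool.Agent.Lib.LX33.Blue

namespace Pool.Agent.Lib.LX33

open Matrix Pool.Agent.Lib.CH48

namespace COMM

variable {κ : Type} [Fintype κ] [DecidableEq κ]

/-- The sign matrix of an index. -/
noncomputable def z (s : κ) : Matrix (Finset κ) (Finset κ) ℂ :=
  diagonal fun T => if s ∈ T then 1 else -1

theorem aa (s t : κ) : Commute (A s) (A t) := (st_KIT κ).1 s t

theorem ab {s t : κ} (h : s ≠ t) : Commute (A s) (A t)ᴴ := (st_KIT κ).2.1 s t h

theorem bb (s t : κ) : Commute (A s)ᴴ (A t)ᴴ := by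
  have := congrArg conjTranspose (aa t s).eq
  rwa [conjTranspose_mul, conjTranspose_mul] at this

theorem ba (s : κ) : (A s)ᴴ * A s - A s * (A s)ᴴ = z s := by
  rw [← neg_sub, (st_KIT κ).2.2.1 s, z, Matrix.diagonal_neg]
  refine congrArg diagonal (funext fun T => ?_)
  split_ifs <;> simp

theorem cm (u s : κ) : (A u)ᴴ * A s - A s * (A u)ᴴ = if u = s then z s else 0 := by
  split_ifs with h
  · rw [h, ba]
  · rw [(ab (Ne.symm h)).eq, sub_self]

theorem az {s t : κ} (h : s ≠ t) : A s * z t = z t * A s := by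
  rw [← ba]
  exact (((ab h).mul_right (aa s t)).sub_right ((aa s t).mul_right (ab h))).eq

theorem bz {s t : κ} (h : s ≠ t) : (A s)ᴴ * z t = z t * (A s)ᴴ := by
  rw [← ba]
  exact (((bb s t).mul_right (ab h.symm).symm).sub_right
    ((ab h.symm).symm.mul_right (bb s t))).eq

theorem anti (s : κ) : (A s)ᴴ * A s + A s * (A s)ᴴ = 1 := by
  ext S T
  rw [Matrix.add_apply, KIT.mul_left, KIT.ct_left, KIT.ct, Matrix.one_apply]
  by_cases h1 : s ∈ S
  · simp [h1, A, Finset.insert_erase h1, eq_comm]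
  · simp [h1, Finset.erase_insert h1, eq_comm]

theorem quad {s t s' t' : κ} (h : s ≠ t) (h' : s' ≠ t') :
    (A t')ᴴ * (A s')ᴴ * (A s * A t) - A s * A t * ((A t')ᴴ * (A s')ᴴ) =
      (if s' = s then z s * ((A t')ᴴ * A t) else 0) +
      (if s' = t then z t * ((A t')ᴴ * A s) else 0) +
      (if t' = s then z s * (A t * (A s')ᴴ) else 0) +
      (if t' = t then z t * (A s * (A s')ᴴ) else 0) := by
  have h0 : (A t')ᴴ * (A s')ᴴ * (A s * A t) - A s * A t * ((A t')ᴴ * (A s')ᴴ) =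
      (A t')ᴴ * ((A s')ᴴ * A s - A s * (A s')ᴴ) * A t +
      (A t')ᴴ * A s * ((A s')ᴴ * A t - A t * (A s')ᴴ) +
      ((A t')ᴴ * A s - A s * (A t')ᴴ) * (A t * (A s')ᴴ) +
      A s * ((A t')ᴴ * A t - A t * (A t')ᴴ) * (A s')ᴴ := by noncomm_ring
  rw [h0, cm, cm, cm, cm]
  refine congrArg₂ _ (congrArg₂ _ (congrArg₂ _ ?_ ?_) ?_) ?_ <;> split_ifs with c
  · rw [bz (c ▸ h'.symm), Matrix.mul_assoc]
  · simp
  · rw [Matrix.mul_assoc, az h, ← Matrix.mul_assoc, bz (c ▸ h'.symm), Matrix.mul_assoc]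
  · simp
  · rfl
  · simp
  · rw [az h, Matrix.mul_assoc]
  · simp

theorem expand {C : Type} [Fintype C] (g : C → κ × κ → ℂ) :
    Dn g - Up g = ∑ s, ∑ t, ∑ s', ∑ t', gr g (s, t) (s', t') •
      ((A t')ᴴ * (A s')ᴴ * (A s * A t) - A s * A t * ((A t')ᴴ * (A s')ᴴ)) := by
  have h1 : ∀ c, (Eg (g c))ᴴ * Eg (g c) - Eg (g c) * (Eg (g c))ᴴ =
      ∑ s, ∑ t, ∑ s', ∑ t', (g c (s, t) * star (g c (s', t'))) •
        ((A t')ᴴ * (A s')ᴴ * (A s * A t) - A s * A t * ((A t')ᴴ * (A s')ᴴ)) := by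
    intro c
    have h2 : (Eg (g c))ᴴ = ∑ s', ∑ t', star (g c (s', t')) • ((A t')ᴴ * (A s')ᴴ) := by
      simp only [Eg, E, conjTranspose_sum, conjTranspose_smul, conjTranspose_mul]
    generalize (Eg (g c))ᴴ = B at h2
    simp only [Eg, E, Matrix.mul_sum, Matrix.sum_mul, ← Finset.sum_sub_distrib]
    refine Finset.sum_congr rfl fun s _ => Finset.sum_congr rfl fun t _ => ?_
    simp only [h2, Matrix.mul_sum, Matrix.sum_mul, ← Finset.sum_sub_distrib, Matrix.mul_smul,
      Matrix.smul_mul, smul_sub, Finset.smul_sum, smul_smul, mul_comm (g c (s, t))]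
  rw [Dn, Up, ← Finset.sum_sub_distrib]
  simp_rw [h1, gr, Finset.sum_smul]
  rw [Finset.sum_comm]
  refine Finset.sum_congr rfl fun s _ => ?_
  rw [Finset.sum_comm]
  refine Finset.sum_congr rfl fun t _ => ?_
  rw [Finset.sum_comm]
  refine Finset.sum_congr rfl fun s' _ => ?_
  rw [Finset.sum_comm]

end COMM

open COMM in
theorem st_COMM : St_COMM := by
  intro κ C _ _ _ g hg
  have s1 : ∀ s t f, gr g (s, t) f = gr g (t, s) f := fun s t f => by simp only [gr, hg.1 _ s t]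
  have s2 : ∀ s t f, gr g f (s, t) = gr g f (t, s) := fun s t f => by simp only [gr, hg.1 _ s t]
  have h1 : ∀ s t s' t' : κ, gr g (s, t) (s', t') •
      ((A t')ᴴ * (A s')ᴴ * (A s * A t) - A s * A t * ((A t')ᴴ * (A s')ᴴ)) =
      (if s' = s then gr g (s, t) (s, t') • (z s * ((A t')ᴴ * A t)) else 0) +
      (if s' = t then gr g (t, s) (t, t') • (z t * ((A t')ᴴ * A s)) else 0) +
      (if t' = s then gr g (s, t) (s, s') • (z s * (A t * (A s')ᴴ)) else 0) +
      (if t' = t then gr g (t, s) (t, s') • (z t * (A s * (A s')ᴴ)) else 0) := by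
    intro s t s' t'
    have e : ∀ (p : Prop) [Decidable p] (x : ℂ) (M : Matrix (Finset κ) (Finset κ) ℂ),
        (p → x = gr g (s, t) (s', t')) →
        (if p then x • M else 0) = gr g (s, t) (s', t') • if p then M else 0 := by
      intro p _ x M hx
      split_ifs with c
      · rw [hx c]
      · simp
    rw [e _ _ _ fun c => by rw [c], e _ _ _ fun c => by rw [c, s1],
      e _ _ _ fun c => by rw [c, s2], e _ _ _ fun c => by rw [c, s1, s2],
      ← smul_add, ← smul_add, ← smul_add]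
    by_cases h : s = t
    · simp [gr, h, hg.2]
    by_cases h' : s' = t'
    · simp [gr, h', hg.2]
    rw [quad h h']
  have h2 : Dn g - Up g = (2 : ℂ) • ∑ u, ∑ t, ∑ t', gr g (u, t) (u, t') •
      (z u * ((A t')ᴴ * A t + A t * (A t')ᴴ)) := by
    rw [expand]
    simp only [h1, Finset.sum_add_distrib, Finset.sum_ite_irrel, Finset.sum_const_zero,
      Finset.sum_ite_eq', Finset.mem_univ, if_true, Matrix.mul_add, smul_add, two_smul]
    rw [Finset.sum_comm (f := fun s t => ∑ t', gr g (t, s) (t, t') • (z t * ((A t')ᴴ * A s))),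
      Finset.sum_comm (f := fun s t => ∑ s', gr g (t, s) (t, s') • (z t * (A s * (A s')ᴴ)))]
    abel
  have h3 : ∀ u t : κ, ∑ t', gr g (u, t') (u, t) • (z u * ((A t)ᴴ * A t' + A t' * (A t)ᴴ)) =
      (wt g (u, t) : ℂ) • z u +
      (2 : ℂ) • ∑ t' ∈ Finset.univ.erase t, gr g (u, t') (u, t) • (z u * ((A t)ᴴ * A t')) := by
    intro u t
    rw [← Finset.add_sum_erase _ _ (Finset.mem_univ t), anti, Matrix.mul_one, Finset.smul_sum]
    refine congrArg₂ _ ?_ (Finset.sum_congr rfl fun t' ht => ?_)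
    · simp [gr, wt, Complex.mul_conj']
    · rw [(ab (Finset.mem_erase.1 ht).1).eq, Matrix.mul_add, smul_add, two_smul]
  have h4 : ∀ x : κ → ℂ,
      (diagonal fun T : Finset κ => ∑ u, x u * (if u ∈ T then 1 else -1)) = ∑ u, x u • z u := by
    intro x
    ext S T
    by_cases h : S = T
    · simp [z, Matrix.sum_apply, h]
    · simp [z, Matrix.sum_apply, h]
  have h5 : ∀ u, (dg g u : ℂ) = 2 * ∑ t, (wt g (u, t) : ℂ) := by
    intro u
    have : ∀ t, wt g (t, u) = wt g (u, t) := fun t => by simp only [wt, hg.1 _ t u]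
    simp only [dg, this, ← two_mul, ← Finset.mul_sum]
    push_cast
    rfl
  rw [h2]
  simp_rw [Finset.sum_comm (f := fun t t' => gr g (_, t) (_, t') •
    (z _ * ((A t')ᴴ * A t + A t * (A t')ᴴ))), h3, h4, h5]
  simp only [Finset.sum_add_distrib, smul_add, ← Finset.smul_sum, smul_smul, Matrix.sum_mul,
    Matrix.smul_mul]
  refine congrArg₂ _ ?_ ?_
  · simp only [← Finset.sum_smul, Finset.smul_sum, smul_smul]
  · rw [Finset.sum_comm]
    refine congrArg₂ _ (by norm_num) (Finset.sum_congr rfl fun t _ => Finset.sum_comm)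

end Pool.Agent.Lib.LX33
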