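import Pool.Agent.Lib.LX33.Blue

/-! The diagonal entries of the two Gram operators. -/

namespace Pool.Agent.Lib.LX33

open Matrix Pool.Agent.Lib.CH48

namespace DIAG

variable {κ : Type} [Fintype κ] [DecidableEq κ]

omit [Fintype κ] in
theorem cond (s t : κ) (S T : Finset κ) :
    (s ∉ S ∧ t ∉ S ∧ s ≠ t ∧ T = insert t (insert s S)) ↔
      (s ∈ T ∧ t ∈ T ∧ s ≠ t) ∧ S = (T.erase t).erase s := by
  constructor
  · rintro ⟨h1, h2, h3, rfl⟩
    refine ⟨⟨by simp, by simp, h3⟩, ?_⟩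
    rw [Finset.erase_insert (by simp [h2, h3.symm]), Finset.erase_insert h1]
  · rintro ⟨⟨h1, h2, h3⟩, rfl⟩
    refine ⟨by simp, by simp, h3, ?_⟩
    rw [Finset.insert_erase (by simp [h1, h3]), Finset.insert_erase h2]

omit [Fintype κ] in
theorem same {s t s' t' : κ} {T : Finset κ} (h : s ∈ T ∧ t ∈ T ∧ s ≠ t) :
    ((s' ∈ T ∧ t' ∈ T ∧ s' ≠ t') ∧ (T.erase t).erase s = (T.erase t').erase s') ↔
      (s', t') = (s, t) ∨ (s', t') = (t, s) := by
  obtain ⟨h1, h2, h3⟩ := h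
  simp only [Prod.mk.injEq]
  constructor
  · rintro ⟨⟨a, b, c⟩, e⟩
    have k := Finset.ext_iff.1 e
    have k1 := k s'
    have k2 := k t'
    simp only [Finset.mem_erase, a, b, ne_eq, not_true_eq_false, false_and, and_false, and_true,
      iff_false, not_and, not_not] at k1 k2
    by_cases e1 : s' = s
    · subst e1
      exact Or.inl ⟨rfl, k2 fun e => c e.symm⟩
    · have e2 := k1 e1
      subst e2
      refine Or.inr ⟨rfl, ?_⟩
      by_contra e3
      exact c (k2 e3).symm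
  · rintro (⟨rfl, rfl⟩ | ⟨rfl, rfl⟩)
    · exact ⟨⟨h1, h2, h3⟩, rfl⟩
    · exact ⟨⟨h2, h1, h3.symm⟩, Finset.erase_right_comm⟩

theorem val (g : κ × κ → ℂ) (hg : ∀ s t, g (s, t) = g (t, s)) {s t : κ} {T : Finset κ}
    (h : s ∈ T ∧ t ∈ T ∧ s ≠ t) : Eg g ((T.erase t).erase s) T = 2 * g (s, t) := by
  rw [Eg, KIT.e_apply, ← Finset.sum_product']
  simp only [cond, same h]
  rw [Finset.univ_product_univ,
    Finset.sum_eq_add (s, t) (t, s) (fun e => h.2.2 (congrArg Prod.fst e))]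
  · simp [hg t s, two_mul]
  · intro c _ hc
    rw [if_neg (not_or.2 hc), mul_zero]
  · simp
  · simp

theorem one (g : κ × κ → ℂ) (hg : ∀ s t, g (s, t) = g (t, s)) (h0 : ∀ s, g (s, s) = 0)
    (T : Finset κ) : ∑ S, star (Eg g S T) * Eg g S T =
      ((2 * ∑ s ∈ T, ∑ t ∈ T, ‖g (s, t)‖ ^ 2 : ℝ) : ℂ) := by
  have h1 : ∀ S, star (Eg g S T) * Eg g S T = ∑ s, ∑ t,
      if (s ∈ T ∧ t ∈ T ∧ s ≠ t) ∧ S = (T.erase t).erase s then star (Eg g S T) * g (s, t)
      else 0 := fun S => by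
    generalize star (Eg g S T) = z
    rw [Eg, KIT.e_apply]
    simp only [cond, Finset.mul_sum, mul_ite, mul_one, mul_zero]
  rw [Finset.sum_congr rfl fun S _ => h1 S, Finset.sum_comm]
  push_cast
  rw [Finset.mul_sum, ← Finset.sum_subset (Finset.subset_univ T) fun s _ hs => by simp [hs]]
  refine Finset.sum_congr rfl fun s hs => ?_
  rw [Finset.sum_comm, Finset.mul_sum,
    ← Finset.sum_subset (Finset.subset_univ T) fun t _ ht => by simp [ht]]
  refine Finset.sum_congr rfl fun t ht => ?_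
  by_cases e : s = t
  · simp [e, h0]
  · have h : s ∈ T ∧ t ∈ T ∧ s ≠ t := ⟨hs, ht, e⟩
    simp only [h, ne_eq, not_false_eq_true, and_self, true_and, Finset.sum_ite_eq', Finset.mem_univ,
      if_true, val g hg h, star_mul', star_ofNat]
    rw [mul_assoc, Complex.star_def, Complex.conj_mul']

end DIAG

theorem st_DIAG : St_DIAG := by
  intro κ C _ _ _ g hg
  have h1 : ∀ T, ∑ c, ∑ S, star (Eg (g c) S T) * Eg (g c) S T =
      ((2 * ∑ s ∈ T, ∑ t ∈ T, wt g (s, t) : ℝ) : ℂ) := fun T => by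
    simp only [fun c => DIAG.one (g c) (hg.1 c) (hg.2 c) T, wt]
    rw [← Complex.ofReal_sum, ← Finset.mul_sum, Finset.sum_comm]
    congr 2
    exact Finset.sum_congr rfl fun s _ => Finset.sum_comm
  refine ⟨fun T => ?_, fun T => ?_⟩
  · rw [← h1]
    simp only [Dn, Matrix.sum_apply, mul_apply, conjTranspose_apply]
  · rw [← h1]
    simp only [Up, Matrix.sum_apply, mul_apply, conjTranspose_apply]
    refine Finset.sum_congr rfl fun c _ => ?_
    refine Fintype.sum_bijective (fun S : Finset κ => Sᶜ) compl_bijective _ _ fun S => ?_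
    rw [mul_comm, Eg, (st_KIT κ).2.2.2.2.1]

end Pool.Agent.Lib.LX33
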