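import Pool.Agent.Lib.LX33.Blue
import Pool.Agent.Lib.CH48.B_KILL

namespace Pool.Agent.Lib.LX33

open Matrix MvPolynomial Module Pool.Agent.Lib.CH48

namespace FILT

variable {ι : Type} [Fintype ι] [DecidableEq ι] {r : ℕ}

/-- Families of degree `d` whose image is killed by all the quadratic operators. -/
noncomputable def bigM (L : Fin r → ι → ι × ι → ℂ) (d : ℕ) :
    Submodule ℂ (Fin r → Finset ι → ℂ) where
  carrier := {v | v ∈ PHI.vdeg (Fin r) ι d ∧ ∀ c, InQ c → qop c (PHI.bigPhi L v) = 0}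
  add_mem' := by
    rintro a b ⟨ha, ha'⟩ ⟨hb, hb'⟩
    refine ⟨Submodule.add_mem _ ha hb, fun c hc => ?_⟩
    rw [map_add, map_add, ha' c hc, hb' c hc, add_zero]
  zero_mem' := ⟨Submodule.zero_mem _, fun c _ => by rw [map_zero, map_zero]⟩
  smul_mem' := by
    rintro x a ⟨ha, ha'⟩
    refine ⟨Submodule.smul_mem _ x ha, fun c hc => ?_⟩
    rw [map_smul, map_smul, ha' c hc, smul_zero]

/-- The members with zero image. -/
noncomputable def bigN (L : Fin r → ι → ι × ι → ℂ) (d : ℕ) :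
    Submodule ℂ (Fin r → Finset ι → ℂ) :=
  bigM L d ⊓ LinearMap.ker (PHI.bigPhi L)

theorem mem_N (L : Fin r → ι → ι × ι → ℂ) (d : ℕ) (v : Fin r → Finset ι → ℂ)
    (h1 : v ∈ PHI.vdeg (Fin r) ι d) (h2 : PHI.bigPhi L v = 0) : v ∈ bigN L d :=
  ⟨⟨h1, fun c _ => by rw [h2, map_zero]⟩, h2⟩

theorem e_deg (m : ι → ι → ℂ) (d : ℕ) (v : Finset ι → ℂ)
    (hv : ∀ S : Finset ι, S.card ≠ d + 2 → v S = 0) (S : Finset ι) (hS : S.card ≠ d) :
    (E m *ᵥ v) S = 0 := by
  change ∑ T, E m S T * v T = 0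
  refine Finset.sum_eq_zero fun T _ => ?_
  by_cases h : E m S T = 0
  · rw [h, zero_mul]
  · have h1 := (st_KIT ι).2.2.2.1 m S T h
    rw [hv T (by omega), mul_zero]

theorem term (L : Fin r → ι → ι × ι → ℂ) (k : Fin r) :
    Term (L k) (fun d => lead (bigM L d) k) (fun d => lead (bigN L d) k) := by
  refine ⟨fun d => ⟨?_, ?_⟩, ?_, ?_⟩
  · rintro w ⟨v, hv, h0, hk⟩
    exact ⟨v, hv.1, h0, hk⟩
  · rintro w ⟨v, hv, -, rfl⟩ S hS
    refine hv.1 k S fun h => hS ?_
    exact Finset.mem_powersetCard.2 ⟨Finset.subset_univ S, h⟩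
  · rintro c hc d w ⟨v, hv, h0, rfl⟩
    refine ⟨PHI.act (fun i => E (mm c (L i))) v, mem_N L d _ ?_ ?_, ?_, rfl⟩
    · intro i S hS
      exact e_deg _ d (v i) (hv.1 i) S hS
    · rw [← PHI.big_q]
      exact hv.2 c hc
    · intro i hi
      rw [PHI.act_apply, h0 i hi, Matrix.mulVec_zero]
  · rintro d w ⟨v, hv, -, rfl⟩ hw
    refine ⟨Pi.single k (v k), mem_N L d _ ?_ ?_, ?_, Pi.single_eq_same _ _⟩
    · intro i S hS
      by_cases h : i = k
      · rw [h, Pi.single_eq_same]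
        exact hv.1 k S hS
      · rw [Pi.single_eq_of_ne h]
        rfl
    · rw [PHI.bigPhi_apply, Finset.sum_eq_single k]
      · rw [Pi.single_eq_same, hw]
      · intro i _ h
        rw [Pi.single_eq_of_ne h, map_zero]
      · intro h
        exact absurd (Finset.mem_univ _) h
    · intro i hi
      exact Pi.single_eq_of_ne hi.ne _

end FILT

theorem st_FILT (hFLAG : St_FLAG) (hSUB1 : St_SUB1) : St_FILT := by
  intro ι _ _ r L hper
  refine ⟨fun k d => lead (FILT.bigM L d) k, fun k d => lead (FILT.bigN L d) k, FILT.term L,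
    fun d => ?_⟩
  have h1 := hSUB1 ι (fun d => (FILT.bigM L d).map (PHI.bigPhi L)) d ?_ ?_
  · have h2 := PHI.rank_null (PHI.bigPhi L) (FILT.bigM L d)
    rw [← hFLAG r _ (FILT.bigM L d), ← hFLAG r _ (FILT.bigN L d), ← h2]
    exact Nat.add_le_add_right h1 _
  · have h3 : PHI.bigPhi L (fun _ S => if S = Finset.univ then 1 else 0) = per ι := by
      rw [PHI.bigPhi_apply, hper]
      refine Finset.sum_congr rfl fun k _ => ?_
      rw [PHI.phi_apply, Finset.sum_eq_single Finset.univ]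
      · rw [if_pos rfl, one_smul]
        rfl
      · intro S _ hS
        rw [if_neg hS, zero_smul]
      · intro h
        exact absurd (Finset.mem_univ _) h
    refine ⟨_, ⟨?_, fun c hc => ?_⟩, h3⟩
    · intro k S hS
      exact if_neg fun h => hS (by rw [h, Finset.card_univ])
    · rw [h3]
      exact st_KILL ι c hc
  · rintro d e p ⟨v, hv, rfl⟩
    refine ⟨PHI.act (fun k => PHI.dm (L k) e) v, ⟨?_, fun c hc => ?_⟩, (PHI.big_der L e v).symm⟩
    · intro k S hS
      exact PHI.dm_deg (L k) e d (v k) (hv.1 k) S hS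
    · rw [← PHI.big_der, PHI.big_q_der, hv.2 c hc, map_zero]

end Pool.Agent.Lib.LX33
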