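import Pool.Agent.Lib.LX33.Blue

/-! The dimension of a subspace of `V ^ r` is the sum of the dimensions of its leading parts. -/

namespace Pool.Agent.Lib.LX33

open Module Pool.Agent.Lib.CH48

namespace FLAG

variable {r : ℕ} {V : Type} [AddCommGroup V] [Module ℂ V]

/-- Members of `X` whose first `j` components vanish. -/
def cut (X : Submodule ℂ (Fin r → V)) (j : ℕ) : Submodule ℂ (Fin r → V) where
  carrier := {v | v ∈ X ∧ ∀ i : Fin r, (i : ℕ) < j → v i = 0}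
  add_mem' := by
    rintro a b ⟨ha, ha0⟩ ⟨hb, hb0⟩
    exact ⟨X.add_mem ha hb, fun i hi => by simp [ha0 i hi, hb0 i hi]⟩
  zero_mem' := ⟨X.zero_mem, fun _ _ => rfl⟩
  smul_mem' := by
    rintro c a ⟨ha, ha0⟩
    exact ⟨X.smul_mem c ha, fun i hi => by simp [ha0 i hi]⟩

theorem mem_cut (X : Submodule ℂ (Fin r → V)) (j : ℕ) (v : Fin r → V) :
    v ∈ cut X j ↔ v ∈ X ∧ ∀ i : Fin r, (i : ℕ) < j → v i = 0 := Iff.rfl

theorem cut_zero (X : Submodule ℂ (Fin r → V)) : cut X 0 = X := by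
  ext v
  rw [mem_cut]
  exact ⟨fun h => h.1, fun h => ⟨h, fun i hi => absurd hi (Nat.not_lt_zero _)⟩⟩

theorem cut_top (X : Submodule ℂ (Fin r → V)) : cut X r = ⊥ := by
  rw [eq_bot_iff]
  intro v hv
  rw [Submodule.mem_bot]
  funext i
  exact hv.2 i i.2

theorem cut_map (X : Submodule ℂ (Fin r → V)) (k : Fin r) :
    (cut X k).map (LinearMap.proj k : (Fin r → V) →ₗ[ℂ] V) = lead X k := by
  ext w
  constructor
  · rintro ⟨v, ⟨hv, hv0⟩, rfl⟩
    exact ⟨v, hv, fun i hi => hv0 i hi, rfl⟩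
  · rintro ⟨v, hv, hv0, rfl⟩
    exact ⟨v, ⟨hv, fun i hi => hv0 i hi⟩, rfl⟩

theorem cut_ker (X : Submodule ℂ (Fin r → V)) (k : Fin r) :
    cut X k ⊓ LinearMap.ker (LinearMap.proj k : (Fin r → V) →ₗ[ℂ] V) = cut X (k + 1) := by
  ext v
  rw [Submodule.mem_inf, mem_cut, mem_cut, LinearMap.mem_ker, LinearMap.proj_apply]
  constructor
  · rintro ⟨⟨hv, hv0⟩, hk⟩
    refine ⟨hv, fun i hi => ?_⟩
    rcases Nat.lt_succ_iff_lt_or_eq.1 hi with h | h
    · exact hv0 i h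
    · rw [Fin.ext h]
      exact hk
  · rintro ⟨hv, hv0⟩
    exact ⟨⟨hv, fun i hi => hv0 i (Nat.lt_succ_of_lt hi)⟩, hv0 k (Nat.lt_succ_self _)⟩

theorem step [FiniteDimensional ℂ V] (X : Submodule ℂ (Fin r → V)) (k : Fin r) :
    finrank ℂ (lead X k) + finrank ℂ (cut X (k + 1)) = finrank ℂ (cut X k) := by
  have h := PHI.rank_null (LinearMap.proj k : (Fin r → V) →ₗ[ℂ] V) (cut X k)
  rw [cut_map, cut_ker] at h
  exact h

theorem tele (a : ℕ → ℕ) : ∀ (r : ℕ) (b : Fin r → ℕ),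
    (∀ k : Fin r, b k + a (k + 1) = a k) → ∑ k, b k + a r = a 0 := by
  intro r
  induction r with
  | zero => intro b _; simp
  | succ r ih =>
    intro b h
    have h1 := ih (fun k => b k.castSucc) (fun k => h k.castSucc)
    have h2 := h (Fin.last r)
    rw [Fin.val_last] at h2
    rw [Fin.sum_univ_castSucc]
    omega

end FLAG

theorem st_FLAG : St_FLAG := by
  intro r V _ _ _ X
  have h := FLAG.tele (fun j => finrank ℂ (FLAG.cut X j)) r (fun k => finrank ℂ (lead X k))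
    (fun k => FLAG.step X k)
  have h0 : finrank ℂ (FLAG.cut X 0) = finrank ℂ X := by rw [FLAG.cut_zero]
  have h1 : finrank ℂ (FLAG.cut X r) = 0 := by rw [FLAG.cut_top, finrank_bot]
  have h2 : ∑ k, finrank ℂ (lead X k) + finrank ℂ (FLAG.cut X r) = finrank ℂ (FLAG.cut X 0) := h
  omega

end Pool.Agent.Lib.LX33
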