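import Pool.Agent.Lib.LX33.Blue

/-! The down-up operator is close to a scalar. -/

namespace Pool.Agent.Lib.LX33

open Matrix

namespace HS1

variable {κ C : Type} [Fintype κ] [DecidableEq κ] [Fintype C]

/-- The sign of an index at a set. -/
def z (u : κ) (T : Finset κ) : ℝ := if u ∈ T then 1 else -1

theorem sgn (h : St_SGN) (a : κ → ℝ) :
    ∑ T : Finset κ, (∑ u, a u * z u T) ^ 2 = 2 ^ Fintype.card κ * ∑ u, a u ^ 2 := by
  have h1 := h κ fun u => (a u : ℂ)
  have h2 : ∀ T : Finset κ, ‖∑ u, (a u : ℂ) * (if u ∈ T then (1 : ℂ) else -1)‖ ^ 2 =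
      (∑ u, a u * z u T) ^ 2 := by
    intro T
    have h3 : ∑ u, (a u : ℂ) * (if u ∈ T then (1 : ℂ) else -1) =
        ((∑ u, a u * z u T : ℝ) : ℂ) := by
      rw [Complex.ofReal_sum]
      exact Finset.sum_congr rfl fun u _ => by by_cases hu : u ∈ T <;> simp [z, hu]
    rw [h3, Complex.norm_real, Real.norm_eq_abs, sq_abs]
  rw [Finset.sum_congr rfl fun T _ => h2 T] at h1
  rw [h1]
  congr 1
  exact Finset.sum_congr rfl fun u _ => by rw [Complex.norm_real, Real.norm_eq_abs, sq_abs]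

theorem wt_nonneg {P : Type} (g : C → P → ℂ) (e : P) : 0 ≤ wt g e :=
  Finset.sum_nonneg fun _ _ => sq_nonneg _

theorem gr_self {P : Type} (g : C → P → ℂ) (e : P) : ‖gr g e e‖ ^ 2 = wt g e ^ 2 := by
  have h : gr g e e = ((wt g e : ℝ) : ℂ) := by
    unfold gr wt
    rw [Complex.ofReal_sum]
    refine Finset.sum_congr rfl fun c _ => ?_
    rw [Complex.star_def, Complex.mul_conj, Complex.normSq_eq_norm_sq]
  rw [h, Complex.norm_real, Real.norm_eq_abs, sq_abs]

omit [DecidableEq κ] in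
theorem sum_dg (g : C → κ × κ → ℂ) : ∑ s, dg g s = 2 * tau g := by
  unfold dg tau
  simp only [Finset.sum_add_distrib]
  rw [Finset.sum_comm (f := fun s t => wt g (t, s)), Fintype.sum_prod_type]
  ring

theorem expand (w : κ × κ → ℝ) (T : Finset κ) :
    2 * ∑ s ∈ T, ∑ t ∈ T, w (s, t) - (∑ e, w e) / 2 =
      ((∑ s, (∑ t, (w (s, t) + w (t, s))) * z s T) +
        ∑ s, z s T * ∑ t, w (s, t) * z t T) / 2 := by
  have h1 : ∑ s ∈ T, ∑ t ∈ T, w (s, t) =
      ∑ s, ∑ t, w (s, t) * ((1 + z s T) / 2 * ((1 + z t T) / 2)) := by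
    rw [← Finset.sum_subset (Finset.subset_univ T)]
    · refine Finset.sum_congr rfl fun s hs => ?_
      rw [← Finset.sum_subset (Finset.subset_univ T)]
      · exact Finset.sum_congr rfl fun t ht => by simp [z, hs, ht]
      · intro t _ ht
        simp [z, ht]
    · intro s _ hs
      simp [z, hs]
  have h2 : ∑ s, (∑ t, (w (s, t) + w (t, s))) * z s T =
      ∑ s, ∑ t, (w (s, t) * z s T + w (s, t) * z t T) := by
    simp only [Finset.sum_mul, add_mul, Finset.sum_add_distrib]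
    rw [Finset.sum_comm (f := fun s t => w (t, s) * z s T)]
  rw [h1, h2, Fintype.sum_prod_type, Finset.mul_sum, Finset.sum_div, ← Finset.sum_sub_distrib,
    ← Finset.sum_add_distrib, Finset.sum_div]
  refine Finset.sum_congr rfl fun s _ => ?_
  rw [Finset.mul_sum, Finset.mul_sum, Finset.sum_div, ← Finset.sum_sub_distrib,
    ← Finset.sum_add_distrib, Finset.sum_div]
  exact Finset.sum_congr rfl fun t _ => by ring

theorem cs (y : κ → ℝ) (T : Finset κ) :
    (∑ s, z s T * y s) ^ 2 ≤ Fintype.card κ * ∑ s, y s ^ 2 := by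
  have h1 := Finset.sum_mul_sq_le_sq_mul_sq Finset.univ (fun s => z s T) y
  have h2 : ∑ s, z s T ^ 2 = Fintype.card κ := by
    have h3 : ∀ s, z s T ^ 2 = 1 := fun s => by by_cases hs : s ∈ T <;> simp [z, hs]
    rw [Finset.sum_congr rfl fun s _ => h3 s]
    simp
  rwa [h2] at h1

theorem diag (h : St_SGN) (w : κ × κ → ℝ) :
    ∑ T : Finset κ, (2 * ∑ s ∈ T, ∑ t ∈ T, w (s, t) - (∑ e, w e) / 2) ^ 2 ≤
      2 ^ Fintype.card κ * ((∑ s, (∑ t, (w (s, t) + w (t, s))) ^ 2) / 2 +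
        Fintype.card κ * (∑ e, w e ^ 2) / 2) := by
  have h1 : ∀ T : Finset κ, (2 * ∑ s ∈ T, ∑ t ∈ T, w (s, t) - (∑ e, w e) / 2) ^ 2 ≤
      (∑ s, (∑ t, (w (s, t) + w (t, s))) * z s T) ^ 2 / 2 +
        Fintype.card κ * (∑ s, (∑ t, w (s, t) * z t T) ^ 2) / 2 := by
    intro T
    rw [expand]
    have h2 := cs (fun s => ∑ t, w (s, t) * z t T) T
    nlinarith [sq_nonneg ((∑ s, (∑ t, (w (s, t) + w (t, s))) * z s T) -
      ∑ s, z s T * ∑ t, w (s, t) * z t T)]
  refine (Finset.sum_le_sum fun T _ => h1 T).trans (le_of_eq ?_)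
  rw [Finset.sum_add_distrib, ← Finset.sum_div, ← Finset.sum_div, ← Finset.mul_sum, sgn h,
    Finset.sum_comm, Finset.sum_congr rfl fun s _ => sgn h fun t => w (s, t), ← Finset.mul_sum,
    Fintype.sum_prod_type]
  ring

end HS1

theorem st_HS1 (hDIAG : St_DIAG) (hSGN : St_SGN) (hOFF : St_OFF) : St_HS1 := by
  intro κ C _ _ _ g db sig hS hB hdb
  obtain ⟨hd0, hgr, hdg, -⟩ := hB
  set n : ℝ := (Fintype.card κ : ℝ) with hn
  have hn0 : 0 ≤ n := hd0.trans hdb
  have hdg0 : ∀ s, 0 ≤ dg g s := fun s =>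
    Finset.sum_nonneg fun t _ => add_nonneg (HS1.wt_nonneg g _) (HS1.wt_nonneg g _)
  have htau : 2 * tau g ≤ n ^ 2 := by
    rw [← HS1.sum_dg]
    refine (Finset.sum_le_sum fun s _ => (hdg s).trans hdb).trans (le_of_eq ?_)
    simp [hn, sq]
  have hsq : ∑ s, dg g s ^ 2 ≤ n ^ 3 := by
    refine (Finset.sum_le_sum fun s _ =>
      pow_le_pow_left₀ (hdg0 s) ((hdg s).trans hdb) 2).trans (le_of_eq ?_)
    simp only [Finset.sum_const, Finset.card_univ, nsmul_eq_mul]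
    ring
  have hw : ∑ e, wt g e ^ 2 ≤ tau g := by
    refine le_trans (Finset.sum_le_sum fun e _ => ?_) hgr
    rw [← HS1.gr_self]
    exact Finset.single_le_sum (f := fun f => ‖gr g e f‖ ^ 2) (fun _ _ => sq_nonneg _)
      (Finset.mem_univ e)
  have hsplit : hs Finset.univ (Dn g - ((tau g / 2 : ℝ) : ℂ) • 1) =
      ∑ T : Finset κ, (2 * ∑ s ∈ T, ∑ t ∈ T, wt g (s, t) - (∑ e, wt g e) / 2) ^ 2 +
        ∑ T, ∑ T' ∈ Finset.univ.erase T, ‖Dn g T T'‖ ^ 2 := by
    unfold hs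
    rw [← Finset.sum_add_distrib]
    refine Finset.sum_congr rfl fun T _ => ?_
    rw [← Finset.add_sum_erase _ _ (Finset.mem_univ T)]
    congr 1
    · rw [Matrix.sub_apply, Matrix.smul_apply, Matrix.one_apply_eq, (hDIAG κ C g hS).1 T,
        smul_eq_mul, mul_one, ← Complex.ofReal_sub, Complex.norm_real, Real.norm_eq_abs, sq_abs]
      rfl
    · refine Finset.sum_congr rfl fun T' hT' => ?_
      rw [Matrix.sub_apply, Matrix.smul_apply,
        Matrix.one_apply_ne (Finset.ne_of_mem_erase hT').symm, smul_zero, sub_zero]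
  rw [hsplit]
  have h1 := HS1.diag hSGN (wt g)
  have h2 := hOFF κ C g
  refine (add_le_add h1 h2).trans ?_
  rw [← mul_add]
  refine mul_le_mul_of_nonneg_left ?_ (by positivity)
  have h3 : ∑ s, (∑ t, (wt g (s, t) + wt g (t, s))) ^ 2 ≤ n ^ 3 := hsq
  have h4 : n * ∑ e, wt g e ^ 2 ≤ n * (n ^ 2 / 2) :=
    mul_le_mul_of_nonneg_left (by linarith) hn0
  have h5 : n * ∑ e, ∑ f, ‖gr g e f‖ ^ 2 ≤ n * (n ^ 2 / 2) :=
    mul_le_mul_of_nonneg_left (by linarith) hn0
  have h6 : 0 ≤ n ^ 3 := by positivity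
  nlinarith

end Pool.Agent.Lib.LX33
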