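import Pool.Agent.Lib.LX33.Blue

namespace Pool.Agent.Lib.LX33

open Matrix Pool.Agent.Lib.CH48

namespace HS2

variable {κ : Type} [Fintype κ] [DecidableEq κ]

theorem one_term {ι : Type} [Fintype ι] (f : ι → ℂ) (h : ∀ i j, f i ≠ 0 → f j ≠ 0 → j = i) :
    ‖∑ i, f i‖ ^ 2 ≤ ∑ i, ‖f i‖ ^ 2 := by
  by_cases h0 : ∃ i, f i ≠ 0
  · obtain ⟨i, hi⟩ := h0
    rw [Finset.sum_eq_single i (fun j _ hj => by_contra fun c => hj (h i j hi c))
      (fun c => absurd (Finset.mem_univ _) c)]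
    exact Finset.single_le_sum (f := fun i => ‖f i‖ ^ 2) (fun _ _ => by positivity)
      (Finset.mem_univ i)
  · rw [Finset.sum_eq_zero fun i _ => by_contra fun c => h0 ⟨i, c⟩, norm_zero,
      zero_pow two_ne_zero]
    positivity

theorem entry {t u : κ} (h : u ≠ t) (S T : Finset κ) :
    ((A t)ᴴ * A u) S T = if t ∈ S ∧ u ∉ S ∧ T = insert u (S.erase t) then 1 else 0 := by
  rw [KIT.ct_left]
  by_cases h1 : t ∈ S <;> simp [A, h1, h]

theorem off (y : κ → κ → Finset κ → ℂ) :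
    hs Finset.univ (∑ t, ∑ u ∈ Finset.univ.erase t, diagonal (y t u) * ((A t)ᴴ * A u)) ≤
      ∑ t, ∑ u, ∑ S, ‖y t u S‖ ^ 2 := by
  have h1 : ∀ S T : Finset κ,
      (∑ t, ∑ u ∈ Finset.univ.erase t, diagonal (y t u) * ((A t)ᴴ * A u)) S T =
      ∑ p : κ × κ, if p.1 ∈ S ∧ p.2 ∉ S ∧ T = insert p.2 (S.erase p.1) then y p.1 p.2 S else 0 := by
    intro S T
    rw [Fintype.sum_prod_type, Matrix.sum_apply]
    refine Finset.sum_congr rfl fun t _ => ?_
    rw [Matrix.sum_apply, ← Finset.add_sum_erase _ _ (Finset.mem_univ t),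
      if_neg (fun c => c.2.1 c.1), zero_add]
    refine Finset.sum_congr rfl fun u hu => ?_
    rw [Matrix.diagonal_mul, entry (Finset.mem_erase.1 hu).1]
    split_ifs <;> simp
  have h2 : ∀ S T : Finset κ,
      ‖(∑ t, ∑ u ∈ Finset.univ.erase t, diagonal (y t u) * ((A t)ᴴ * A u)) S T‖ ^ 2 ≤
      ∑ p : κ × κ, if T = insert p.2 (S.erase p.1) then ‖y p.1 p.2 S‖ ^ 2 else 0 := by
    intro S T
    rw [h1]
    refine (one_term _ ?_).trans (Finset.sum_le_sum fun p _ => ?_)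
    · intro p q hp hq
      obtain ⟨a1, a2, a3⟩ : p.1 ∈ S ∧ p.2 ∉ S ∧ T = insert p.2 (S.erase p.1) :=
        by_contra fun c => hp (if_neg c)
      obtain ⟨b1, b2, b3⟩ : q.1 ∈ S ∧ q.2 ∉ S ∧ T = insert q.2 (S.erase q.1) :=
        by_contra fun c => hq (if_neg c)
      have c1 := Finset.ext_iff.1 (a3.symm.trans b3)
      simp only [Finset.mem_insert, Finset.mem_erase] at c1
      refine Prod.ext (by_contra fun c => ?_) ?_
      · rcases (c1 q.1).1 (Or.inr ⟨c, b1⟩) with d | d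
        · exact b2 (d ▸ b1)
        · exact d.1 rfl
      · exact ((c1 q.2).2 (Or.inl rfl)).resolve_right fun d => b2 d.2
    · by_cases c : T = insert p.2 (S.erase p.1)
      · rw [if_pos c]
        split_ifs
        · exact le_rfl
        · simp
      · rw [if_neg c, if_neg fun d => c d.2.2]
        simp
  refine (Finset.sum_le_sum fun S _ => Finset.sum_le_sum fun T _ => h2 S T).trans (le_of_eq ?_)
  rw [← Fintype.sum_prod_type' fun t u => ∑ S, ‖y t u S‖ ^ 2,
    Finset.sum_comm (s := (Finset.univ : Finset (κ × κ)))]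
  refine Finset.sum_congr rfl fun S _ => ?_
  rw [Finset.sum_comm]
  simp

theorem add_four {Ω : Type} [Fintype Ω] (X Y : Matrix Ω Ω ℂ) :
    hs Finset.univ (X + (4 : ℂ) • Y) ≤ 2 * hs Finset.univ X + 32 * hs Finset.univ Y := by
  simp only [hs, Finset.mul_sum, ← Finset.sum_add_distrib]
  refine Finset.sum_le_sum fun x _ => Finset.sum_le_sum fun y _ => ?_
  have h1 : ‖(X + (4 : ℂ) • Y) x y‖ ≤ ‖X x y‖ + 4 * ‖Y x y‖ := by
    refine (norm_add_le _ _).trans (le_of_eq ?_)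
    simp
  refine (pow_le_pow_left₀ (norm_nonneg _) h1 2).trans ?_
  nlinarith [sq_nonneg (‖X x y‖ - 4 * ‖Y x y‖)]

theorem hs_diag {Ω : Type} [Fintype Ω] [DecidableEq Ω] (x : Ω → ℂ) :
    hs Finset.univ (diagonal x) = ∑ S, ‖x S‖ ^ 2 := by
  refine Finset.sum_congr rfl fun S _ => ?_
  rw [Finset.sum_eq_single S (fun T _ h => by simp [Matrix.diagonal_apply_ne _ h.symm])
    (fun c => absurd (Finset.mem_univ _) c), Matrix.diagonal_apply_eq]

theorem card_sign (T : Finset κ) :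
    ∑ u, (if u ∈ T then (1 : ℂ) else -1) = 2 * T.card - Fintype.card κ := by
  have h1 : ∀ u, (if u ∈ T then (1 : ℂ) else -1) = 2 * (if u ∈ T then 1 else 0) - 1 := by
    intro u
    split_ifs <;> norm_num
  simp_rw [h1]
  rw [Finset.sum_sub_distrib, ← Finset.mul_sum, Finset.sum_boole]
  simp

end HS2

open HS2 in
theorem st_HS2 (hSGN : St_SGN) (hCOMM : St_COMM) : St_HS2 := by
  intro κ C _ _ _ g db sig hg ⟨h0, hZ, hd, hsig⟩ hn
  have w0 : ∀ e, 0 ≤ wt g e := fun e => Finset.sum_nonneg fun _ _ => by positivity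
  have d0 : ∀ s, 0 ≤ dg g s := fun s => Finset.sum_nonneg fun _ _ => add_nonneg (w0 _) (w0 _)
  have p0 : (0 : ℝ) ≤ 2 ^ Fintype.card κ := by positivity
  have e1 : (diagonal fun T : Finset κ => ∑ u, (dg g u : ℂ) * (if u ∈ T then 1 else -1)) -
      (diagonal fun T : Finset κ => ((db * (2 * T.card - Fintype.card κ) : ℝ) : ℂ)) =
      diagonal fun T => ∑ u, ((dg g u - db : ℝ) : ℂ) * (if u ∈ T then 1 else -1) := by
    rw [Matrix.diagonal_sub]
    refine congrArg diagonal (funext fun T => ?_)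
    push_cast
    rw [← card_sign, Finset.mul_sum, ← Finset.sum_sub_distrib]
    exact Finset.sum_congr rfl fun u _ => by ring
  rw [hCOMM κ C g hg, add_sub_right_comm, e1]
  refine (add_four _ _).trans ?_
  have a1 : ∑ u, ‖((dg g u - db : ℝ) : ℂ)‖ ^ 2 ≤ db ^ 2 * sig := by
    calc _ ≤ ∑ s, db * (db - dg g s) := by
          refine Finset.sum_le_sum fun s _ => ?_
          rw [Complex.norm_real, Real.norm_eq_abs, sq_abs]
          nlinarith [d0 s, hd s]
      _ ≤ db * (db * sig) := by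
          rw [← Finset.mul_sum]
          exact mul_le_mul_of_nonneg_left hsig h0
      _ = _ := by ring
  have a2 : ∑ t, ∑ t', ∑ u, ‖gr g (u, t') (u, t)‖ ^ 2 ≤ ∑ e, ∑ f, ‖gr g e f‖ ^ 2 := by
    simp only [Fintype.sum_prod_type]
    rw [Finset.sum_comm, Finset.sum_comm (f := fun u t' => ∑ v, ∑ t, ‖gr g (u, t') (v, t)‖ ^ 2)]
    refine Finset.sum_le_sum fun t' _ => ?_
    rw [Finset.sum_comm]
    refine Finset.sum_le_sum fun u _ => ?_
    exact Finset.single_le_sum (f := fun v => ∑ t, ‖gr g (u, t') (v, t)‖ ^ 2)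
      (fun _ _ => by positivity) (Finset.mem_univ u)
  have a3 : tau g ≤ (Fintype.card κ : ℝ) ^ 2 := by
    calc tau g ≤ ∑ s, dg g s := by
          rw [tau, Fintype.sum_prod_type]
          exact Finset.sum_le_sum fun s _ => Finset.sum_le_sum fun t _ =>
            le_add_of_nonneg_right (w0 _)
      _ ≤ ∑ _s : κ, (Fintype.card κ : ℝ) := Finset.sum_le_sum fun s _ => (hd s).trans hn
      _ = _ := by simp [sq]
  have a4 := off (κ := κ) fun t t' T => ∑ u, gr g (u, t') (u, t) * (if u ∈ T then 1 else -1)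
  simp only [hSGN κ, ← Finset.mul_sum] at a4
  have a5 := mul_le_mul_of_nonneg_left ((a2.trans hZ).trans a3) p0
  have a6 := mul_le_mul_of_nonneg_left a1 p0
  rw [hs_diag, hSGN κ]
  linarith

end Pool.Agent.Lib.LX33
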