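import Pool.Agent.Lib.LX33.Blue

namespace Pool.Agent.Lib.LX33

open Module Submodule

theorem st_IND : St_IND := by
  intro κ V _ _ L S ρ hρ
  obtain ⟨b, hb, -, hsp, hli⟩ :=
    exists_linearIndepOn_extension (K := ℂ) (v := L) (linearIndepOn_empty ℂ L)
      (Set.empty_subset (S : Set κ))
  obtain ⟨J, rfl⟩ := (S.finite_toSet.subset hb).exists_finset_coe
  have h1 := finrank_span_eq_card (R := ℂ) (b := fun s : J => L s) hli
  rw [Fintype.card_coe] at h1
  have h2 : span ℂ (L '' S) ≤ span ℂ (Set.range fun s : J => L s) := by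
    refine span_le.2 (hsp.trans (span_mono ?_))
    rintro _ ⟨t, ht, rfl⟩
    exact ⟨⟨t, ht⟩, rfl⟩
  have : Module.Finite ℂ (span ℂ (Set.range fun s : J => L s)) :=
    Module.Finite.span_of_finite ℂ (Set.finite_range _)
  obtain ⟨I, hI, hc⟩ := Finset.exists_subset_card_eq
    (hρ.trans ((Submodule.finrank_mono h2).trans h1.le))
  exact ⟨I, hI.trans (Finset.coe_subset.1 hb), hc, hli.mono (Finset.coe_subset.2 hI)⟩

end Pool.Agent.Lib.LX33
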