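import Pool.Agent.Lib.LX33.Blue

namespace Pool.Agent.Lib.LX33

open Matrix MvPolynomial Module Pool.Agent.Lib.CH48

namespace KEY

/-- The symmetrised coefficient vectors. -/
def uq {κ ι : Type} [DecidableEq κ] [Fintype ι] (L : κ → ι × ι → ℂ) :
    Submodule ℂ (κ × κ → ℂ) where
  carrier := {u | ∃ c, InQ c ∧ u = gq c L}
  add_mem' := by
    rintro _ _ ⟨c, hc, rfl⟩ ⟨c', hc', rfl⟩
    refine ⟨c + c', fun a b i j h h' => ?_, ?_⟩
    · have h1 := hc a b i j h h'
      have h2 := hc' a b i j h h'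
      simp only [Pi.add_apply]
      linear_combination h1 + h2
    · funext e
      simp only [gq, mm, Pi.add_apply, add_mul, Finset.sum_add_distrib]
      split_ifs <;> ring
  zero_mem' := ⟨0, fun _ _ _ _ _ _ => by simp, by
    funext e
    simp [gq, mm]⟩
  smul_mem' := by
    rintro x _ ⟨c, hc, rfl⟩
    refine ⟨x • c, fun a b i j h h' => ?_, ?_⟩
    · have h1 := hc a b i j h h'
      simp only [Pi.smul_apply, smul_eq_mul]
      linear_combination x * h1
    · funext e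
      simp only [gq, mm, Pi.smul_apply, smul_eq_mul, mul_assoc, ← Finset.mul_sum]
      split_ifs <;> ring

theorem small {n : ℕ} (L : Fin n → Fin n × Fin n → ℂ)
    (M N : ℕ → Submodule ℂ (Finset (Fin n) → ℂ)) (a k ρ : ℕ) (θ : ℝ) (hθ : 0 < θ)
    (hT : Term L M N) (hW : Win θ n a k) (hn : (n : ℝ) ≤ θ ^ 2 * 2 ^ ρ) (hs : 24 ≤ θ * √n)
    (h : 2 ^ ρ * finrank ℂ (LinearMap.range (PHI.phi L)) ≤ 2 ^ n) : defect M N a k ≤ 1 := by
  have hsq : 0 < √(n : ℝ) := by
    by_contra h0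
    have := mul_nonpos_of_nonneg_of_nonpos hθ.le (not_lt.1 h0)
    linarith
  have h2 : (0 : ℝ) < 2 ^ ρ := by positivity
  have h3 : (0 : ℝ) < 2 ^ n := by positivity
  have key : ∀ j ∈ Finset.range k,
      ((finrank ℂ (M (a + 2 * j + 2)) : ℝ) - finrank ℂ (N (a + 2 * j + 2))) /
        (Fintype.card (Fin n)).choose (a + 2 * j + 2) ≤ √n / (θ * 2 ^ ρ) := by
    intro j hj
    obtain ⟨h4, _⟩ := hW.2.2 j (Finset.mem_range.1 hj)
    set d := a + 2 * j + 2
    have h5 := PHI.rank_null (PHI.phi L) (M d)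
    have h6 : M d ⊓ LinearMap.ker (PHI.phi L) ≤ N d := fun v hv => hT.2.2 d v hv.1 hv.2
    have h7 := Submodule.finrank_mono h6
    have h8 : finrank ℂ ((M d).map (PHI.phi L)) ≤ finrank ℂ (LinearMap.range (PHI.phi L)) :=
      Submodule.finrank_mono LinearMap.map_le_range
    have h9 : 2 ^ ρ * finrank ℂ (M d) ≤ 2 ^ n + 2 ^ ρ * finrank ℂ (N d) := by
      calc 2 ^ ρ * finrank ℂ (M d)
          ≤ 2 ^ ρ * (finrank ℂ (LinearMap.range (PHI.phi L)) + finrank ℂ (N d)) :=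
            Nat.mul_le_mul_left _ (by omega)
        _ ≤ _ := by rw [mul_add]; omega
    have h10 : (2 : ℝ) ^ ρ * finrank ℂ (M d) ≤ 2 ^ n + 2 ^ ρ * finrank ℂ (N d) := by
      exact_mod_cast h9
    have hc : (0 : ℝ) < n.choose d := by
      by_contra h0
      have := mul_nonpos_of_nonneg_of_nonpos hsq.le (not_lt.1 h0)
      have := mul_pos hθ h3
      linarith
    rw [Fintype.card_fin, div_le_div_iff₀ hc (mul_pos hθ h2)]
    nlinarith
  refine (Finset.sum_le_sum key).trans ?_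
  rw [Finset.sum_const, Finset.card_range, nsmul_eq_mul, ← mul_div_assoc,
    div_le_one (mul_pos hθ h2)]
  have h11 : √(n : ℝ) * √n = n := Real.mul_self_sqrt (Nat.cast_nonneg n)
  have h12 := mul_le_mul_of_nonneg_right hW.2.1 hsq.le
  refine le_of_mul_le_mul_right ?_ hθ
  nlinarith

theorem sum_dg {κ C : Type} [Fintype κ] [Fintype C] (g : C → κ × κ → ℂ) :
    ∑ s, dg g s = 2 * tau g := by
  simp only [dg, tau, Finset.sum_add_distrib, Fintype.sum_prod_type]
  rw [Finset.sum_comm (f := fun s t => wt g (t, s))]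
  ring

end KEY

theorem st_KEY (hSMALL : St_SMALL) (hRANK : St_RANK) (hIND : St_IND) (hSCALE : St_SCALE)
    (hTOR : St_TOR) (hASY : St_ASY) (hBIG : St_BIG) : St_KEY := by
  intro θ η hθ hθ1 hη
  obtain ⟨N₀, h0⟩ := hASY θ η hθ hθ1 hη
  refine ⟨N₀, fun n hn L M N a k hT hW => ?_⟩
  obtain ⟨ρ, X, Y, Z, h4, h8, hn2, h24, hX, hY, hZ, hX2, hY2, hZ2, hfin⟩ := h0 n hn
  by_cases hs : ∃ S : Finset (Fin n), S.card = 8 * ρ ∧
      finrank ℂ (Submodule.span ℂ (L '' S)) ≤ ρ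
  · obtain ⟨S, hS, hr⟩ := hs
    have h1 := hSMALL (Fin n) L S ρ hS hr
    rw [Fintype.card_fin] at h1
    have := KEY.small L M N a k ρ θ hθ hT hW hn2 h24 h1
    linarith
  have hρ : (4 : ℝ) ≤ ρ := by exact_mod_cast h4
  have hρn : 8 * (ρ : ℝ) ≤ n := by exact_mod_cast h8
  have hn0 : (0 : ℝ) < n := by linarith
  obtain ⟨v, g, hv, hg, hB⟩ := hSCALE (Fin n) (KEY.uq L) ((ρ : ℝ) ^ 2 / 8)
    (2 * (ρ : ℝ) ^ 3 / n ^ 2) (8 * ρ) (by positivity)
    (by rw [Fintype.card_fin]; push_cast; field_simp) (by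
      intro S hS
      obtain ⟨S', hS', hc⟩ := Finset.exists_subset_card_eq hS
      have h1 : ρ ≤ finrank ℂ (Submodule.span ℂ (L '' S')) := by
        by_contra h2
        exact hs ⟨S', hc, (not_le.1 h2).le⟩
      obtain ⟨J, hJ, hJc, hJi⟩ := hIND (Fin n) _ L S' ρ h1
      obtain ⟨I, hI, hI2, hI3⟩ := hRANK n L J (by omega) hJi
      refine ⟨I, ?_, fun e he => ⟨hS' (hJ (hI2 e he).1), hS' (hJ (hI2 e he).2)⟩,
        fun β hβ hβ2 => hI3 β hβ fun c hc => hβ2 _ ⟨c, hc, rfl⟩⟩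
      rw [hJc] at hI
      have h3 : (ρ : ℝ) ^ 2 ≤ 8 * I.card := by exact_mod_cast hI
      linarith)
  have hsig : (2 * ((8 * ρ : ℕ) : ℝ) + 1) = 16 * ρ + 1 := by
    push_cast
    ring
  rw [hsig] at hB
  obtain ⟨M', N', hP, hf, hm⟩ := (hTOR (Fin n)).2 (fun s => (v s : ℂ)) M N
    (fun s => by exact_mod_cast (hv s).ne') hT.1
  have hsym : Sym0 g := by
    refine ⟨fun c s t => ?_, fun c s => ?_⟩
    · obtain ⟨_, ⟨q, _, rfl⟩, hu⟩ := hg c
      rw [hu, hu]
      simp only [gq]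
      by_cases h : s = t
      · rw [if_pos h, if_pos h.symm, mul_zero, mul_zero]
      · rw [if_neg h, if_neg (Ne.symm h)]
        ring
    · obtain ⟨_, ⟨q, _, rfl⟩, hu⟩ := hg c
      rw [hu]
      simp [gq]
  have hmaps : ∀ c, Maps (Eg (g c)) M' N' := by
    intro c
    obtain ⟨_, ⟨q, hq, rfl⟩, hu⟩ := hg c
    have h1 : Maps (E fun s t => gq q L (s, t)) M N := by
      intro d w hw
      have h2 : (E fun s t => gq q L (s, t)) = (2 : ℂ) • E (mm q L) := (hTOR (Fin n)).1 (mm q L)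
      rw [h2, Matrix.smul_mulVec]
      exact (N d).smul_mem _ (hT.2.1 q hq d w hw)
    have h3 : Eg (g c) = E fun s t => (v s : ℂ) * v t * gq q L (s, t) := by
      unfold Eg
      congr 1
      funext s t
      exact hu (s, t)
    rw [h3]
    exact hm _ h1
  have hdb : 2 * (ρ : ℝ) ^ 3 / n ^ 2 ≤ n := by
    rw [div_le_iff₀ (by positivity)]
    have h1 : (ρ : ℝ) ≤ n / 8 := by linarith
    have h2 : (ρ : ℝ) ^ 3 ≤ (n / 8) ^ 3 := pow_le_pow_left₀ (by linarith) h1 3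
    have h3 : (0 : ℝ) < (n : ℝ) ^ 3 := by positivity
    nlinarith
  have hbig := hBIG (Fin n) _ g M' N' _ _ θ X Y Z n a k (Fintype.card_fin n) hsym hB hdb hP hmaps
    hW hθ hθ1 h24 hX hY hZ hX2 hY2 hZ2
  have hdef : defect M' N' a k = defect M N a k := by
    unfold defect
    exact Finset.sum_congr rfl fun j _ => by rw [(hf _).1, (hf _).2]
  rw [hdef] at hbig
  refine hfin (tau g) _ ?_ ?_ hbig
  · have h1 := hB.2.2.2
    rw [Finset.sum_sub_distrib, KEY.sum_dg, Finset.sum_const, Finset.card_univ, Fintype.card_fin,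
      nsmul_eq_mul] at h1
    linarith
  · refine Finset.sum_nonneg fun j _ => div_nonneg (sub_nonneg.2 ?_) (Nat.cast_nonneg _)
    exact_mod_cast Submodule.finrank_mono (hT.1 _).1

end Pool.Agent.Lib.LX33
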