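import Pool.Agent.Lib.LX33.Blue

/-! Trace inequalities for a family of matrices that sends one subspace into another. -/

namespace Pool.Agent.Lib.LX33

open Matrix Module

namespace LA

variable {Ω : Type} [Fintype Ω] [DecidableEq Ω]

theorem ext_vec {A B : Matrix Ω Ω ℂ} (h : ∀ v, A *ᵥ v = B *ᵥ v) : A = B :=
  Matrix.ext_of_mulVec_single fun _ => h _

theorem idem {P : Matrix Ω Ω ℂ} {M : Submodule ℂ (Ω → ℂ)} (h : IsProj P M) : P * P = P :=
  ext_vec fun v => by rw [← Matrix.mulVec_mulVec]; exact h.2.2.1 _ (h.2.1 v)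

omit [DecidableEq Ω] in
theorem tr_nonneg (Z : Matrix Ω Ω ℂ) : 0 ≤ (trace (Z * Zᴴ)).re := by
  rw [Matrix.trace, Complex.re_sum]
  refine Finset.sum_nonneg fun i _ => ?_
  rw [Matrix.diag_apply, Matrix.mul_apply, Complex.re_sum]
  refine Finset.sum_nonneg fun j _ => ?_
  rw [Matrix.conjTranspose_apply, Complex.star_def, Complex.mul_conj, Complex.ofReal_re]
  exact Complex.normSq_nonneg _

omit [DecidableEq Ω] in
theorem tr_proj (R Y : Matrix Ω Ω ℂ) (h1 : Rᴴ = R) (h2 : R * R = R) :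
    trace (R * (Y * Yᴴ)) = trace (R * Y * (R * Y)ᴴ) := by
  rw [Matrix.conjTranspose_mul, h1, ← Matrix.mul_assoc (R * Y), Matrix.trace_mul_comm _ R,
    Matrix.mul_assoc R Y, ← Matrix.mul_assoc R R, h2]

omit [DecidableEq Ω] in
theorem proj_nonneg (R Y : Matrix Ω Ω ℂ) (h1 : Rᴴ = R) (h2 : R * R = R) :
    0 ≤ rtr R (Y * Yᴴ) := by
  rw [rtr, tr_proj R Y h1 h2]
  exact tr_nonneg _

omit [DecidableEq Ω] in
theorem rtr_sub (P Q X : Matrix Ω Ω ℂ) : rtr (P - Q) X = rtr P X - rtr Q X := by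
  rw [rtr, rtr, rtr, Matrix.sub_mul, Matrix.trace_sub, Complex.sub_re]

omit [DecidableEq Ω] in
theorem rtr_sum {C : Type} [Fintype C] (P : Matrix Ω Ω ℂ) (X : C → Matrix Ω Ω ℂ) :
    rtr P (∑ c, X c) = ∑ c, rtr P (X c) := by
  rw [rtr, Matrix.mul_sum, Matrix.trace_sum, Complex.re_sum]
  rfl

omit [DecidableEq Ω] in
theorem mono (D Q Y : Matrix Ω Ω ℂ) (hD1 : Dᴴ = D) (hD2 : D * D = D) (hQ1 : Qᴴ = Q)
    (hQ2 : Q * Q = Q) (hDQ : D * Q = Q) : rtr Q (Y * Yᴴ) ≤ rtr D (Y * Yᴴ) := by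
  have hQD : Q * D = Q := by
    have h := congrArg Matrix.conjTranspose hDQ
    rwa [Matrix.conjTranspose_mul, hD1, hQ1] at h
  have h := proj_nonneg (D - Q) Y (by rw [Matrix.conjTranspose_sub, hD1, hQ1])
    (by rw [Matrix.sub_mul, Matrix.mul_sub, Matrix.mul_sub, hD2, hDQ, hQD, hQ2, sub_self,
      sub_zero])
  rw [rtr_sub] at h
  linarith

theorem one_step (X P Q : Matrix Ω Ω ℂ) (hP1 : Pᴴ = P) (hP2 : P * P = P) (hQ1 : Qᴴ = Q)
    (hQ2 : Q * Q = Q) (h : Q * X * P = X * P) : rtr P (Xᴴ * X) ≤ rtr Q (X * Xᴴ) := by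
  have h' : P * (Q * X)ᴴ = P * Xᴴ := by
    have h1 := congrArg Matrix.conjTranspose h
    rwa [Matrix.conjTranspose_mul _ P, Matrix.conjTranspose_mul X P, hP1] at h1
  have e1 : rtr P (Xᴴ * X) = rtr P ((Q * X)ᴴ * ((Q * X)ᴴ)ᴴ) := by
    have h1 := tr_proj P Xᴴ hP1 hP2
    rw [Matrix.conjTranspose_conjTranspose] at h1
    rw [rtr, rtr, h1, tr_proj P _ hP1 hP2, h']
  have e2 : rtr 1 ((Q * X)ᴴ * ((Q * X)ᴴ)ᴴ) = rtr Q (X * Xᴴ) := by
    rw [rtr, rtr, Matrix.one_mul, Matrix.conjTranspose_conjTranspose, Matrix.trace_mul_comm,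
      tr_proj Q X hQ1 hQ2]
  rw [e1, ← e2]
  exact mono 1 P _ Matrix.conjTranspose_one (Matrix.one_mul _) hP1 hP2 (Matrix.one_mul _)

theorem ltr_eq (Λ : Finset Ω) (Z : Matrix Ω Ω ℂ) :
    rtr (diagonal fun x => if x ∈ Λ then (1 : ℂ) else 0) Z = ltr Λ Z := by
  rw [rtr, ltr, Matrix.trace, Complex.re_sum]
  have h : ∀ x, ((diagonal (fun x => if x ∈ Λ then (1 : ℂ) else 0) * Z).diag x).re =
      if x ∈ Λ then (Z x x).re else 0 := by
    intro x
    rw [Matrix.diag_apply, Matrix.diagonal_mul]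
    by_cases hx : x ∈ Λ <;> simp [hx]
  rw [Finset.sum_congr rfl fun x _ => h x, Finset.sum_ite_mem, Finset.univ_inter]

end LA

theorem st_LA : St_LA := by
  intro Ω C _ _ _ X P Q M N Λ hP hQ hΛ hX
  have hP2 := LA.idem hP
  have hQ2 := LA.idem hQ
  refine ⟨?_, ?_, ?_⟩
  · rw [LA.rtr_sum, LA.rtr_sum]
    refine Finset.sum_le_sum fun c _ => LA.one_step _ _ _ hP.1 hP2 hQ.1 hQ2 (LA.ext_vec fun v => ?_)
    rw [Matrix.mul_assoc, ← Matrix.mulVec_mulVec, ← Matrix.mulVec_mulVec]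
    exact hQ.2.2.1 _ (hX c _ (hP.2.1 v))
  · rw [LA.rtr_sum]
    exact Finset.sum_nonneg fun c _ => LA.proj_nonneg _ _ hQ.1 hQ2
  · rw [← LA.ltr_eq, LA.rtr_sum, LA.rtr_sum]
    refine Finset.sum_le_sum fun c _ => LA.mono _ _ _ ?_ ?_ hQ.1 hQ2 (LA.ext_vec fun v => ?_)
    · rw [Matrix.diagonal_conjTranspose]
      congr 1
      funext x
      by_cases hx : x ∈ Λ <;> simp [hx]
    · rw [Matrix.diagonal_mul_diagonal]
      congr 1
      funext x
      by_cases hx : x ∈ Λ <;> simp [hx]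
    · rw [← Matrix.mulVec_mulVec]
      funext x
      rw [Matrix.mulVec_diagonal]
      by_cases hx : x ∈ Λ
      · rw [if_pos hx, one_mul]
      · rw [if_neg hx, zero_mul]
        exact (hΛ _ (hQ.2.1 v) x hx).symm

end Pool.Agent.Lib.LX33
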