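import Pool.Agent.Lib.LX33.Blue

/-! The trace of the difference of two nested projections against a nearly scalar matrix. -/

namespace Pool.Agent.Lib.LX33

open Matrix Module

namespace LB

variable {Ω : Type} [Fintype Ω] [DecidableEq Ω]

theorem mul_eq {P Q : Matrix Ω Ω ℂ} {M : Submodule ℂ (Ω → ℂ)} (hP : IsProj P M)
    (hQ : ∀ v, Q *ᵥ v ∈ M) : P * Q = Q := by
  ext x y
  have h := congrFun (hP.2.2.1 _ (hQ (Pi.single y 1))) x
  rw [mulVec_mulVec] at h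
  simpa using h

theorem row0 {P : Matrix Ω Ω ℂ} {M : Submodule ℂ (Ω → ℂ)} {Λ : Finset Ω}
    (hP : ∀ v, P *ᵥ v ∈ M) (hM : Supp Λ M) (x y : Ω) (hx : x ∉ Λ) : P x y = 0 := by
  simpa using hM _ (hP (Pi.single y 1)) x hx

omit [DecidableEq Ω] in
theorem rtr_self {D : Matrix Ω Ω ℂ} (h1 : Dᴴ = D) : ∑ x, ∑ y, ‖D y x‖ ^ 2 = rtr D D := by
  have h : rtr D D = (Dᴴ * D).trace.re := by rw [h1, rtr]
  rw [h, trace, Complex.re_sum]
  refine Finset.sum_congr rfl fun x _ => ?_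
  rw [diag_apply, Matrix.mul_apply, Complex.re_sum]
  refine Finset.sum_congr rfl fun y _ => ?_
  rw [conjTranspose_apply, Complex.star_def, mul_comm, Complex.mul_conj, Complex.ofReal_re,
    Complex.normSq_eq_norm_sq]

omit [DecidableEq Ω] in
theorem cs {D : Matrix Ω Ω ℂ} (h1 : Dᴴ = D) {Λ : Finset Ω} (hF : ∀ x y, x ∉ Λ → D x y = 0)
    {Z : Matrix Ω Ω ℂ} {α : ℝ} (hα : 0 ≤ α) (hZ : hs Λ Z ≤ α ^ 2) :
    |rtr D Z| ≤ √(rtr D D) * α := by
  have h3 : (D * Z).trace = ∑ p ∈ Λ ×ˢ Finset.univ, D p.2 p.1 * Z p.1 p.2 := by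
    rw [trace_mul_comm, trace, Finset.sum_product]
    symm
    refine (Finset.sum_congr rfl fun x _ => ?_).trans
      (Finset.sum_subset (Finset.subset_univ Λ) fun x _ hx => ?_)
    · rw [diag_apply, Matrix.mul_apply]
      exact Finset.sum_congr rfl fun y _ => mul_comm _ _
    · rw [diag_apply, Matrix.mul_apply]
      refine Finset.sum_eq_zero fun y _ => ?_
      rw [← h1, conjTranspose_apply, hF x y hx, star_zero, mul_zero]
  have h4 : ∑ p ∈ Λ ×ˢ Finset.univ, ‖D p.2 p.1‖ ^ 2 ≤ rtr D D := by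
    rw [← rtr_self h1, Finset.sum_product]
    exact Finset.sum_le_sum_of_subset_of_nonneg (Finset.subset_univ _) fun _ _ _ =>
      Finset.sum_nonneg fun _ _ => sq_nonneg _
  have h5 : ∑ p ∈ Λ ×ˢ Finset.univ, ‖Z p.1 p.2‖ ^ 2 ≤ α ^ 2 := by
    rw [Finset.sum_product]
    exact hZ
  calc _ ≤ ‖(D * Z).trace‖ := Complex.abs_re_le_norm _
    _ ≤ ∑ p ∈ Λ ×ˢ Finset.univ, ‖D p.2 p.1‖ * ‖Z p.1 p.2‖ := by
        rw [h3]
        exact (norm_sum_le _ _).trans (le_of_eq (Finset.sum_congr rfl fun p _ => norm_mul _ _))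
    _ ≤ √(∑ p ∈ Λ ×ˢ Finset.univ, ‖D p.2 p.1‖ ^ 2) *
          √(∑ p ∈ Λ ×ˢ Finset.univ, ‖Z p.1 p.2‖ ^ 2) :=
        Real.sum_mul_le_sqrt_mul_sqrt _ _ _
    _ ≤ _ := mul_le_mul (Real.sqrt_le_sqrt h4) (Real.sqrt_le_iff.2 ⟨hα, h5⟩) (Real.sqrt_nonneg _)
        (Real.sqrt_nonneg _)

end LB

theorem st_LB : St_LB := by
  intro Ω _ _ X P Q M N Λ μ α hP hQ hNM hM hα hX
  have hQM : ∀ v, Q *ᵥ v ∈ M := fun v => hNM (hQ.2.1 v)
  have e1 := LB.mul_eq hP hP.2.1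
  have e2 := LB.mul_eq hQ hQ.2.1
  have e3 := LB.mul_eq hP hQM
  have e4 : Q * P = Q := by
    have h := congrArg conjTranspose e3
    rwa [conjTranspose_mul, hP.1, hQ.1] at h
  have h1 : (P - Q)ᴴ = P - Q := by rw [conjTranspose_sub, hP.1, hQ.1]
  have h2 : (P - Q).trace.re = (finrank ℂ M : ℝ) - finrank ℂ N := by
    rw [trace_sub, hP.2.2.2, hQ.2.2.2]
    simp
  have h3 : rtr (P - Q) (P - Q) = (finrank ℂ M : ℝ) - finrank ℂ N := by
    rw [rtr, Matrix.mul_sub, Matrix.sub_mul, Matrix.sub_mul, e1, e2, e3, e4, sub_self, sub_zero,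
      h2]
  have h4 := LB.cs h1 (fun x y hx => by
    rw [Matrix.sub_apply, LB.row0 hP.2.1 hM x y hx, LB.row0 hQM hM x y hx, sub_zero]) hα hX
  have h5 : rtr (P - Q) (X - (μ : ℂ) • 1) =
      rtr P X - rtr Q X - μ * ((finrank ℂ M : ℝ) - finrank ℂ N) := by
    rw [rtr, Matrix.mul_sub, Matrix.mul_smul, Matrix.mul_one, trace_sub, trace_smul,
      Complex.sub_re, smul_eq_mul, Complex.re_ofReal_mul, h2, Matrix.sub_mul, trace_sub,
      Complex.sub_re, rtr, rtr]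
  rw [h3, h5] at h4
  linarith [(abs_le.1 h4).1]

end Pool.Agent.Lib.LX33
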