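import Pool.Agent.Lib.LX33.Blue

namespace Pool.Agent.Lib.LX33

open Matrix Module Pool.Agent.Lib.CH48

namespace LTR

variable {κ : Type} [Fintype κ] [DecidableEq κ]

theorem cnt_in (s t : κ) (h : s ≠ t) (d : ℕ) :
    ((lev κ (d + 2)).filter fun T => s ∈ T ∧ t ∈ T).card = (Fintype.card κ - 2).choose d := by
  have h1 := Finset.card_filter_powersetCard_subset ({s, t} : Finset κ) Finset.univ (d + 2)
    (Finset.subset_univ _) (by rw [Finset.card_pair h]; omega)
  rw [Finset.card_pair h, Finset.card_univ, Nat.add_sub_cancel] at h1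
  rw [← h1]
  refine congrArg Finset.card (Finset.filter_congr fun T _ => ?_)
  simp [Finset.insert_subset_iff]

theorem cnt_out (s t : κ) (h : s ≠ t) (d : ℕ) :
    ((lev κ d).filter fun T => s ∈ Tᶜ ∧ t ∈ Tᶜ).card = (Fintype.card κ - 2).choose d := by
  have h1 : ((lev κ d).filter fun T => s ∈ Tᶜ ∧ t ∈ Tᶜ) =
      Finset.powersetCard d ({s, t} : Finset κ)ᶜ := by
    ext T
    simp only [lev, Finset.mem_filter, Finset.mem_powersetCard, Finset.subset_univ, true_and,
      Finset.mem_compl, Finset.subset_compl_comm (s := T), Finset.insert_subset_iff,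
      Finset.singleton_subset_iff]
    exact and_comm
  rw [h1, Finset.card_powersetCard, Finset.card_compl, Finset.card_pair h]

theorem swap (Λ : Finset (Finset κ)) (φ : Finset κ → Finset κ) (w : κ × κ → ℝ) (B : ℕ)
    (h0 : ∀ s, w (s, s) = 0)
    (hB : ∀ s t, s ≠ t → (Λ.filter fun T => s ∈ φ T ∧ t ∈ φ T).card = B) :
    ∑ T ∈ Λ, 2 * ∑ s ∈ φ T, ∑ t ∈ φ T, w (s, t) = 2 * (∑ e, w e) * B := by
  have h1 : ∀ T, ∑ s ∈ φ T, ∑ t ∈ φ T, w (s, t) =
      ∑ e : κ × κ, if e.1 ∈ φ T ∧ e.2 ∈ φ T then w e else 0 := by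
    intro T
    rw [← Finset.sum_product', ← Finset.sum_filter]
    refine Finset.sum_congr ?_ fun _ _ => rfl
    ext e
    simp
  rw [← Finset.mul_sum, mul_assoc, Finset.sum_mul]
  simp only [h1]
  rw [Finset.sum_comm]
  refine congrArg _ (Finset.sum_congr rfl fun e _ => ?_)
  rw [← Finset.sum_filter, Finset.sum_const, nsmul_eq_mul]
  obtain ⟨s, t⟩ := e
  by_cases h : s = t
  · subst h
    simp [h0]
  · rw [hB s t h, mul_comm]

end LTR

theorem st_LTR (hDIAG : St_DIAG) : St_LTR := by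
  intro κ C _ _ _ g hg d
  obtain ⟨h1, h2⟩ := hDIAG κ C g hg
  have h0 : ∀ s, wt g (s, s) = 0 := by
    intro s
    simp [wt, hg.2]
  constructor
  · unfold ltr tau
    simp only [h1, Complex.ofReal_re]
    exact LTR.swap _ (fun T => T) _ _ h0 fun s t h => LTR.cnt_in s t h d
  · unfold ltr tau
    simp only [h2, Complex.ofReal_re]
    exact LTR.swap _ (fun T => Tᶜ) _ _ h0 fun s t h => LTR.cnt_out s t h d

end Pool.Agent.Lib.LX33
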