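import Pool.Agent.Lib.LX33.Blue

namespace Pool.Agent.Lib.LX33

open Matrix MvPolynomial Module Pool.Agent.Lib.CH48

theorem st_MAIN (hFILT : St_FILT) (hBIN : St_BIN) (hKEY : St_KEY) : St_MAIN := by
  intro ε hε
  obtain ⟨θ, hθ, hθ1, N₁, h1⟩ := hBIN (ε / 2) (by linarith)
  obtain ⟨N₂, h2⟩ := hKEY θ (ε / 2) hθ hθ1 (by linarith)
  refine ⟨max N₁ N₂, fun n hn r a h => ?_⟩
  obtain ⟨b, k, hW, hs⟩ := h1 n (le_trans (le_max_left _ _) hn)
  obtain ⟨M, N, hT, hd⟩ := hFILT (Fin n) r a h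
  have h3 : ∀ i, defect (M i) (N i) b k ≤ 1 + ε / 2 := fun i =>
    h2 n (le_trans (le_max_right _ _) hn) (a i) (M i) (N i) b k (hT i) hW
  have h4 : ∑ j ∈ Finset.range k, (n.choose (b + 2 * j + 2) : ℝ) ≤
      ∑ i, defect (M i) (N i) b k := by
    simp only [defect]
    rw [Finset.sum_comm]
    refine Finset.sum_le_sum fun j hj => ?_
    have hj' : j < k := Finset.mem_range.1 hj
    have hle : b + 2 * j + 2 ≤ n := by
      have := hW.1
      omega
    have hpos : (0 : ℝ) < n.choose (b + 2 * j + 2) := by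
      exact_mod_cast Nat.choose_pos hle
    rw [← Finset.sum_div, Fintype.card_fin, le_div_iff₀ hpos, Finset.sum_sub_distrib]
    have h5 := hd (b + 2 * j + 2)
    rw [Fintype.card_fin] at h5
    have h6 : ((n.choose (b + 2 * j + 2) ^ 2 + ∑ i, finrank ℂ (N i (b + 2 * j + 2)) : ℕ) : ℝ) ≤
        ((∑ i, finrank ℂ (M i (b + 2 * j + 2)) : ℕ) : ℝ) := by
      exact_mod_cast h5
    push_cast at h6
    nlinarith
  have h7 : ∑ i, defect (M i) (N i) b k ≤ r * (1 + ε / 2) := by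
    refine (Finset.sum_le_sum fun i _ => h3 i).trans ?_
    rw [Finset.sum_const, Finset.card_univ, Fintype.card_fin, nsmul_eq_mul]
  have h8 : (0 : ℝ) < 2 ^ (n - 1) := by positivity
  have h9 : (1 - ε) * 2 ^ (n - 1) * (1 + ε / 2) ≤ r * (1 + ε / 2) := by
    have h10 : (1 - ε) * (1 + ε / 2) ≤ 1 - ε / 2 := by nlinarith
    have h11 := mul_le_mul_of_nonneg_right h10 h8.le
    nlinarith
  exact le_of_mul_le_mul_right h9 (by linarith)

end Pool.Agent.Lib.LX33
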