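import Pool.Agent.Lib.LX33.Blue

namespace Pool.Agent.Lib.LX33

open Matrix Pool.Agent.Lib.CH48

namespace OFF

variable {κ : Type} [Fintype κ] [DecidableEq κ]

/-- `T` is `S` with the two new elements of `e`. -/
def Cd (e : κ × κ) (S T : Finset κ) : Prop :=
  e.1 ∉ S ∧ e.2 ∉ S ∧ e.1 ≠ e.2 ∧ T = insert e.2 (insert e.1 S)

instance (e : κ × κ) (S T : Finset κ) : Decidable (Cd e S T) := by
  unfold Cd
  infer_instance

theorem eg_apply (g : κ × κ → ℂ) (S T : Finset κ) :
    Eg g S T = ∑ e, g e * if Cd e S T then 1 else 0 := by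
  rw [Eg, KIT.e_apply, Fintype.sum_prod_type]
  rfl

/-- The triples that feed the entry `(T, T')`. -/
def D (T T' : Finset κ) : Finset (Finset κ × (κ × κ) × (κ × κ)) :=
  Finset.univ.filter fun z => Cd z.2.1 z.1 T ∧ Cd z.2.2 z.1 T'

theorem dn_apply {C : Type} [Fintype C] (g : C → κ × κ → ℂ) (T T' : Finset κ) :
    Dn g T T' = ∑ z ∈ D T T', gr g z.2.2 z.2.1 := by
  rw [Dn, Matrix.sum_apply, D, Finset.sum_filter]
  simp only [Matrix.mul_apply, Matrix.conjTranspose_apply, eg_apply]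
  rw [Finset.sum_comm, Fintype.sum_prod_type]
  refine Finset.sum_congr rfl fun S _ => ?_
  rw [Fintype.sum_prod_type]
  simp only [star_sum, Finset.sum_mul_sum]
  rw [Finset.sum_comm]
  refine Finset.sum_congr rfl fun e _ => ?_
  rw [Finset.sum_comm]
  refine Finset.sum_congr rfl fun f _ => ?_
  by_cases h1 : Cd e S T <;> by_cases h2 : Cd f S T' <;> simp [h1, h2, gr, mul_comm]

omit [Fintype κ] in
theorem cd_card {e : κ × κ} {S T : Finset κ} (h : Cd e S T) : T.card = S.card + 2 := by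
  obtain ⟨a, b, c, rfl⟩ := h
  rw [Finset.card_insert_of_notMem (by simp [b, c.symm]), Finset.card_insert_of_notMem a]

omit [Fintype κ] in
theorem cd_inj {e : κ × κ} {S S' T : Finset κ} (h : Cd e S T) (h' : Cd e S' T) : S = S' := by
  obtain ⟨a, b, -, rfl⟩ := h
  obtain ⟨a', b', -, h⟩ := h'
  ext x
  have := Finset.ext_iff.1 h x
  simp only [Finset.mem_insert] at this
  by_cases h1 : x = e.1
  · simp [h1, a, a']
  · by_cases h2 : x = e.2
    · simp [h2, b, b']
    · simpa [h1, h2] using this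

omit [Fintype κ] in
theorem cd_two {e f : κ × κ} {S T : Finset κ} (h : Cd e S T) (h' : Cd f S T) :
    f = e ∨ f = e.swap := by
  obtain ⟨a, b, c, rfl⟩ := h
  obtain ⟨a', b', c', h⟩ := h'
  have h1 := (Finset.ext_iff.1 h f.1).2 (by simp)
  have h2 := (Finset.ext_iff.1 h f.2).2 (by simp)
  simp only [Finset.mem_insert, a', b', or_false] at h1 h2
  rcases h1 with h1 | h1 <;> rcases h2 with h2 | h2
  · exact absurd (h1.trans h2.symm) c'
  · exact Or.inr (Prod.ext h1 h2)
  · exact Or.inl (Prod.ext h1 h2)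
  · exact absurd (h1.trans h2.symm) c'

theorem card_D {T T' : Finset κ} (hT : T' ≠ T) : (D T T').card ≤ 4 * Fintype.card κ := by
  rcases (D T T').eq_empty_or_nonempty with h0 | ⟨z0, hz0⟩
  · simp [h0]
  have hz := (Finset.mem_filter.1 hz0).2
  have hc : T.card = T'.card := by rw [cd_card hz.1, cd_card hz.2]
  have hns : ¬ T ⊆ T' := fun hs => hT (Finset.eq_of_subset_of_card_le hs hc.ge).symm
  obtain ⟨x, hx, hx'⟩ := Finset.not_subset.1 hns
  have key := Finset.card_le_mul_card_image_of_maps_to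
    (f := fun z : Finset κ × (κ × κ) × (κ × κ) => z.2.1) (s := D T T')
    (t := (Finset.univ.image fun u => (x, u)) ∪ (Finset.univ.image fun u => (u, x))) ?_ 2 ?_
  · refine key.trans ?_
    have h1 := Finset.card_union_le (Finset.univ.image fun u : κ => (x, u))
      (Finset.univ.image fun u : κ => (u, x))
    have h2 := Finset.card_image_le (s := (Finset.univ : Finset κ)) (f := fun u : κ => (x, u))
    have h3 := Finset.card_image_le (s := (Finset.univ : Finset κ)) (f := fun u : κ => (u, x))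
    rw [Finset.card_univ] at h2 h3
    omega
  · intro z hz
    obtain ⟨⟨-, -, -, h1⟩, ⟨-, -, -, h2⟩⟩ := (Finset.mem_filter.1 hz).2
    have hS : x ∉ z.1 := fun h => hx' (by rw [h2]; simp [h])
    rw [h1] at hx
    simp only [Finset.mem_insert, hS, or_false] at hx
    rw [Finset.mem_union]
    rcases hx with hx | hx
    · exact Or.inr (Finset.mem_image.2 ⟨z.2.1.1, Finset.mem_univ _, by rw [hx]⟩)
    · exact Or.inl (Finset.mem_image.2 ⟨z.2.1.2, Finset.mem_univ _, by rw [hx]⟩)
  · intro e _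
    rcases ((D T T').filter fun z => z.2.1 = e).eq_empty_or_nonempty with h0 | ⟨w, hw⟩
    · simp [h0]
    obtain ⟨hw1, hw2⟩ := Finset.mem_filter.1 hw
    have hw3 := (Finset.mem_filter.1 hw1).2
    refine le_trans (Finset.card_le_card (t := {w, (w.1, w.2.1, w.2.2.swap)}) ?_)
      Finset.card_le_two
    intro z hz
    obtain ⟨hz1, hz2⟩ := Finset.mem_filter.1 hz
    have hz3 := (Finset.mem_filter.1 hz1).2
    have he : z.2.1 = w.2.1 := hz2.trans hw2.symm
    have hS : z.1 = w.1 := cd_inj (he ▸ hz3.1) hw3.1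
    rw [Finset.mem_insert, Finset.mem_singleton]
    rcases cd_two hw3.2 (hS ▸ hz3.2) with h | h
    · exact Or.inl (Prod.ext hS (Prod.ext he h))
    · exact Or.inr (Prod.ext hS (Prod.ext he h))

omit [DecidableEq κ] [Fintype κ] in
theorem cs {α : Type} (s : Finset α) (f : α → ℂ) :
    ‖∑ z ∈ s, f z‖ ^ 2 ≤ s.card * ∑ z ∈ s, ‖f z‖ ^ 2 :=
  (pow_le_pow_left₀ (norm_nonneg _) (norm_sum_le s f) 2).trans sq_sum_le_card_mul_sum_sq

theorem serve (φ : Finset κ × (κ × κ) × (κ × κ) → ℝ) (hφ : ∀ z, 0 ≤ φ z) :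
    ∑ T, ∑ T', ∑ z ∈ D T T', φ z ≤ ∑ z, φ z := by
  simp only [D, Finset.sum_filter]
  calc ∑ T, ∑ T', ∑ z : Finset κ × (κ × κ) × (κ × κ),
        (if Cd z.2.1 z.1 T ∧ Cd z.2.2 z.1 T' then φ z else 0)
      = ∑ z : Finset κ × (κ × κ) × (κ × κ), ∑ T, ∑ T',
        (if Cd z.2.1 z.1 T ∧ Cd z.2.2 z.1 T' then φ z else 0) := by
        rw [Finset.sum_comm (s := Finset.univ) (t := Finset.univ)
          (f := fun z : Finset κ × (κ × κ) × (κ × κ) => fun T => ∑ T',
            (if Cd z.2.1 z.1 T ∧ Cd z.2.2 z.1 T' then φ z else 0))]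
        exact Finset.sum_congr rfl fun T _ => Finset.sum_comm
    _ ≤ ∑ z, φ z := by
        refine Finset.sum_le_sum fun z _ => ?_
        calc ∑ T, ∑ T', (if Cd z.2.1 z.1 T ∧ Cd z.2.2 z.1 T' then φ z else 0)
            ≤ ∑ T, ∑ T', (if T = insert z.2.1.2 (insert z.2.1.1 z.1) then
                if T' = insert z.2.2.2 (insert z.2.2.1 z.1) then φ z else 0 else 0) := by
              refine Finset.sum_le_sum fun T _ => Finset.sum_le_sum fun T' _ => ?_
              by_cases h : Cd z.2.1 z.1 T ∧ Cd z.2.2 z.1 T'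
              · rw [if_pos h, if_pos h.1.2.2.2, if_pos h.2.2.2.2]
              · rw [if_neg h]
                split_ifs
                · exact hφ z
                · exact le_rfl
                · exact le_rfl
          _ = φ z := by simp

end OFF

theorem st_OFF : St_OFF := by
  intro κ C _ _ _ g
  have h4 : (0 : ℝ) ≤ 4 * Fintype.card κ := by positivity
  calc ∑ T, ∑ T' ∈ Finset.univ.erase T, ‖Dn g T T'‖ ^ 2
      ≤ ∑ T, ∑ T' ∈ Finset.univ.erase T,
          4 * Fintype.card κ * ∑ z ∈ OFF.D T T', ‖gr g z.2.2 z.2.1‖ ^ 2 := by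
        refine Finset.sum_le_sum fun T _ => Finset.sum_le_sum fun T' hT' => ?_
        rw [OFF.dn_apply]
        refine (OFF.cs _ _).trans (mul_le_mul_of_nonneg_right ?_ (by positivity))
        exact_mod_cast OFF.card_D (Finset.ne_of_mem_erase hT')
    _ ≤ ∑ T, ∑ T', 4 * Fintype.card κ * ∑ z ∈ OFF.D T T', ‖gr g z.2.2 z.2.1‖ ^ 2 := by
        refine Finset.sum_le_sum fun T _ => ?_
        exact Finset.sum_le_sum_of_subset_of_nonneg (Finset.erase_subset _ _)
          fun _ _ _ => by positivity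
    _ = 4 * Fintype.card κ * ∑ T, ∑ T', ∑ z ∈ OFF.D T T', ‖gr g z.2.2 z.2.1‖ ^ 2 := by
        simp only [Finset.mul_sum]
    _ ≤ 4 * Fintype.card κ *
          ∑ z : Finset κ × (κ × κ) × (κ × κ), ‖gr g z.2.2 z.2.1‖ ^ 2 :=
        mul_le_mul_of_nonneg_left (OFF.serve _ fun _ => by positivity) h4
    _ = 2 ^ Fintype.card κ * (4 * Fintype.card κ * ∑ e, ∑ f, ‖gr g e f‖ ^ 2) := by
        rw [Fintype.sum_prod_type]
        simp only [Finset.sum_const, Finset.card_univ, Fintype.card_finset, nsmul_eq_mul]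
        rw [Fintype.sum_prod_type, Finset.sum_comm]
        push_cast
        ring

end Pool.Agent.Lib.LX33
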