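import Pool.Agent.Lib.LX33.Blue

/-! Orthogonal projections exist. -/

namespace Pool.Agent.Lib.LX33

open Matrix Module

theorem st_PROJ : St_PROJ := by
  intro Ω _ _ U
  let e : (Ω → ℂ) ≃ₗ[ℂ] EuclideanSpace ℂ Ω := (WithLp.linearEquiv 2 ℂ (Ω → ℂ)).symm
  let W : Submodule ℂ (EuclideanSpace ℂ Ω) := U.map e.toLinearMap
  let b := stdOrthonormalBasis ℂ W
  let u : Fin (finrank ℂ W) → Ω → ℂ := fun i x => (b i : EuclideanSpace ℂ Ω) x
  have hu : ∀ i, u i ∈ U := fun i => by
    obtain ⟨v, hv, h⟩ := (b i).2
    have : u i = v := by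
      funext x
      simp only [u, ← h]
      rfl
    rwa [this]
  have hP : ∀ v : Ω → ℂ, (Matrix.of fun x y => ∑ i, u i x * star (u i y)) *ᵥ v =
      ∑ i, (∑ y, v y * star (u i y)) • u i := fun v => by
    funext x
    simp only [mulVec, dotProduct, of_apply, Finset.sum_apply, Pi.smul_apply, smul_eq_mul,
      Finset.sum_mul]
    rw [Finset.sum_comm]
    exact Finset.sum_congr rfl fun i _ => Finset.sum_congr rfl fun y _ => by ring
  refine ⟨Matrix.of fun x y => ∑ i, u i x * star (u i y), ?_, fun v => ?_, fun v hv => ?_, ?_⟩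
  · ext x y
    simp only [conjTranspose_apply, of_apply, star_sum, star_mul', star_star]
    exact Finset.sum_congr rfl fun i _ => mul_comm _ _
  · rw [hP]
    exact U.sum_mem fun i _ => U.smul_mem _ (hu i)
  · rw [hP]
    have h := congrArg Subtype.val (b.sum_repr' ⟨e v, v, hv, rfl⟩)
    funext x
    have h2 := congrArg (fun z : EuclideanSpace ℂ Ω => z x) h
    simp only [Submodule.coe_sum, Submodule.coe_smul, Submodule.coe_inner, PiLp.inner_apply,
      WithLp.ofLp_sum, WithLp.ofLp_smul, Finset.sum_apply, Pi.smul_apply, RCLike.inner_apply] at h2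
    simp only [Finset.sum_apply, Pi.smul_apply]
    exact h2
  · have h1 : ∀ i, ∑ x, u i x * star (u i x) = 1 := fun i => by
      have h := orthonormal_iff_ite.1 b.orthonormal i i
      simp only [Submodule.coe_inner, PiLp.inner_apply, RCLike.inner_apply, if_true] at h
      exact h
    simp only [trace, diag_apply, of_apply]
    rw [Finset.sum_comm]
    simp only [h1, Finset.sum_const, Finset.card_univ, Fintype.card_fin, nsmul_eq_mul, mul_one]
    rw [LinearEquiv.finrank_map_eq]

end Pool.Agent.Lib.LX33
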