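import Pool.Agent.Lib.LX33.Blue

namespace Pool.Agent.Lib.LX33.RANK

open Pool.Agent.Lib.CH48

variable {n : ℕ}

/-- A spanning family of the space of quadrics. -/
def cq {ι : Type} [DecidableEq ι] (j : (ι × ι) × (ι × ι)) : ι × ι → ι × ι → ℂ := fun x y =>
  (if (x, y) = j then 1 else 0) -
    if x.1 ≠ y.1 ∧ x.2 ≠ y.2 ∧ ((y.1, x.2), (x.1, y.2)) = j then 1 else 0

theorem cq_inQ {ι : Type} [DecidableEq ι] (j : (ι × ι) × (ι × ι)) : InQ (cq j) := by
  intro a b i k hab hik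
  simp [cq, hab, hik, hab.symm]

theorem cq_sum {ι : Type} [Fintype ι] [DecidableEq ι] (F : ι × ι → ι × ι → ℂ) (x y : ι × ι) :
    ∑ u, ∑ v, cq (x, y) u v * F u v =
      F x y - if x.1 ≠ y.1 ∧ x.2 ≠ y.2 then F (y.1, x.2) (x.1, y.2) else 0 := by
  simp only [cq, sub_mul, Finset.sum_sub_distrib]
  congr 1
  · rw [Finset.sum_eq_single x (fun u _ hu => by simp [hu]) (by simp),
      Finset.sum_eq_single y (fun u _ hu => by simp [hu]) (by simp)]
    simp
  · obtain ⟨a, i⟩ := x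
    obtain ⟨b, k⟩ := y
    rw [Finset.sum_eq_single (b, i) _ (by simp), Finset.sum_eq_single (a, k) _ (by simp)]
    · simp [eq_comm]
    · rintro ⟨c, l⟩ _ hu
      rw [if_neg, zero_mul]
      simp only [Prod.mk.injEq, ne_eq] at hu ⊢
      tauto
    · rintro ⟨c, l⟩ _ hu
      refine Finset.sum_eq_zero fun v _ => ?_
      rw [if_neg, zero_mul]
      simp only [Prod.mk.injEq, ne_eq] at hu ⊢
      tauto

/-- The weight of a position. -/
def pw (x : Fin n × Fin n) : ℕ := finProdFinEquiv x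

theorem pw_inj {x y : Fin n × Fin n} (h : pw x = pw y) : x = y :=
  finProdFinEquiv.injective (Fin.ext h)

theorem pw_add (x y : Fin n × Fin n) : pw (y.1, x.2) + pw (x.1, y.2) = pw x + pw y := by
  simp only [pw, finProdFinEquiv_apply_val]
  ring

theorem tops (U : Submodule ℂ (Fin n × Fin n → ℂ)) : ∃ Pl : Finset (Fin n × Fin n),
    Pl.card ≤ Module.finrank ℂ U ∧
      ∀ u ∈ U, ∀ x, u x ≠ 0 → (∀ y, pw x < pw y → u y = 0) → x ∈ Pl := by
  classical
  let Pl := Finset.univ.filter fun x : Fin n × Fin n =>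
    ∃ u : U, u.1 x ≠ 0 ∧ ∀ y, pw x < pw y → u.1 y = 0
  refine ⟨Pl, ?_, fun u hu x h1 h2 => Finset.mem_filter.2 ⟨Finset.mem_univ _, ⟨u, hu⟩, h1, h2⟩⟩
  have hex : ∀ x : Pl, ∃ u : U, u.1 x ≠ 0 ∧ ∀ y, pw x.1 < pw y → u.1 y = 0 :=
    fun x => (Finset.mem_filter.1 x.2).2
  choose u h1 h2 using hex
  have hl : LinearIndependent ℂ u := by
    rw [Fintype.linearIndependent_iff]
    intro t ht
    by_contra hne
    obtain ⟨x0, hx0⟩ := not_forall.1 hne
    obtain ⟨x, hx, hm⟩ := Finset.exists_max_image (Finset.univ.filter fun x => t x ≠ 0)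
      (fun x : Pl => pw x.1) ⟨x0, by simpa using hx0⟩
    have h3 := congrFun (congrArg Subtype.val ht) x
    simp only [Submodule.coe_sum, Submodule.coe_smul, Finset.sum_apply, Pi.smul_apply,
      smul_eq_mul, Submodule.coe_zero, Pi.zero_apply] at h3
    rw [Finset.sum_eq_single x _ (by simp)] at h3
    · exact mul_ne_zero (Finset.mem_filter.1 hx).2 (h1 x) h3
    · intro y _ hy
      by_cases h4 : t y = 0
      · rw [h4, zero_mul]
      · rw [h2 y x (lt_of_le_of_ne (hm y (by simpa using h4))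
          fun e => hy (Subtype.ext (pw_inj e))), mul_zero]
  simpa using hl.fintype_card_le_finrank

/-- The rectangles with four corners in `Pl`. -/
def rect (Pl : Finset (Fin n × Fin n)) : Finset ((Fin n × Fin n) × (Fin n × Fin n)) :=
  (Pl ×ˢ Pl).filter fun p => p.1.1 < p.2.1 ∧ p.1.2 < p.2.2 ∧ (p.2.1, p.1.2) ∈ Pl ∧
    (p.1.1, p.2.2) ∈ Pl

theorem rect_card (Pl : Finset (Fin n × Fin n)) : 4 * (rect Pl).card ≤ Pl.card ^ 2 := by
  have h := Finset.card_le_card_of_injOn (s := rect Pl ×ˢ (Finset.univ : Finset (Bool × Bool)))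
    (t := Pl ×ˢ Pl) (fun q => ((if q.2.1 then q.1.1.1 else q.1.2.1, if q.2.2 then q.1.1.2 else q.1.2.2),
      (if q.2.1 then q.1.2.1 else q.1.1.1, if q.2.2 then q.1.2.2 else q.1.1.2))) ?_ ?_
  · simpa [mul_comm, pow_two] using h
  · rintro ⟨⟨⟨a, i⟩, ⟨b, k⟩⟩, ⟨p, q⟩⟩ h
    simp only [rect, Finset.coe_product, Set.mem_prod, Finset.mem_coe, Finset.mem_filter,
      Finset.mem_product] at h ⊢
    cases p <;> cases q <;> simp [h]
  · rintro ⟨⟨⟨a, i⟩, ⟨b, k⟩⟩, ⟨p, q⟩⟩ h ⟨⟨⟨a', i'⟩, ⟨b', k'⟩⟩, ⟨p', q'⟩⟩ h' e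
    simp only [rect, Finset.coe_product, Set.mem_prod, Finset.mem_coe, Finset.mem_filter,
      Finset.mem_product] at h h'
    have h1 := h.1.2.1
    have h2 := h.1.2.2.1
    have h3 := h'.1.2.1
    have h4 := h'.1.2.2.1
    cases p <;> cases q <;> cases p' <;> cases q' <;> simp at e ⊢ <;> omega

theorem vanish (U : Submodule ℂ (Fin n × Fin n → ℂ)) (Pl : Finset (Fin n × Fin n))
    (hP : ∀ u ∈ U, ∀ x, u x ≠ 0 → (∀ y, pw x < pw y → u y = 0) → x ∈ Pl)
    (F : Fin n × Fin n → Fin n × Fin n → ℂ) (hU : ∀ x, F x ∈ U) (hs : ∀ x y, F x y = F y x)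
    (hq : ∀ x y, F x y = if x.1 ≠ y.1 ∧ x.2 ≠ y.2 then F (y.1, x.2) (x.1, y.2) else 0)
    (h0 : ∀ p ∈ rect Pl, F p.1 p.2 = 0) (x y : Fin n × Fin n) : F x y = 0 := by
  classical
  by_contra hne
  obtain ⟨p, hp, hm⟩ := Finset.exists_max_image
    (Finset.univ.filter fun p : (Fin n × Fin n) × (Fin n × Fin n) => F p.1 p.2 ≠ 0)
    (fun p => pw p.1 + pw p.2) ⟨(x, y), by simpa using hne⟩
  have top : ∀ u v, F u v ≠ 0 → pw u + pw v = pw p.1 + pw p.2 → v ∈ Pl := fun u v h1 h2 =>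
    hP _ (hU u) v h1 fun z hz => by
      by_contra h3
      have := hm (u, z) (by simpa using h3)
      simp only at this
      omega
  obtain ⟨⟨a, i⟩, ⟨b, k⟩⟩ := p
  have f1 : F (a, i) (b, k) ≠ 0 := (Finset.mem_filter.1 hp).2
  have hc : a ≠ b ∧ i ≠ k := by
    by_contra h
    exact f1 ((hq _ _).trans (if_neg h))
  have e2 : F (a, i) (b, k) = F (b, i) (a, k) := (hq _ _).trans (if_pos hc)
  have w := pw_add (a, i) (b, k)
  simp only at w top
  have m1 := top _ _ f1 rfl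
  have m2 := top _ _ (hs _ _ ▸ f1) (add_comm _ _)
  have m3 := top _ _ (e2 ▸ f1) w
  have m4 := top (a, k) (b, i) (hs _ _ ▸ e2 ▸ f1) (by omega)
  rcases lt_or_gt_of_ne hc.1 with h1 | h1 <;> rcases lt_or_gt_of_ne hc.2 with h2 | h2
  · exact f1 (h0 ((a, i), (b, k)) (by simp [rect, m1, m2, m3, m4, h1, h2]))
  · exact f1 (e2.trans ((hs _ _).trans (h0 ((a, k), (b, i)) (by simp [rect, m1, m2, m3, m4, h1, h2]))))
  · exact f1 (e2.trans (h0 ((b, i), (a, k)) (by simp [rect, m1, m2, m3, m4, h1, h2])))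
  · exact f1 ((hs _ _).trans (h0 ((b, k), (a, i)) (by simp [rect, m1, m2, m3, m4, h1, h2])))

theorem dual {κ X : Type} [DecidableEq κ] (L : κ → X → ℂ) (J : Finset κ)
    (hJ : LinearIndependent ℂ fun s : J => L s) : ∃ φ : κ → (X → ℂ) →ₗ[ℂ] ℂ,
    ∀ s ∈ J, ∀ t ∈ J, φ s (L t) = if s = t then 1 else 0 := by
  obtain ⟨g, hg⟩ := (Fintype.linearCombination ℂ fun s : J => L s).exists_leftInverse_of_injective
    (LinearMap.ker_eq_bot.2 hJ.fintypeLinearCombination_injective)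
  refine ⟨fun s => if hs : s ∈ J then (LinearMap.proj (⟨s, hs⟩ : J)).comp g else 0,
    fun s hs t ht => ?_⟩
  have h := congrFun (LinearMap.congr_fun hg (Pi.single ⟨t, ht⟩ 1)) ⟨s, hs⟩
  rw [LinearMap.comp_apply, Fintype.linearCombination_apply_single, one_smul] at h
  simp only [dif_pos hs, LinearMap.comp_apply, LinearMap.proj_apply, h]
  simp [Pi.single_apply]

theorem sym_ind {κ X Q : Type} [DecidableEq κ] [Fintype Q] (a b : Q → κ) (hab : ∀ e, a e ≠ b e)
    (hi : ∀ e f, (a e = a f ∧ b e = b f) ∨ (a e = b f ∧ b e = a f) → e = f) (L : κ → X → ℂ)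
    (J : Finset κ) (hJ : LinearIndependent ℂ fun s : J => L s) (ha : ∀ e, a e ∈ J)
    (hb : ∀ e, b e ∈ J) (β : Q → ℂ)
    (h : ∀ x y, ∑ e, β e * (L (a e) x * L (b e) y + L (b e) x * L (a e) y) = 0) (f : Q) :
    β f = 0 := by
  obtain ⟨φ, hφ⟩ := dual L J hJ
  have h1 : ∀ y, ∑ e, β e • (L (b e) y • L (a e) + L (a e) y • L (b e)) = 0 := fun y => by
    funext x
    rw [Finset.sum_apply, Pi.zero_apply, ← h x y]
    exact Finset.sum_congr rfl fun e _ => by simp [mul_comm]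
  have h2 : ∑ e, β e • (φ (a f) (L (a e)) • L (b e) + φ (a f) (L (b e)) • L (a e)) = 0 := by
    funext y
    have := congrArg (φ (a f)) (h1 y)
    rw [map_sum, map_zero] at this
    rw [Finset.sum_apply, Pi.zero_apply, ← this]
    exact Finset.sum_congr rfl fun e _ => by
      simp only [Pi.smul_apply, Pi.add_apply, smul_eq_mul, map_smul, map_add]
      ring
  have h3 := congrArg (φ (b f)) h2
  rw [map_sum, map_zero, Finset.sum_eq_single f _ (by simp)] at h3
  · simpa [hφ _ (ha f) _ (ha f), hφ _ (ha f) _ (hb f), hφ _ (hb f) _ (hb f), hab f] using h3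
  · intro e _ hne
    simp only [map_smul, map_add, hφ _ (ha f) _ (ha e), hφ _ (ha f) _ (hb e),
      hφ _ (hb f) _ (hb e), hφ _ (hb f) _ (ha e)]
    have h4 := mt (hi f e) hne.symm
    rw [not_or, not_and_or, not_and_or] at h4
    rcases h4 with ⟨h4 | h4, h5 | h5⟩ <;> simp [h4, h5]

theorem main {κ P : Type} [DecidableEq κ] [Fintype P] [DecidableEq P] (a b : P → κ)
    (hab : ∀ e, a e ≠ b e)
    (hi : ∀ e f, (a e = a f ∧ b e = b f) ∨ (a e = b f ∧ b e = a f) → e = f)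
    (hs : ∀ s t, s ≠ t → ∃ e, (a e = s ∧ b e = t) ∨ (a e = t ∧ b e = s))
    (L : κ → Fin n × Fin n → ℂ) (J : Finset κ) (hJ : LinearIndependent ℂ fun s : J => L s) :
    ∃ I : Finset P, J.card ^ 2 ≤ 4 * I.card + 2 * J.card ∧ (∀ e ∈ I, a e ∈ J ∧ b e ∈ J) ∧
      LinearIndependent ℂ fun e : I => fun j =>
        mm (cq j) L (a e) (b e) + mm (cq j) L (b e) (a e) := by
  classical
  obtain ⟨v, hv⟩ : ∃ v : P → (Fin n × Fin n) × (Fin n × Fin n) → ℂ,
    v = fun e j => mm (cq j) L (a e) (b e) + mm (cq j) L (b e) (a e) := ⟨_, rfl⟩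
  obtain ⟨PJ, hPJ⟩ : ∃ PJ : Finset P, ∀ e, e ∈ PJ ↔ a e ∈ J ∧ b e ∈ J :=
    ⟨Finset.univ.filter fun e => a e ∈ J ∧ b e ∈ J, by simp⟩
  obtain ⟨I, i1, -, i2, i3⟩ := exists_linearIndepOn_extension
    (linearIndepOn_empty ℂ v) (Set.empty_subset (PJ : Set P))
  lift I to Finset P using Set.toFinite I
  refine ⟨I, ?_, fun e he => (hPJ e).1 (i1 he), by rw [hv] at i3; exact i3⟩
  obtain ⟨Pl, p1, p2⟩ := tops (Submodule.span ℂ (Set.range fun s : J => L s))
  have p3 : Pl.card ≤ J.card := by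
    rw [finrank_span_eq_card hJ, Fintype.card_coe] at p1
    exact p1
  have c1 : J.offDiag.card ≤ (PJ ×ˢ (Finset.univ : Finset Bool)).card := by
    refine Finset.card_le_card_of_surjOn
      (fun q => if q.2 then (a q.1, b q.1) else (b q.1, a q.1)) ?_
    rintro ⟨s, t⟩ hst
    obtain ⟨h1, h2, h3⟩ := Finset.mem_offDiag.1 (Finset.mem_coe.1 hst)
    obtain ⟨e, ⟨rfl, rfl⟩ | ⟨rfl, rfl⟩⟩ := hs s t h3
    · exact ⟨(e, true), by simpa using (hPJ e).2 ⟨h1, h2⟩, rfl⟩
    · exact ⟨(e, false), by simpa using (hPJ e).2 ⟨h2, h1⟩, rfl⟩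
  have hl : LinearIndependent ℂ fun e : PJ =>
      ((⟨v e, i2 ⟨e, e.2, rfl⟩⟩, fun p => L (a e) p.1.1 * L (b e) p.1.2 +
        L (b e) p.1.1 * L (a e) p.1.2) : Submodule.span ℂ (v '' I) × (rect Pl → ℂ)) := by
    rw [Fintype.linearIndependent_iff]
    intro β hβ
    refine sym_ind (fun e : PJ => a e) (fun e => b e) (fun e => hab e)
      (fun e f h => Subtype.ext (hi e f h)) L J hJ (fun e => ((hPJ e).1 e.2).1)
      (fun e => ((hPJ e).1 e.2).2) β (vanish _ Pl p2 (fun x y => ∑ e : PJ, β e *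
        (L (a e) x * L (b e) y + L (b e) x * L (a e) y)) (fun x => ?_) (fun x y => ?_)
        (fun x y => ?_) fun p hp => ?_)
    · have e1 : (fun y => ∑ e : PJ, β e * (L (a e) x * L (b e) y + L (b e) x * L (a e) y)) =
          ∑ e : PJ, β e • (L (a e) x • L (b e) + L (b e) x • L (a e)) := by
        funext y
        simp only [Finset.sum_apply, Pi.smul_apply, Pi.add_apply, smul_eq_mul]
      rw [e1]
      exact Submodule.sum_mem _ fun e _ => Submodule.smul_mem _ _ (Submodule.add_mem _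
        (Submodule.smul_mem _ _ (Submodule.subset_span ⟨⟨_, ((hPJ e).1 e.2).2⟩, rfl⟩))
        (Submodule.smul_mem _ _ (Submodule.subset_span ⟨⟨_, ((hPJ e).1 e.2).1⟩, rfl⟩)))
    · exact Finset.sum_congr rfl fun e _ => by ring
    · have h1 := congrFun (congrArg Subtype.val (congrArg Prod.fst hβ)) (x, y)
      simp only [Prod.fst_sum, Prod.smul_fst, Submodule.coe_sum, Submodule.coe_smul,
        Finset.sum_apply, Pi.smul_apply, smul_eq_mul, Prod.fst_zero, Submodule.coe_zero,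
        Pi.zero_apply, hv, mm] at h1
      rw [← sub_eq_zero, ← cq_sum (fun x y => ∑ e : PJ, β e *
        (L (a e) x * L (b e) y + L (b e) x * L (a e) y)), ← h1]
      simp only [Finset.mul_sum, ← Finset.sum_add_distrib]
      rw [Finset.sum_comm (s := (Finset.univ : Finset PJ))]
      refine Finset.sum_congr rfl fun u _ => ?_
      rw [Finset.sum_comm]
      exact Finset.sum_congr rfl fun e _ => Finset.sum_congr rfl fun w _ => by ring
    · simpa [Prod.snd_sum] using congrFun (congrArg Prod.snd hβ) ⟨p, hp⟩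
  have c2 := hl.fintype_card_le_finrank
  rw [Module.finrank_prod, Module.finrank_fintype_fun_eq_card, Fintype.card_coe,
    Fintype.card_coe] at c2
  have c3 : Module.finrank ℂ (Submodule.span ℂ (v '' I)) ≤ I.card := by
    rw [← Finset.coe_image]
    exact (finrank_span_finset_le_card _).trans Finset.card_image_le
  have c4 := rect_card Pl
  have c5 := Nat.pow_le_pow_left p3 2
  rw [Finset.offDiag_card, Finset.card_product, Finset.card_univ, Fintype.card_bool,
    ← pow_two] at c1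
  omega

end Pool.Agent.Lib.LX33.RANK

namespace Pool.Agent.Lib.LX33

theorem st_RANK : St_RANK := by
  intro n L J h4 hJ
  obtain ⟨I, i1, i2, i3⟩ := RANK.main (P := {e : Fin n × Fin n // e.1 < e.2}) (fun e => e.1.1)
    (fun e => e.1.2) (fun e => e.2.ne) (fun e f h => by
      rcases h with h | h
      · exact Subtype.ext (Prod.ext h.1 h.2)
      · exact absurd (h.1 ▸ h.2 ▸ e.2) f.2.not_gt)
    (fun s t h => (lt_or_gt_of_ne h).elim (fun h => ⟨⟨(s, t), h⟩, Or.inl ⟨rfl, rfl⟩⟩)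
      fun h => ⟨⟨(t, s), h⟩, Or.inr ⟨rfl, rfl⟩⟩) L J hJ
  refine ⟨I.map (Function.Embedding.subtype _), ?_, fun e he => ?_, fun β h0 h => ?_⟩
  · rw [Finset.card_map]
    nlinarith
  · obtain ⟨f, hf, rfl⟩ := Finset.mem_map.1 he
    exact i2 f hf
  · funext e
    by_cases he : e ∈ I.map (Function.Embedding.subtype _)
    · obtain ⟨f, hf, rfl⟩ := Finset.mem_map.1 he
      refine Fintype.linearIndependent_iff.1 i3 (fun e => β e.1.1) (funext fun j => ?_) ⟨f, hf⟩
      have h1 := h _ (RANK.cq_inQ j)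
      rw [← Finset.sum_subset (Finset.subset_univ (I.map (Function.Embedding.subtype _)))
        fun e _ he => by rw [h0 e he, zero_mul], Finset.sum_map, ← Finset.sum_coe_sort I] at h1
      rw [Finset.sum_apply]
      refine Eq.trans (Finset.sum_congr rfl fun e _ => ?_) h1
      exact congrArg (β e.1.1 * ·) (if_neg e.1.2.ne).symm
    · exact h0 e he

end Pool.Agent.Lib.LX33
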