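import Pool.Agent.Lib.LX33.Blue

namespace Pool.Agent.Lib.LX33

namespace RAT

theorem core {n w u x y : ℝ} (hn : 2 ≤ n) (h1 : 1 ≤ w) (hw : w ≤ n) (hu : |u| ≤ w) (hx : 0 ≤ x)
    (h : n * (n - 1) * (4 * y) = (n + u) * (n + u - 2) * x) :
    |4 * y - x| ≤ 12 * w / n * x := by
  have hn0 : 0 < n := by linarith
  have hn1 : 0 < n - 1 := by linarith
  obtain ⟨ha, hb⟩ := abs_le.1 hu
  have e : 4 * y - x = (2 * n * u + u ^ 2 - n - 2 * u) / (n * (n - 1)) * x := by
    field_simp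
    linear_combination h
  have e2 : 12 * w / n = 12 * w * (n - 1) / (n * (n - 1)) := by field_simp
  rw [e, e2, abs_mul, abs_of_nonneg hx, abs_div, abs_of_pos (mul_pos hn0 hn1)]
  refine mul_le_mul_of_nonneg_right (div_le_div_of_nonneg_right ?_ (mul_pos hn0 hn1).le) hx
  have h2 : u ^ 2 ≤ w * n := by nlinarith
  have h3 : n ≤ w * n := by nlinarith
  have h4 : (n - 1) * u ≤ (n - 1) * w := mul_le_mul_of_nonneg_left hb hn1.le
  have h5 : (n - 1) * -w ≤ (n - 1) * u := mul_le_mul_of_nonneg_left ha hn1.le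
  have h6 : w * 2 ≤ w * n := mul_le_mul_of_nonneg_left hn (by linarith)
  rw [abs_le]
  constructor <;> nlinarith [sq_nonneg u]

theorem up (m k : ℕ) :
    ((m : ℝ) + 1) * m.choose k = ((m + 1).choose (k + 1) : ℝ) * (k + 1) := by
  exact_mod_cast Nat.add_one_mul_choose_eq m k

theorem same (m k : ℕ) :
    ((m : ℝ) + 1) * m.choose k = ((m + 1).choose k : ℝ) * (m + 1 - k) := by
  rcases le_or_gt k (m + 1) with h | h
  · have h1 := Nat.choose_mul_succ_eq m k
    have h2 : ((m.choose k * (m + 1) : ℕ) : ℝ) = ((m + 1).choose k * (m + 1 - k) : ℕ) := by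
      rw [h1]
    push_cast [Nat.cast_sub h] at h2
    linarith
  · rw [Nat.choose_eq_zero_of_lt h, Nat.choose_eq_zero_of_lt (by omega : m < k)]
    simp

end RAT

theorem st_RAT : St_RAT := by
  intro n d w hd h1 hw hu
  obtain ⟨m, rfl⟩ : ∃ m, n = m + 2 := ⟨n - 2, by omega⟩
  have hm : (0 : ℝ) ≤ m := Nat.cast_nonneg m
  have hn : (2 : ℝ) ≤ ((m + 2 : ℕ) : ℝ) := by push_cast; linarith
  rw [Nat.add_sub_cancel]
  constructor
  · refine RAT.core hn h1 hw hu (Nat.cast_nonneg _) ?_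
    have a := RAT.up m d
    have b := RAT.up (m + 1) (d + 1)
    push_cast at a b ⊢
    linear_combination (4 * ((m : ℝ) + 2)) * a + (4 * ((d : ℝ) + 1)) * b
  · refine RAT.core (u := -(2 * ((d + 2 : ℕ) : ℝ) - ((m + 2 : ℕ) : ℝ))) hn h1 hw
      (by rwa [abs_neg]) (Nat.cast_nonneg _) ?_
    have a := RAT.same m (d + 2)
    have b := RAT.same (m + 1) (d + 2)
    push_cast at a b ⊢
    linear_combination (4 * ((m : ℝ) + 2)) * a + (4 * ((m : ℝ) - d - 1)) * b

end Pool.Agent.Lib.LX33
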