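import Pool.Agent.Lib.LX33.Blue

namespace Pool.Agent.Lib.LX33.SCALE

open Matrix Filter Topology
open scoped ComplexOrder

theorem minor_le {P : Type} [Fintype P] [DecidableEq P] {M : Matrix P P ℂ} (hM : M.PosSemidef)
    (I : Finset P) :
    (M.submatrix (Subtype.val : I → P) (Subtype.val : I → P)).det ≤ (1 + M).det := by
  have h := (detRowAlternating : (P → ℂ) [⋀^P]→ₗ[ℂ] ℂ).map_add_univ M.row (1 : Matrix P P ℂ).row
  have h1 : (M + 1).det = ∑ s : Finset P,
      (M.submatrix (Subtype.val : s → P) (Subtype.val : s → P)).det :=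
    h.trans (Finset.sum_congr rfl fun s _ => det_piecewise_one_eq_submatrix_det M s)
  rw [add_comm, h1]
  exact Finset.single_le_sum (f := fun s : Finset P =>
    (M.submatrix (Subtype.val : s → P) (Subtype.val : s → P)).det)
    (fun s _ => (hM.submatrix _).det_nonneg) (Finset.mem_univ I)

theorem ddet {J : Type} [Fintype J] [DecidableEq J] (X : ℝ → Matrix J J ℂ) (Y : Matrix J J ℂ)
    (h0 : X 0 = 1) (h : ∀ i j, HasDerivAt (fun t => X t i j) (Y i j) 0) :
    HasDerivAt (fun t => (X t).det) Y.trace 0 := by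
  simp only [det_apply']
  refine (HasDerivAt.fun_sum fun (σ : Equiv.Perm J) _ =>
    (HasDerivAt.fun_finsetProd fun i _ => h (σ i) i).const_mul _).congr_deriv ?_
  rw [Finset.sum_eq_single 1 _ (by simp)]
  · simp [h0, trace]
  · intro σ _ hσ
    rw [Finset.sum_eq_zero, mul_zero]
    intro i _
    obtain ⟨j, hj, hs⟩ : ∃ j, j ≠ i ∧ σ j ≠ j := by
      by_contra hc
      simp only [not_exists, not_and, not_not] at hc
      refine hσ (Equiv.ext fun j => ?_)
      by_contra h1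
      have h2 : j = i := not_not.1 fun h2 => h1 (hc j h2)
      exact h1 (σ.injective (hc _ fun h3 => h1 (h3.trans h2.symm)))
    rw [Finset.prod_eq_zero (i := j) (by simpa using hj) (by simp [h0, hs]), zero_smul]

theorem norm_le {κ : Type} [Fintype κ] (γ u : κ → ℝ) (m : ℝ) (h1 : ∀ s, γ s ≤ u s)
    (h2 : ∀ s, 0 ≤ u s) (h3 : ∀ s, γ s ≤ m) (h4 : 0 ≤ m) : ‖γ‖ ≤ ∑ s, u s - ∑ s, γ s + m := by
  rw [← Finset.sum_sub_distrib]
  have h0 : 0 ≤ ∑ s, (u s - γ s) := Finset.sum_nonneg fun s _ => sub_nonneg.2 (h1 s)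
  refine (pi_norm_le_iff_of_nonneg (by linarith)).2 fun t => ?_
  have := Finset.single_le_sum (f := fun s => u s - γ s) (fun s _ => sub_nonneg.2 (h1 s))
    (Finset.mem_univ t)
  rw [Real.norm_eq_abs, abs_le]
  constructor <;> linarith [h2 t, h3 t]

variable {κ P J : Type} [Fintype κ] [DecidableEq κ] [Fintype P] [DecidableEq P] [Fintype J]
  [DecidableEq J]

/-- The scaled matrix. -/
noncomputable def Gt (a b : P → κ) (G : Matrix P J ℂ) (γ : κ → ℝ) : Matrix P J ℂ :=
  diagonal (fun e => ((Real.exp (γ (a e)) * Real.exp (γ (b e)) : ℝ) : ℂ)) * G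

/-- The partition function. -/
noncomputable def ph (a b : P → κ) (G : Matrix P J ℂ) (γ : κ → ℝ) : ℝ :=
  (1 + (Gt a b G γ)ᴴ * Gt a b G γ).det.re

omit [Fintype κ] [DecidableEq κ] in
theorem pd (a b : P → κ) (G : Matrix P J ℂ) (γ : κ → ℝ) :
    (1 + (Gt a b G γ)ᴴ * Gt a b G γ).PosDef :=
  PosDef.one.add_posSemidef (posSemidef_conjTranspose_mul_self _)

omit [Fintype κ] [DecidableEq κ] in
theorem ph_eq (a b : P → κ) (G : Matrix P J ℂ) (γ : κ → ℝ) :
    (1 + (Gt a b G γ)ᴴ * Gt a b G γ).det = (ph a b G γ : ℂ) :=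
  Complex.ext (by simp [ph]) (by simpa using ((Complex.pos_iff.1 (pd a b G γ).det_pos).2).symm)

omit [Fintype κ] [DecidableEq κ] in
theorem ph_ge (a b : P → κ) (G : Matrix P J ℂ) (γ : κ → ℝ) (I : Finset P) :
    Real.exp (∑ e ∈ I, 2 * (γ (a e) + γ (b e))) *
      ((G * Gᴴ).submatrix (Subtype.val : I → P) (Subtype.val : I → P)).det.re ≤ ph a b G γ := by
  have h := minor_le (posSemidef_self_mul_conjTranspose (Gt a b G γ)) I
  rw [det_one_add_mul_comm, ph_eq] at h
  have e : (Gt a b G γ * (Gt a b G γ)ᴴ).submatrix (Subtype.val : I → P) (Subtype.val : I → P) =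
      diagonal (fun e : I => ((Real.exp (γ (a e)) * Real.exp (γ (b e)) : ℝ) : ℂ)) *
        (G * Gᴴ).submatrix (Subtype.val : I → P) (Subtype.val : I → P) *
      diagonal (fun e : I => ((Real.exp (γ (a e)) * Real.exp (γ (b e)) : ℝ) : ℂ)) := by
    ext e f
    rw [Gt, conjTranspose_mul, diagonal_conjTranspose, Matrix.mul_assoc, ← Matrix.mul_assoc G,
      ← Matrix.mul_assoc]
    simp only [submatrix_apply, mul_diagonal, diagonal_mul, Pi.star_apply, Complex.star_def,
      Complex.conj_ofReal]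
  rw [e, det_mul, det_mul, det_diagonal, ← Complex.ofReal_prod, mul_right_comm,
    ← Complex.ofReal_mul] at h
  have h2 := (Complex.le_def.1 h).1
  rw [Complex.re_ofReal_mul, Complex.ofReal_re, ← Finset.prod_mul_distrib] at h2
  rw [Real.exp_sum, ← Finset.prod_coe_sort I]
  refine le_of_eq_of_le ?_ h2
  congr 1
  refine Finset.prod_congr rfl fun e _ => ?_
  rw [two_mul, Real.exp_add, Real.exp_add]

omit [Fintype κ] [DecidableEq κ] in
theorem ph_one (a b : P → κ) (G : Matrix P J ℂ) (γ : κ → ℝ) : 1 ≤ ph a b G γ := by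
  simpa using ph_ge a b G γ ∅

omit [Fintype κ] [DecidableEq κ] in
theorem ph_cont (a b : P → κ) (G : Matrix P J ℂ) : Continuous (ph a b G) := by
  have h : Continuous (Gt a b G) := by
    refine Continuous.matrix_mul (Continuous.matrix_diagonal ?_) continuous_const
    fun_prop
  exact Complex.continuous_re.comp
    (continuous_const.add (h.matrix_conjTranspose.matrix_mul h)).matrix_det

omit [DecidableEq J] in
theorem ex_c (G : Matrix P J ℂ) : ∃ c : ℝ, 0 < c ∧ c ≤ 1 ∧ ∀ I : Finset P,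
    LinearIndependent ℂ (fun e : I => G e) →
      c ≤ ((G * Gᴴ).submatrix (Subtype.val : I → P) (Subtype.val : I → P)).det.re := by
  classical
  obtain ⟨I0, h0, h1⟩ := Finset.exists_min_image
    (Finset.univ.filter fun I : Finset P => LinearIndependent ℂ (fun e : I => G e))
    (fun I => ((G * Gᴴ).submatrix (Subtype.val : I → P) (Subtype.val : I → P)).det.re)
    ⟨∅, by simp⟩
  refine ⟨_, ?_, ?_, fun I hI => h1 I (by simpa using hI)⟩
  · have h2 : (G.submatrix (Subtype.val : I0 → P) id *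
        (G.submatrix (Subtype.val : I0 → P) id)ᴴ).PosDef :=
      PosDef.mul_conjTranspose_self _ (vecMul_injective_iff.2 (Finset.mem_filter.1 h0).2)
    exact (Complex.pos_iff.1 h2.det_pos).1
  · simpa using h1 ∅ (by simp)

/-- The potential. -/
noncomputable def F (a b : P → κ) (G : Matrix P J ℂ) (db σ : ℝ) (γ : κ → ℝ) : ℝ :=
  Real.log (ph a b G γ) - 2 * db * ∑ s, γ s + db * σ * Real.log (1 + ∑ s, Real.exp (2 * γ s))

omit [DecidableEq κ] in
theorem coerc (a b : P → κ) (G : Matrix P J ℂ) (s1 : ℕ) (r0 db : ℝ) (hdb : 0 < db)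
    (hn : 0 < Fintype.card κ) (hd : db * (Fintype.card κ : ℝ) ^ 2 = 2 * s1 * r0)
    (h : ∀ S : Finset κ, s1 ≤ S.card → ∃ I : Finset P, r0 ≤ I.card ∧
      (∀ e ∈ I, a e ∈ S ∧ b e ∈ S) ∧ LinearIndependent ℂ (fun e : I => G e)) :
    ∃ c : ℝ, ∀ γ, c + 2 * db * ‖γ‖ ≤ F a b G db (2 * s1 + 1) γ := by
  obtain ⟨c, c0, c1, hc⟩ := ex_c G
  refine ⟨Real.log c, fun γ => ?_⟩
  have lc := Real.log_nonpos c0.le c1
  obtain ⟨m, hm⟩ : ∃ m, 2 * m = Real.log (1 + ∑ s, Real.exp (2 * γ s)) :=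
    ⟨Real.log (1 + ∑ s, Real.exp (2 * γ s)) / 2, by ring⟩
  have s0 : 0 ≤ ∑ s, Real.exp (2 * γ s) := Finset.sum_nonneg fun s _ => (Real.exp_pos _).le
  have m0 : 0 ≤ m := by
    have := Real.log_nonneg (show 1 ≤ 1 + ∑ s, Real.exp (2 * γ s) by linarith)
    linarith
  have m1 : ∀ s, γ s ≤ m := fun s => by
    have h1 := Finset.single_le_sum (f := fun s => Real.exp (2 * γ s))
      (fun s _ => (Real.exp_pos _).le) (Finset.mem_univ s)
    have h2 := (Real.le_log_iff_exp_le (show 0 < 1 + ∑ s, Real.exp (2 * γ s) by linarith)).2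
      (show Real.exp (2 * γ s) ≤ _ by linarith)
    linarith
  have n0 : (0 : ℝ) < Fintype.card κ := by exact_mod_cast hn
  obtain ⟨w, hw⟩ : ∃ w : ℝ, w * Fintype.card κ = s1 * m :=
    ⟨s1 * m / Fintype.card κ, div_mul_cancel₀ _ n0.ne'⟩
  have sm : 0 ≤ (s1 : ℝ) * m := by positivity
  have w0 : 0 ≤ w := by
    by_contra h1
    have := mul_neg_of_neg_of_pos (not_le.1 h1) n0
    linarith
  rw [F, ← hm]
  rcases lt_or_ge (Finset.univ.filter fun s => w ≤ γ s).card s1 with h1 | h1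
  · have h2 := norm_le γ (fun s => (if w ≤ γ s then m else 0) + w) m
      (fun s => by split_ifs with h3 <;> linarith [m1 s])
      (fun s => by split_ifs <;> linarith) m1 m0
    rw [Finset.sum_add_distrib, ← Finset.sum_filter, Finset.sum_const, Finset.sum_const,
      Finset.card_univ, nsmul_eq_mul, nsmul_eq_mul] at h2
    have h3 : ((Finset.univ.filter fun s => w ≤ γ s).card : ℝ) * m ≤ s1 * m :=
      mul_le_mul_of_nonneg_right (by exact_mod_cast h1.le) m0
    have h4 := Real.log_nonneg (ph_one a b G γ)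
    have h5 : ‖γ‖ ≤ 2 * (s1 * m) - ∑ s, γ s + m := by linarith
    have h6 := mul_le_mul_of_nonneg_left h5 hdb.le
    linarith
  · obtain ⟨I, i1, i2, i3⟩ := h _ h1
    have h2 := norm_le γ (fun _ => m) m m1 (fun _ => m0) m1 m0
    rw [Finset.sum_const, Finset.card_univ, nsmul_eq_mul] at h2
    have h3 : r0 * (4 * w) ≤ ∑ e ∈ I, 2 * (γ (a e) + γ (b e)) := by
      have h4 := Finset.card_nsmul_le_sum I (fun e => 2 * (γ (a e) + γ (b e))) (4 * w)
        fun e he => by
          have := (Finset.mem_filter.1 (i2 e he).1).2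
          have := (Finset.mem_filter.1 (i2 e he).2).2
          linarith
      rw [nsmul_eq_mul] at h4
      exact (mul_le_mul_of_nonneg_right i1 (by linarith)).trans h4
    have h4 := (mul_le_mul_of_nonneg_left (hc I i3) (Real.exp_pos _).le).trans (ph_ge a b G γ I)
    have h5 := Real.log_le_log (mul_pos (Real.exp_pos _) c0) h4
    rw [Real.log_mul (Real.exp_pos _).ne' c0.ne', Real.log_exp] at h5
    have h6 : r0 * (4 * w) = 2 * db * (Fintype.card κ * m) := by
      refine mul_right_cancel₀ n0.ne' ?_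
      linear_combination 4 * r0 * hw - 2 * m * hd
    have h7 := mul_le_mul_of_nonneg_left h2 hdb.le
    have h8 := mul_nonneg hdb.le sm
    linarith

omit [Fintype κ] [DecidableEq κ] in
theorem ph_deriv (a b : P → κ) (G : Matrix P J ℂ) (γ δ : κ → ℝ) :
    HasDerivAt (fun t : ℝ => ph a b G (γ + t • δ))
      (ph a b G γ * (2 * ∑ e, (δ (a e) + δ (b e)) *
        ((Gt a b G γ * (1 + (Gt a b G γ)ᴴ * Gt a b G γ)⁻¹ * (Gt a b G γ)ᴴ : Matrix P P ℂ)
          e e).re)) 0 := by
  obtain ⟨T, hT⟩ : ∃ T, T = Gt a b G γ := ⟨_, rfl⟩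
  obtain ⟨B, hB⟩ : ∃ B, B = (1 + Tᴴ * T)⁻¹ := ⟨_, rfl⟩
  obtain ⟨k, hk⟩ : ∃ k : P → ℝ, ∀ e, k e = δ (a e) + δ (b e) := ⟨_, fun _ => rfl⟩
  have hu : IsUnit (1 + Tᴴ * T).det := by
    rw [hT]
    exact (pd a b G γ).det_pos.ne'.isUnit
  have e1 : ∀ t : ℝ, (Gt a b G (γ + t • δ))ᴴ * Gt a b G (γ + t • δ) =
      Tᴴ * diagonal (fun e => ((Real.exp (2 * k e * t) : ℝ) : ℂ)) * T := by
    intro t
    have e2 : Gt a b G (γ + t • δ) =
        diagonal (fun e => ((Real.exp (k e * t) : ℝ) : ℂ)) * T := by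
      rw [hT, Gt, Gt, ← Matrix.mul_assoc, diagonal_mul_diagonal]
      congr 2
      funext e
      rw [← Complex.ofReal_mul, ← Real.exp_add, ← Real.exp_add, ← Real.exp_add, hk]
      congr 2
      simp only [Pi.add_apply, Pi.smul_apply, smul_eq_mul]
      ring
    rw [e2, conjTranspose_mul, ← Matrix.mul_assoc, Matrix.mul_assoc Tᴴ, diagonal_conjTranspose,
      diagonal_mul_diagonal]
    congr 3
    funext e
    rw [Pi.star_apply, Complex.star_def, Complex.conj_ofReal, ← Complex.ofReal_mul,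
      ← Real.exp_add, mul_assoc, two_mul]
  have e4 : ∀ t : ℝ, ph a b G (γ + t • δ) = ph a b G γ *
      (B + B * Tᴴ * diagonal (fun e => ((Real.exp (2 * k e * t) : ℝ) : ℂ)) * T).det.re := by
    intro t
    rw [← Complex.re_ofReal_mul, ← ph_eq, ← hT, ← det_mul, Matrix.mul_add, ← Matrix.mul_assoc,
      ← Matrix.mul_assoc, ← Matrix.mul_assoc, hB, mul_nonsing_inv _ hu, Matrix.one_mul, ph, e1]
  have d2 := ddet
    (fun t => B + B * Tᴴ * diagonal (fun e => ((Real.exp (2 * k e * t) : ℝ) : ℂ)) * T)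
    (B * Tᴴ * diagonal (fun e => ((2 * k e : ℝ) : ℂ)) * T) ?_ fun i j => ?_
  · have d3 := (Complex.reCLM.hasFDerivAt.comp_hasDerivAt 0 d2).const_mul (ph a b G γ)
    refine (d3.congr_of_eventuallyEq (Eventually.of_forall e4)).congr_deriv ?_
    rw [← hT, ← hB, trace_mul_comm, ← Matrix.mul_assoc, ← Matrix.mul_assoc, trace,
      Complex.reCLM_apply, Complex.re_sum, Finset.mul_sum Finset.univ _ 2]
    congr 1
    refine Finset.sum_congr rfl fun e _ => ?_
    rw [diag_apply, mul_diagonal, mul_comm, Complex.re_ofReal_mul, hk, mul_assoc]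
  · have := nonsing_inv_mul _ hu
    rw [← hB, Matrix.mul_add, Matrix.mul_one, ← Matrix.mul_assoc] at this
    simpa using this
  · simp only [Matrix.add_apply, Matrix.mul_apply (N := T), mul_diagonal]
    refine (HasDerivAt.fun_sum fun e _ => ?_).const_add _
    refine (HasDerivAt.const_mul _ (HasDerivAt.ofReal_comp ?_)).mul_const _
    simpa using ((hasDerivAt_id (0 : ℝ)).const_mul (2 * k e)).exp

theorem main (a b : P → κ) (G : Matrix P J ℂ) (s1 : ℕ) (r0 db : ℝ)
    (hdb : 0 < db) (hn : 0 < Fintype.card κ) (hd : db * (Fintype.card κ : ℝ) ^ 2 = 2 * s1 * r0)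
    (h : ∀ S : Finset κ, s1 ≤ S.card → ∃ I : Finset P, r0 ≤ I.card ∧
      (∀ e ∈ I, a e ∈ S ∧ b e ∈ S) ∧ LinearIndependent ℂ (fun e : I => G e)) :
    ∃ (x : κ → ℝ) (Z : Matrix J (P ⊕ J) ℂ) (Y : Matrix P (P ⊕ J) ℂ), (∀ s, 0 < x s) ∧
      (∀ e j, Y e j = x (a e) * x (b e) * (G * Z) e j) ∧
      (∀ s, ∑ e, ((Pi.single s 1 : κ → ℝ) (a e) + (Pi.single s 1 : κ → ℝ) (b e)) *
        ∑ j, ‖Y e j‖ ^ 2 ≤ db) ∧
      ∑ s, (db - ∑ e, ((Pi.single s 1 : κ → ℝ) (a e) + (Pi.single s 1 : κ → ℝ) (b e)) *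
        ∑ j, ‖Y e j‖ ^ 2) ≤ db * (2 * s1 + 1) ∧
      ∑ e, ∑ f, ‖(Y * Yᴴ) e f‖ ^ 2 ≤ ∑ e, ∑ j, ‖Y e j‖ ^ 2 := by
  obtain ⟨c, hc⟩ := coerc a b G s1 r0 db hdb hn hd h
  have pos : ∀ γ : κ → ℝ, 0 < 1 + ∑ s, Real.exp (2 * γ s) := fun γ => by positivity
  have php : ∀ γ, 0 < ph a b G γ := fun γ => zero_lt_one.trans_le (ph_one a b G γ)
  have cF : Continuous (F a b G db (2 * s1 + 1)) := by
    refine (((ph_cont a b G).log fun γ => (php γ).ne').sub (by fun_prop)).add
      (continuous_const.mul (Continuous.log (by fun_prop) fun γ => (pos γ).ne'))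
  obtain ⟨γ, hγ⟩ := cF.exists_forall_le (tendsto_atTop_mono hc (tendsto_atTop_add_const_left _ c
    (Tendsto.const_mul_atTop (by linarith) (tendsto_norm_cocompact_atTop (E := κ → ℝ)))))
  obtain ⟨T, hT⟩ : ∃ T, T = Gt a b G γ := ⟨_, rfl⟩
  obtain ⟨B, hB⟩ : ∃ B, B = (1 + Tᴴ * T)⁻¹ := ⟨_, rfl⟩
  have hp : (1 + Tᴴ * T).PosDef := by rw [hT]; exact pd a b G γ
  have b1 : B * (1 + Tᴴ * T) = 1 := by
    rw [hB]; exact nonsing_inv_mul _ hp.det_pos.ne'.isUnit
  have b2 : Bᴴ = B := by rw [hB]; exact hp.isHermitian.inv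
  have y1 : T * fromCols (B * Tᴴ) B * (T * fromCols (B * Tᴴ) B)ᴴ = T * B * Tᴴ := by
    have : fromCols (B * Tᴴ) B * (fromCols (B * Tᴴ) B)ᴴ = B := by
      rw [conjTranspose_fromCols_eq_fromRows_conjTranspose, fromCols_mul_fromRows,
        conjTranspose_mul, conjTranspose_conjTranspose, b2]
      calc _ = B * (1 + Tᴴ * T) * B := by
            simp only [Matrix.mul_add, Matrix.add_mul, Matrix.mul_one, Matrix.mul_assoc]
            rw [add_comm]
        _ = B := by rw [b1, Matrix.one_mul]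
    rw [conjTranspose_mul, Matrix.mul_assoc, ← Matrix.mul_assoc _ _ Tᴴ, this, Matrix.mul_assoc]
  have y2 : ∀ e, ∑ j, ‖(T * fromCols (B * Tᴴ) B) e j‖ ^ 2 =
      ((T * B * Tᴴ : Matrix P P ℂ) e e).re := by
    intro e
    rw [← y1, Matrix.mul_apply, Complex.re_sum]
    refine Finset.sum_congr rfl fun j _ => ?_
    rw [conjTranspose_apply, Complex.star_def, Complex.mul_conj, Complex.ofReal_re,
      Complex.normSq_eq_norm_sq]
  have key : ∀ s, db - ∑ e, ((Pi.single s 1 : κ → ℝ) (a e) + (Pi.single s 1 : κ → ℝ) (b e)) *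
      ∑ j, ‖(T * fromCols (B * Tᴴ) B) e j‖ ^ 2 =
      db * (2 * s1 + 1) * (Real.exp (2 * γ s) / (1 + ∑ s, Real.exp (2 * γ s))) := by
    intro s
    have d1 := (ph_deriv a b G γ (Pi.single s 1)).log (php _).ne'
    have d0 : ∀ u, HasDerivAt (fun t : ℝ => (γ + t • (Pi.single s 1 : κ → ℝ)) u)
        ((Pi.single s 1 : κ → ℝ) u) 0 := fun u => by
      simpa using ((hasDerivAt_id (0 : ℝ)).mul_const ((Pi.single s 1 : κ → ℝ) u)).const_add (γ u)
    have d2 := HasDerivAt.fun_sum (u := Finset.univ) fun u _ => d0 u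
    have d3 := ((HasDerivAt.fun_sum (u := Finset.univ)
      fun u _ => ((d0 u).const_mul 2).exp).const_add 1).log (pos _).ne'
    have d4 := (d1.sub (d2.const_mul (2 * db))).add (d3.const_mul (db * (2 * s1 + 1)))
    have d5 := IsLocalMin.hasDerivAt_eq_zero (Eventually.of_forall fun t => by
      have h0 := hγ (γ + t • Pi.single s 1)
      simp only [F] at h0
      simp only [Pi.add_apply (f := _ - _), Pi.sub_apply, zero_smul, add_zero]
      exact h0) d4
    have e1 : ∑ u, Real.exp (2 * γ u) * (2 * (Pi.single s 1 : κ → ℝ) u) =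
        2 * Real.exp (2 * γ s) := by
      rw [Finset.sum_eq_single s (fun u _ hu => by simp [hu]) (by simp)]
      simp [mul_comm]
    simp only [zero_smul, add_zero, e1, Finset.sum_pi_single', Finset.mem_univ, if_true,
      mul_div_cancel_left₀ _ (php γ).ne', ← hT, ← hB] at d5
    simp only [y2]
    linear_combination (-1 / 2) * d5
  refine ⟨fun s => Real.exp (γ s), fromCols (B * Tᴴ) B, T * fromCols (B * Tᴴ) B,
    fun s => Real.exp_pos _, fun e j => ?_, fun s => ?_, ?_, ?_⟩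
  · nth_rw 1 [hT]
    rw [Gt, Matrix.mul_assoc, diagonal_mul, Complex.ofReal_mul]
  · have := pos γ
    rw [← sub_nonneg, key]
    positivity
  · simp only [key]
    rw [← Finset.mul_sum, ← Finset.sum_div]
    exact mul_le_of_le_one_right (by positivity) ((div_le_one (pos γ)).2 (by linarith))
  · refine Finset.sum_le_sum fun e _ => ?_
    rw [y1, Fintype.sum_sum_type, mul_fromCols, ← Matrix.mul_assoc]
    simp only [fromCols_apply_inl, fromCols_apply_inr]
    exact le_add_of_nonneg_right (by positivity)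

end Pool.Agent.Lib.LX33.SCALE

namespace Pool.Agent.Lib.LX33

open Matrix

theorem st_SCALE : St_SCALE := by
  intro κ _ _ U r0 db s1 hdb hd h
  rcases isEmpty_or_nonempty κ with hκ | hκ
  · refine ⟨fun _ => 1, 0, fun _ => one_pos, fun c => ⟨0, U.zero_mem, by simp⟩, hdb.le, ?_,
      fun s => isEmptyElim s, ?_⟩
    · simp [tau]
    · rw [Finset.sum_of_isEmpty]
      positivity
  obtain ⟨p, hp⟩ := U.subtype.exists_leftInverse_of_injective U.ker_subtype
  obtain ⟨G, hG⟩ : ∃ G : Matrix (κ × κ) (κ × κ) ℂ, ∀ u, G *ᵥ u = p u :=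
    ⟨LinearMap.toMatrix' (U.subtype.comp p), fun u => by
      rw [← toLin'_apply, toLin'_toMatrix']; rfl⟩
  obtain ⟨x, Z, Y, x0, y1, y2, y3, y4⟩ := SCALE.main Prod.fst Prod.snd G s1 r0 db hdb
    Fintype.card_pos hd fun S hS => by
      obtain ⟨I, i1, i2, i3⟩ := h S hS
      refine ⟨I, i1, i2, Fintype.linearIndependent_iff.2 fun β hβ e => ?_⟩
      have h1 := i3 (fun e => if he : e ∈ I then β ⟨e, he⟩ else 0) (fun e he => dif_neg he)
        fun u hu => by
          have h2 : G *ᵥ u = u := by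
            rw [hG]
            exact congrArg Subtype.val (LinearMap.congr_fun hp ⟨u, hu⟩)
          have h3 := congrArg (fun z => z ⬝ᵥ u) hβ
          simp only [sum_dotProduct, smul_dotProduct, zero_dotProduct, smul_eq_mul] at h3
          rw [← Finset.sum_subset I.subset_univ fun e _ he => by rw [dif_neg he, zero_mul],
            ← Finset.sum_coe_sort I]
          exact Eq.trans (Finset.sum_congr rfl fun e _ => by
            rw [dif_pos e.2]
            exact congrArg _ (congrFun h2 e).symm) h3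
      simpa using congrFun h1 e
  have e1 : ∀ s, dg (fun c e => Y e c) s =
      ∑ e : κ × κ, ((Pi.single s 1 : κ → ℝ) e.1 + (Pi.single s 1 : κ → ℝ) e.2) *
        ∑ j, ‖Y e j‖ ^ 2 := fun s => by
    simp only [dg, wt, add_mul, Finset.sum_add_distrib]
    congr 1 <;> symm
    · rw [Fintype.sum_prod_type, Finset.sum_eq_single s (fun t _ ht => by simp [ht]) (by simp)]
      simp
    · rw [Fintype.sum_prod_type_right,
        Finset.sum_eq_single s (fun t _ ht => by simp [ht]) (by simp)]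
      simp
  refine ⟨x, fun c e => Y e c, x0, fun c => ⟨G *ᵥ fun l => Z l c, ?_, fun e => y1 e c⟩,
    hdb.le, y4, fun s => (e1 s).trans_le (y2 s), ?_⟩
  · rw [hG]
    exact (p _).2
  · simp only [e1]
    exact y3

end Pool.Agent.Lib.LX33
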