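import Pool.Agent.Lib.LX33.Blue

/-! Orthogonality of the sign functions on subsets. -/

namespace Pool.Agent.Lib.LX33

namespace SGN

variable {κ : Type} [Fintype κ] [DecidableEq κ]

theorem orth (u v : κ) :
    ∑ T : Finset κ, (if u ∈ T then (1 : ℝ) else -1) * (if v ∈ T then (1 : ℝ) else -1) =
      if u = v then 2 ^ Fintype.card κ else 0 := by
  by_cases h : u = v
  · subst h
    have h1 : ∀ T : Finset κ,
        (if u ∈ T then (1 : ℝ) else -1) * (if u ∈ T then (1 : ℝ) else -1) = 1 := by
      intro T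
      by_cases hT : u ∈ T <;> simp [hT]
    rw [Finset.sum_congr rfl fun T _ => h1 T]
    simp [Fintype.card_finset]
  · rw [if_neg h]
    have hinv : Function.Involutive fun T : Finset κ => symmDiff T {u} := fun T =>
      symmDiff_symmDiff_cancel_right _ _
    have h2 := Equiv.sum_comp hinv.toPerm fun T : Finset κ =>
      (if u ∈ T then (1 : ℝ) else -1) * (if v ∈ T then (1 : ℝ) else -1)
    have h3 : ∀ T : Finset κ,
        (if u ∈ hinv.toPerm _ T then (1 : ℝ) else -1) *
            (if v ∈ hinv.toPerm _ T then (1 : ℝ) else -1) =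
          -((if u ∈ T then (1 : ℝ) else -1) * (if v ∈ T then (1 : ℝ) else -1)) := by
      intro T
      have hu : u ∈ hinv.toPerm _ T ↔ u ∉ T := by
        simp [Function.Involutive.coe_toPerm, Finset.mem_symmDiff]
      have hv : v ∈ hinv.toPerm _ T ↔ v ∈ T := by
        simp [Function.Involutive.coe_toPerm, Finset.mem_symmDiff, Ne.symm h]
      simp only [hu, hv]
      by_cases h4 : u ∈ T <;> by_cases h5 : v ∈ T <;> simp [h4, h5]
    rw [Finset.sum_congr rfl fun T _ => h3 T, Finset.sum_neg_distrib] at h2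
    linarith

theorem real (a : κ → ℝ) :
    ∑ T : Finset κ, (∑ u, a u * (if u ∈ T then (1 : ℝ) else -1)) ^ 2 =
      2 ^ Fintype.card κ * ∑ u, a u ^ 2 := by
  have h1 : ∀ T : Finset κ, (∑ u, a u * (if u ∈ T then (1 : ℝ) else -1)) ^ 2 =
      ∑ u, ∑ v, a u * a v *
        ((if u ∈ T then (1 : ℝ) else -1) * (if v ∈ T then (1 : ℝ) else -1)) := by
    intro T
    rw [sq, Finset.sum_mul_sum]
    exact Finset.sum_congr rfl fun u _ => Finset.sum_congr rfl fun v _ => by ring
  rw [Finset.sum_congr rfl fun T _ => h1 T, Finset.sum_comm, Finset.mul_sum]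
  refine Finset.sum_congr rfl fun u _ => ?_
  rw [Finset.sum_comm]
  have h2 : ∀ v, ∑ T : Finset κ, a u * a v *
      ((if u ∈ T then (1 : ℝ) else -1) * (if v ∈ T then (1 : ℝ) else -1)) =
      if u = v then a u * a v * 2 ^ Fintype.card κ else 0 := by
    intro v
    rw [← Finset.mul_sum, orth]
    by_cases h : u = v <;> simp [h]
  rw [Finset.sum_congr rfl fun v _ => h2 v, Finset.sum_ite_eq]
  simp only [Finset.mem_univ, if_true]
  ring

end SGN

theorem st_SGN : St_SGN := by
  intro κ _ _ c
  have h1 : ∀ T : Finset κ, ‖∑ u, c u * (if u ∈ T then (1 : ℂ) else -1)‖ ^ 2 =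
      (∑ u, (c u).re * (if u ∈ T then (1 : ℝ) else -1)) ^ 2 +
        (∑ u, (c u).im * (if u ∈ T then (1 : ℝ) else -1)) ^ 2 := by
    intro T
    have hre : (∑ u, c u * (if u ∈ T then (1 : ℂ) else -1)).re =
        ∑ u, (c u).re * (if u ∈ T then (1 : ℝ) else -1) := by
      rw [Complex.re_sum]
      exact Finset.sum_congr rfl fun u _ => by by_cases h : u ∈ T <;> simp [h]
    have him : (∑ u, c u * (if u ∈ T then (1 : ℂ) else -1)).im =
        ∑ u, (c u).im * (if u ∈ T then (1 : ℝ) else -1) := by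
      rw [Complex.im_sum]
      exact Finset.sum_congr rfl fun u _ => by by_cases h : u ∈ T <;> simp [h]
    rw [Complex.sq_norm, Complex.normSq_apply, hre, him]
    ring
  rw [Finset.sum_congr rfl fun T _ => h1 T, Finset.sum_add_distrib, SGN.real, SGN.real,
    ← mul_add, ← Finset.sum_add_distrib]
  congr 1
  refine Finset.sum_congr rfl fun u _ => ?_
  rw [Complex.sq_norm, Complex.normSq_apply]
  ring

end Pool.Agent.Lib.LX33
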