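import Pool.Agent.Lib.LX33.Blue

namespace Pool.Agent.Lib.LX33

namespace SMALL

open Module Submodule

section Alg

variable {R α : Type} [CommRing R] [Algebra ℂ R]

/-- Monomials of degree `k` in a family. -/
def mono (u : α → R) (k : ℕ) (m : Sym α k) : R := (m.1.map u).prod

theorem prod_mem {κ : Type} [DecidableEq κ] (u : α → R) (f : κ → R) (S : Finset κ)
    (hf : ∀ s ∈ S, f s ∈ span ℂ (Set.range u)) :
    ∏ s ∈ S, f s ∈ span ℂ (Set.range (mono u S.card)) := by
  induction S using Finset.induction_on with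
  | empty => exact subset_span ⟨Sym.nil, by simp [mono]⟩
  | insert x S hx ih =>
    rw [Finset.prod_insert hx, Finset.card_insert_of_notMem hx]
    have h := mul_mem_mul (hf x (Finset.mem_insert_self _ _))
      (ih fun s hs => hf s (Finset.mem_insert_of_mem hs))
    rw [span_mul_span] at h
    refine span_mono ?_ h
    rintro _ ⟨_, ⟨a, rfl⟩, _, ⟨m, rfl⟩, rfl⟩
    exact ⟨a ::ₛ m, (congrArg Multiset.prod (Multiset.map_cons u a m.1)).trans
      (Multiset.prod_cons _ _)⟩

theorem count {κ : Type} [Fintype κ] [DecidableEq κ] (l : κ → R) (S J : Finset κ)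
    (hJ : ∀ s ∈ S, l s ∈ span ℂ (Set.range fun t : J => l t)) :
    finrank ℂ (span ℂ (Set.range fun T : Finset κ => ∏ s ∈ T, l s)) ≤
      2 ^ (Fintype.card κ - S.card) * (S.card + J.card).choose S.card := by
  let u : Option J → R := fun o => o.elim 1 fun t => l t
  let w : ↥(Sᶜ.powerset) × Sym (Option J) S.card → R :=
    fun p => (∏ s ∈ p.1.1, l s) * mono u S.card p.2
  have h1 : span ℂ (Set.range fun T : Finset κ => ∏ s ∈ T, l s) ≤ span ℂ (Set.range w) := by
    rw [span_le]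
    rintro _ ⟨T, rfl⟩
    have h2 : ∏ s ∈ T, l s = (∏ s ∈ T \ S, l s) * ∏ s ∈ S, if s ∈ T then l s else 1 := by
      rw [Finset.prod_ite_mem, Finset.inter_comm, mul_comm, Finset.prod_inter_mul_prod_sdiff]
    have h3 := prod_mem u (fun s => if s ∈ T then l s else 1) S (fun s hs => by
      by_cases h : s ∈ T
      · rw [if_pos h]
        refine span_mono ?_ (hJ s hs)
        rintro _ ⟨t, rfl⟩
        exact ⟨some t, rfl⟩
      · rw [if_neg h]
        exact subset_span ⟨none, rfl⟩)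
    have h4 := mul_mem_mul (mem_span_singleton_self (R := ℂ) (∏ s ∈ T \ S, l s)) h3
    rw [span_mul_span, ← h2] at h4
    refine span_mono ?_ h4
    rintro _ ⟨_, rfl, _, ⟨m, rfl⟩, rfl⟩
    exact ⟨(⟨T \ S, Finset.mem_powerset.2 fun x hx =>
      Finset.mem_compl.2 (Finset.mem_sdiff.1 hx).2⟩, m), rfl⟩
  have h5 := finrank_range_le_card (R := ℂ) w
  have : Module.Finite ℂ (span ℂ (Set.range w)) :=
    Module.Finite.span_of_finite ℂ (Set.finite_range w)
  refine (Submodule.finrank_mono h1).trans (le_trans h5 (le_of_eq ?_))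
  rw [Fintype.card_prod, Fintype.card_coe, Finset.card_powerset, Finset.card_compl,
    Sym.card_sym_eq_choose, Fintype.card_option, Fintype.card_coe]
  congr 2
  omega

end Alg

theorem num (ρ r : ℕ) (h : r ≤ ρ) : (8 * ρ + r).choose (8 * ρ) ≤ 2 ^ (7 * ρ) := by
  have h1 : 2 ^ (8 * ρ) * 1 ^ (8 * ρ + r - 8 * ρ) * (8 * ρ + r).choose (8 * ρ) ≤
      (2 + 1) ^ (8 * ρ + r) := by
    rw [add_pow]
    exact Finset.single_le_sum
      (f := fun m => 2 ^ m * 1 ^ (8 * ρ + r - m) * ((8 * ρ + r).choose m : ℕ))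
      (fun m _ => Nat.zero_le _) (Finset.mem_range.2 (by omega))
  have h2 : (2 + 1) ^ (8 * ρ + r) ≤ 2 ^ (8 * ρ) * 2 ^ (7 * ρ) :=
    calc (2 + 1) ^ (8 * ρ + r) ≤ (2 + 1) ^ (9 * ρ) := Nat.pow_le_pow_right (by norm_num) (by omega)
      _ = ((2 + 1) ^ 9) ^ ρ := pow_mul _ _ _
      _ ≤ (2 ^ 8 * 2 ^ 7) ^ ρ := Nat.pow_le_pow_left (by norm_num) ρ
      _ = _ := by rw [mul_pow, ← pow_mul, ← pow_mul]
  rw [one_pow, mul_one] at h1
  exact Nat.le_of_mul_le_mul_left (h1.trans h2) (by positivity)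

end SMALL

open Module Submodule CH48 in
theorem st_SMALL : St_SMALL := by
  intro ι _ _ L S ρ hS hρ
  obtain ⟨b, hb, -, hsp, hli⟩ :=
    exists_linearIndepOn_extension (K := ℂ) (v := L) (linearIndepOn_empty ℂ L)
      (Set.empty_subset (S : Set ι))
  obtain ⟨J, rfl⟩ := (S.finite_toSet.subset hb).exists_finset_coe
  have hJ : J.card ≤ ρ := by
    have h1 := finrank_span_eq_card (R := ℂ) (b := fun s : J => L s) hli
    rw [Fintype.card_coe] at h1
    rw [← h1]
    refine (Submodule.finrank_mono (span_mono ?_)).trans hρ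
    rintro _ ⟨t, rfl⟩
    exact ⟨t, hb t.2, rfl⟩
  let f : (ι × ι → ℂ) →ₗ[ℂ] MvPolynomial (ι × ι) ℂ :=
    Fintype.linearCombination ℂ (fun e => MvPolynomial.X e)
  have hf : ∀ a, lf a = f a := fun a => by
    simp only [lf, f, Fintype.linearCombination_apply, MvPolynomial.smul_eq_C_mul]
  have h1 := SMALL.count (fun s => lf (L s)) S J (fun s hs => by
    have h2 := mem_map_of_mem (f := f) (hsp ⟨s, hs, rfl⟩)
    rw [map_span] at h2
    rw [hf]
    refine span_mono ?_ h2
    rintro _ ⟨_, ⟨t, ht, rfl⟩, rfl⟩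
    exact ⟨⟨t, ht⟩, hf _⟩)
  have h2 : LinearMap.range (PHI.phi L) =
      span ℂ (Set.range fun T : Finset ι => ∏ s ∈ T, lf (L s)) :=
    Fintype.range_linearCombination ℂ _
  have h3 := Finset.card_le_univ S
  rw [hS] at h1 h3
  rw [h2]
  calc _ ≤ 2 ^ ρ * (2 ^ (Fintype.card ι - 8 * ρ) * 2 ^ (7 * ρ)) :=
        Nat.mul_le_mul_left _ (h1.trans (Nat.mul_le_mul_left _ (SMALL.num ρ _ hJ)))
    _ = _ := by
        rw [← pow_add, ← pow_add]
        congr 1
        omega

end Pool.Agent.Lib.LX33
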