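import Pool.Agent.Lib.LX33.Blue
import Pool.Agent.Lib.CH48.B_SUB

namespace Pool.Agent.Lib.LX33

open Matrix MvPolynomial Module Pool.Agent.Lib.CH48

theorem st_SUB1 : St_SUB1 := by
  intro ι _ _ Z d₀ _ h0 h1
  have hc : (Fintype.card ι).choose d₀ ^ 2 =
      Fintype.card {p : Finset ι × Finset ι // p.1.card = d₀ ∧ p.2.card = d₀} := by
    rw [Fintype.card_subtype, pow_two, ← Finset.card_univ, ← Finset.card_powersetCard,
      ← Finset.card_product]
    congr 1
    ext p
    simp only [Finset.mem_filter, Finset.mem_univ, true_and, Finset.mem_product,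
      Finset.mem_powersetCard, Finset.subset_univ]
  rw [hc]
  have hex : ∀ p : {p : Finset ι × Finset ι // p.1.card = d₀ ∧ p.2.card = d₀},
      ∃ τ : Equiv.Perm ι, ∀ i, i ∈ p.1.1 ↔ τ i ∈ p.1.2 :=
    fun p => SUB.ex_perm _ _ (p.2.1.trans p.2.2.symm)
  choose τ hτ using hex
  have hm : ∀ p, SUB.P (τ p) p.1.1 ∈ Z d₀ := fun p => by
    have h2 := SUB.P_mem Z h0 h1 (τ p) (Fintype.card ι - p.1.1.card) _
      (Nat.add_sub_cancel' (Finset.card_le_univ _))
    rwa [p.2.1] at h2
  have hl : LinearIndependent ℂ fun p => (⟨SUB.P (τ p) p.1.1, hm p⟩ : Z d₀) := by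
    refine LinearIndependent.of_pairwise_dual_eq_zero_one _
      (fun p => (lcoeff ℂ (SUB.g (τ p) p.1.1)).comp (Z d₀).subtype) (fun p q hpq => ?_)
      fun p => ?_
    · by_contra h
      obtain ⟨e1, e2⟩ := SUB.coeff_ne (hτ p) (hτ q) (q.2.2.trans q.2.1.symm)
        (p.2.2.trans p.2.1.symm) h
      exact hpq (Subtype.ext (Prod.ext e1 e2))
    · exact SUB.coeff_self _ _
  exact hl.fintype_card_le_finrank

end Pool.Agent.Lib.LX33
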