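import Pool.Agent.Lib.LX33.Blue

namespace Pool.Agent.Lib.LX33

namespace TEL

theorem term {x y w w' D Cn c c' a b τ κ B : ℝ} (hτ : 0 ≤ τ) (hκ : 0 ≤ κ) (hκ2 : κ ≤ 1 / 2)
    (hB : 0 < B) (hx : x ≤ w) (hD : 0 ≤ D) (ha : 0 ≤ a) (hb : 0 ≤ b) (hC : B ≤ Cn)
    (h1 : |4 * c - Cn| ≤ κ * Cn) (h2 : |4 * c' - Cn| ≤ κ * Cn)
    (h3 : τ / 2 * D - √D * a ≤ x - y)
    (h4 : 1 / c' * w' - 1 / c * y ≤ √Cn * (|1 / c'| * b + |1 / c' - 1 / c| * a)) :
    0 < c ∧ 0 < c' ∧ 2 * τ * (1 - κ) * (D / Cn) ≤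
      (w / c - w' / c') + (8 * (√(D / Cn) * a) + 8 * b + 32 * (κ * a)) / √B := by
  have hCn : 0 < Cn := hB.trans_le hC
  obtain ⟨h1a, h1b⟩ := abs_le.1 h1
  obtain ⟨h2a, h2b⟩ := abs_le.1 h2
  have hk : κ * Cn ≤ 1 / 2 * Cn := mul_le_mul_of_nonneg_right hκ2 hCn.le
  have hc8 : Cn / 8 ≤ c := by linarith
  have hc8' : Cn / 8 ≤ c' := by linarith
  have hc : 0 < c := by linarith
  have hc' : 0 < c' := by linarith
  refine ⟨hc, hc', ?_⟩
  have hr : 0 < √B := Real.sqrt_pos.2 hB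
  have hs : 0 < √Cn := Real.sqrt_pos.2 hCn
  have hrs : √B ≤ √Cn := Real.sqrt_le_sqrt hC
  have hss : √Cn * √Cn = Cn := Real.mul_self_sqrt hCn.le
  have hd : 0 ≤ √D := Real.sqrt_nonneg _
  rw [Real.sqrt_div hD]
  generalize √Cn = s at *
  generalize √B = r at *
  generalize √D = d at *
  have i1 : 1 / c ≤ 8 / Cn := by
    rw [div_le_div_iff₀ hc hCn]
    linarith
  have i2 : 1 / c' ≤ 8 / Cn := by
    rw [div_le_div_iff₀ hc' hCn]
    linarith
  have i3 : |1 / c' - 1 / c| ≤ 32 * κ / Cn := by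
    have e : 1 / c' - 1 / c = (c - c') * (1 / c' * (1 / c)) := by field_simp
    have p1 : 0 < 1 / c' * (1 / c) := by positivity
    have p2 : 1 / c' * (1 / c) ≤ 8 / Cn * (8 / Cn) :=
      mul_le_mul i2 i1 (by positivity) (by positivity)
    have p3 : |c - c'| ≤ κ * Cn / 2 := abs_le.2 ⟨by linarith, by linarith⟩
    rw [e, abs_mul, abs_of_pos p1]
    calc |c - c'| * (1 / c' * (1 / c)) ≤ κ * Cn / 2 * (8 / Cn * (8 / Cn)) :=
          mul_le_mul p3 p2 p1.le (by positivity)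
      _ = 32 * κ / Cn := by field_simp; ring
  have i4 : s / Cn ≤ 1 / r := by
    rw [div_le_div_iff₀ hCn hr]
    nlinarith
  have i5 : 4 * (1 - κ) / Cn ≤ 1 / c := by
    rw [div_le_div_iff₀ hCn hc]
    have : 4 * c ≤ (1 + κ) * Cn := by linarith
    have h5 : (1 - κ) * (4 * c) ≤ (1 - κ) * ((1 + κ) * Cn) :=
      mul_le_mul_of_nonneg_left this (by linarith)
    nlinarith [mul_nonneg (mul_nonneg hκ hκ) hCn.le]
  have j1 : 2 * τ * (1 - κ) * (D / Cn) ≤ 1 / c * (τ / 2 * D) := by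
    have := mul_le_mul_of_nonneg_right i5 (by positivity : 0 ≤ τ / 2 * D)
    calc 2 * τ * (1 - κ) * (D / Cn) = 4 * (1 - κ) / Cn * (τ / 2 * D) := by ring
      _ ≤ _ := this
  have j2 : 1 / c * (d * a) ≤ 8 * (d / s * a) / r := by
    calc 1 / c * (d * a) ≤ 8 / Cn * (d * a) := mul_le_mul_of_nonneg_right i1 (by positivity)
      _ = 8 * (d / s * a) * (s / Cn) := by field_simp
      _ ≤ 8 * (d / s * a) * (1 / r) := mul_le_mul_of_nonneg_left i4 (by positivity)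
      _ = _ := by ring
  have j3 : s * (|1 / c'| * b) ≤ 8 * b / r := by
    rw [abs_of_pos (by positivity)]
    calc s * (1 / c' * b) ≤ s * (8 / Cn * b) :=
          mul_le_mul_of_nonneg_left (mul_le_mul_of_nonneg_right i2 hb) hs.le
      _ = 8 * b * (s / Cn) := by ring
      _ ≤ 8 * b * (1 / r) := mul_le_mul_of_nonneg_left i4 (by positivity)
      _ = _ := by ring
  have j4 : s * (|1 / c' - 1 / c| * a) ≤ 32 * (κ * a) / r := by
    calc s * (|1 / c' - 1 / c| * a) ≤ s * (32 * κ / Cn * a) :=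
          mul_le_mul_of_nonneg_left (mul_le_mul_of_nonneg_right i3 ha) hs.le
      _ = 32 * (κ * a) * (s / Cn) := by ring
      _ ≤ 32 * (κ * a) * (1 / r) := mul_le_mul_of_nonneg_left i4 (by positivity)
      _ = _ := by ring
  have j5 : 1 / c * (τ / 2 * D - d * a) ≤ 1 / c * (w - y) :=
    mul_le_mul_of_nonneg_left (by linarith) (by positivity)
  have e1 : w / c - w' / c' = 1 / c * w - 1 / c' * w' := by ring
  rw [e1, add_div, add_div]
  rw [mul_add] at h4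
  rw [mul_sub, mul_sub] at j5
  linarith

end TEL

theorem st_TEL : St_TEL := by
  intro k x y w Δ Cn c α β τ κ B X Y Z hτ hκ hκ2 hB hX hY hZ hw0 hwk h hα hβ hγ
  rcases Nat.eq_zero_or_pos k with rfl | hk
  · simp only [Finset.range_zero, Finset.sum_empty]
    nlinarith
  have ht : ∀ j, j < k → 0 < c j ∧ 0 < c (j + 1) ∧ 2 * τ * (1 - κ) * (Δ j / Cn j) ≤
      (w j / c j - w (j + 1) / c (j + 1)) +
        (8 * (√(Δ j / Cn j) * α j) + 8 * β j + 32 * (κ * α j)) / √B := by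
    intro j hj
    obtain ⟨a1, a2, a3, a4, a5, a6, a7, a8, a9⟩ := h j hj
    exact TEL.term hτ hκ hκ2 hB a1 a2 a3 a4 a5 a6 a7 a8 a9
  have hr : 0 < √B := Real.sqrt_pos.2 hB
  have hrr : √B ^ 2 = B := Real.sq_sqrt hB.le
  have hq : ∀ j ∈ Finset.range k, 0 ≤ Δ j / Cn j := fun j hj => by
    obtain ⟨-, a2, -, -, a5, -⟩ := h j (Finset.mem_range.1 hj)
    exact div_nonneg a2 (hB.le.trans a5)
  have hS : 0 ≤ ∑ j ∈ Finset.range k, Δ j / Cn j := Finset.sum_nonneg hq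
  have s0 := Finset.sum_le_sum fun j (hj : j ∈ Finset.range k) =>
    (ht j (Finset.mem_range.1 hj)).2.2
  rw [← Finset.mul_sum, Finset.sum_add_distrib, Finset.sum_range_sub' (fun j => w j / c j),
    ← Finset.sum_div, Finset.sum_add_distrib, Finset.sum_add_distrib, ← Finset.mul_sum,
    ← Finset.mul_sum, ← Finset.mul_sum, ← Finset.mul_sum] at s0
  have s1 := Finset.sum_mul_sq_le_sq_mul_sq (Finset.range k) (fun j => √(Δ j / Cn j)) α
  rw [Finset.sum_congr rfl fun j hj => Real.sq_sqrt (hq j hj)] at s1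
  have s2 := sq_sum_le_card_mul_sum_sq (s := Finset.range k) (f := β)
  have s3 := sq_sum_le_card_mul_sum_sq (s := Finset.range k) (f := α)
  rw [Finset.card_range] at s2 s3
  have hc0 := (ht 0 hk).1
  have hck : 0 < c k := by
    have := (ht (k - 1) (by omega)).2.1
    rwa [Nat.sub_add_cancel hk] at this
  have t0 : w 0 / c 0 ≤ 2 * τ := (div_le_iff₀ hc0).2 hw0
  have tk : 0 ≤ w k / c k := div_nonneg hwk hck.le
  generalize ∑ j ∈ Finset.range k, Δ j / Cn j = S at *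
  generalize ∑ j ∈ Finset.range k, √(Δ j / Cn j) * α j = P1 at *
  generalize ∑ j ∈ Finset.range k, β j = P2 at *
  generalize ∑ j ∈ Finset.range k, α j = P3 at *
  generalize ∑ j ∈ Finset.range k, α j ^ 2 = A2 at *
  generalize ∑ j ∈ Finset.range k, β j ^ 2 = B2 at *
  have u1 : P1 ≤ (1 + S) / 2 * X * √B := by
    refine le_of_sq_le_sq ?_ (by positivity)
    have v1 : S * A2 ≤ S * (X ^ 2 * B) := mul_le_mul_of_nonneg_left hα hS
    have v2 : S * (X ^ 2 * B) ≤ ((1 + S) / 2) ^ 2 * (X ^ 2 * B) :=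
      mul_le_mul_of_nonneg_right (by nlinarith [sq_nonneg (1 - S)]) (by positivity)
    rw [mul_pow, mul_pow, hrr]
    linarith
  have u2 : P2 ≤ Y * √B := by
    refine le_of_sq_le_sq ?_ (by positivity)
    rw [mul_pow, hrr]
    linarith
  have u3 : κ * P3 ≤ Z * √B := by
    refine le_of_sq_le_sq ?_ (by positivity)
    have v1 := mul_le_mul_of_nonneg_left s3 (sq_nonneg κ)
    rw [mul_pow, mul_pow, hrr]
    linarith
  have u4 : (8 * P1 + 8 * P2 + 32 * (κ * P3)) / √B ≤ 4 * (1 + S) * X + 8 * Y + 32 * Z := by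
    rw [div_le_iff₀ hr]
    linarith
  linarith

end Pool.Agent.Lib.LX33
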