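import Pool.Agent.Lib.LX33.Blue

namespace Pool.Agent.Lib.LX33

open Matrix Module Pool.Agent.Lib.CH48

namespace TOR

variable {κ : Type} [Fintype κ] [DecidableEq κ]

theorem sym (m : κ → κ → ℂ) :
    E (fun s t => if s = t then 0 else m s t + m t s) = (2 : ℂ) • E m := by
  have h0 : ∀ s : κ, A s * A s = 0 := by
    intro s
    ext S T
    simp [KIT.aa]
  have h1 : ∀ s t : κ, (if s = t then 0 else m s t + m t s) • (A s * A t) =
      m s t • (A s * A t) + m t s • (A t * A s) := by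
    intro s t
    by_cases h : s = t
    · subst h
      simp [h0]
    · rw [if_neg h, add_smul, ((st_KIT κ).1 t s).eq]
  unfold E
  simp only [h1, Finset.sum_add_distrib]
  rw [Finset.sum_comm (f := fun s t => m t s • (A t * A s)), two_smul]

/-- Division by the product of the weights of a set. -/
noncomputable def sc (v : κ → ℂ) (hv : ∀ s, v s ≠ 0) :
    (Finset κ → ℂ) ≃ₗ[ℂ] (Finset κ → ℂ) :=
  LinearEquiv.piCongrRight fun S => LinearEquiv.smulOfNeZero ℂ ℂ (∏ s ∈ S, v s)⁻¹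
    (inv_ne_zero (Finset.prod_ne_zero_iff.2 fun s _ => hv s))

omit [Fintype κ] [DecidableEq κ] in
theorem sc_apply (v : κ → ℂ) (hv : ∀ s, v s ≠ 0) (w : Finset κ → ℂ) (S : Finset κ) :
    sc v hv w S = (∏ s ∈ S, v s)⁻¹ * w S := rfl

theorem entry (v : κ → ℂ) (hv : ∀ s, v s ≠ 0) (m : κ → κ → ℂ) (S T : Finset κ) :
    E (fun s t => v s * v t * m s t) S T * (∏ s ∈ T, v s)⁻¹ = (∏ s ∈ S, v s)⁻¹ * E m S T := by
  rw [KIT.e_apply, KIT.e_apply, Finset.sum_mul, Finset.mul_sum]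
  refine Finset.sum_congr rfl fun s _ => ?_
  rw [Finset.sum_mul, Finset.mul_sum]
  refine Finset.sum_congr rfl fun t _ => ?_
  by_cases h : s ∉ S ∧ t ∉ S ∧ s ≠ t ∧ T = insert t (insert s S)
  · rw [if_pos h]
    obtain ⟨a, b, c, rfl⟩ := h
    rw [Finset.prod_insert (by simp [b, c.symm]), Finset.prod_insert a]
    have h1 := hv s
    have h2 := hv t
    have h3 : ∏ s ∈ S, v s ≠ 0 := Finset.prod_ne_zero_iff.2 fun s _ => hv s
    field_simp
  · rw [if_neg h]
    simp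

theorem conj (v : κ → ℂ) (hv : ∀ s, v s ≠ 0) (m : κ → κ → ℂ) (w : Finset κ → ℂ) :
    E (fun s t => v s * v t * m s t) *ᵥ sc v hv w = sc v hv (E m *ᵥ w) := by
  funext S
  rw [sc_apply]
  simp only [Matrix.mulVec, dotProduct, sc_apply, Finset.mul_sum]
  refine Finset.sum_congr rfl fun T _ => ?_
  rw [← mul_assoc, entry v hv, mul_assoc]

end TOR

theorem st_TOR : St_TOR := by
  intro κ _ _
  refine ⟨TOR.sym, fun v M N hv hP => ?_⟩
  refine ⟨fun d => (M d).map (TOR.sc v hv).toLinearMap, fun d => (N d).map (TOR.sc v hv).toLinearMap,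
    fun d => ⟨Submodule.map_mono (hP d).1, ?_⟩,
    fun d => ⟨LinearEquiv.finrank_map_eq _ _, LinearEquiv.finrank_map_eq _ _⟩, ?_⟩
  · rintro _ ⟨w, hw, rfl⟩ S hS
    have h : TOR.sc v hv w S = 0 := by
      rw [TOR.sc_apply, (hP d).2 w hw S hS, mul_zero]
    exact h
  · rintro m hm d _ ⟨w, hw, rfl⟩
    exact ⟨E m *ᵥ w, hm d w hw, (TOR.conj v hv m w).symm⟩

end Pool.Agent.Lib.LX33
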