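import Pool.Agent.Lib.LX33.B_ASY
import Pool.Agent.Lib.LX33.B_BIG
import Pool.Agent.Lib.LX33.B_BIN
import Pool.Agent.Lib.LX33.B_COMM
import Pool.Agent.Lib.LX33.B_DIAG
import Pool.Agent.Lib.LX33.B_FILT
import Pool.Agent.Lib.LX33.B_FLAG
import Pool.Agent.Lib.LX33.B_HS1
import Pool.Agent.Lib.LX33.B_HS2
import Pool.Agent.Lib.LX33.B_IND
import Pool.Agent.Lib.LX33.B_KEY
import Pool.Agent.Lib.LX33.B_LA
import Pool.Agent.Lib.LX33.B_LB
import Pool.Agent.Lib.LX33.B_LC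
import Pool.Agent.Lib.LX33.B_LTR
import Pool.Agent.Lib.LX33.B_MAIN
import Pool.Agent.Lib.LX33.B_OFF
import Pool.Agent.Lib.LX33.B_PROJ
import Pool.Agent.Lib.LX33.B_RANK
import Pool.Agent.Lib.LX33.B_RAT
import Pool.Agent.Lib.LX33.B_SCALE
import Pool.Agent.Lib.LX33.B_SGN
import Pool.Agent.Lib.LX33.B_SMALL
import Pool.Agent.Lib.LX33.B_SUB1
import Pool.Agent.Lib.LX33.B_TEL
import Pool.Agent.Lib.LX33.B_TOR

namespace Pool.Agent.Lib.LX33

theorem main_all : St_MAIN :=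
  st_MAIN (st_FILT st_FLAG st_SUB1) st_BIN
    (st_KEY st_SMALL st_RANK st_IND st_SCALE st_TOR st_ASY
      (st_BIG st_PROJ st_LA st_LB st_LC (st_LTR st_DIAG) (st_HS1 st_DIAG st_SGN st_OFF)
        (st_HS2 st_SGN st_COMM) st_TEL st_RAT))

end Pool.Agent.Lib.LX33
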