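import Pool.Agent.Lib.LX33.Blue

/-! The choice of parameters. -/

namespace Pool.Agent.Lib.LX33

namespace ASY

theorem sq_le_pow (r : ℕ) (h : 4 ≤ r) : r ^ 2 ≤ 2 ^ r := by
  induction r, h using Nat.le_induction with
  | base => norm_num
  | succ k hk ih =>
    rw [pow_succ 2 k]
    nlinarith

/-- The last step: all error terms are small multiples of `T`. -/
theorem last (η δ T S D q : ℝ) (hη : 0 < η) (hδ : δ = η / (5 + 2 * η)) (hD : 0 < D)
    (hT : D ≤ T) (hq : q ≤ δ) (hS : 0 ≤ S)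
    (h : T * (1 - q) * S ≤ T + 4 * (1 + S) * (δ * D / 4) + 8 * (δ * D / 8) + 32 * (δ * D / 32)) :
    S ≤ 1 + η := by
  have h5 : 0 < 5 + 2 * η := by linarith
  have hδ0 : 0 < δ := by
    rw [hδ]
    positivity
  have hδ1 : δ * (5 + 2 * η) = η := by
    rw [hδ]
    exact div_mul_cancel₀ _ h5.ne'
  have hT0 : 0 < T := hD.trans_le hT
  have h1 : δ * D ≤ δ * T := mul_le_mul_of_nonneg_left hT hδ0.le
  have h2 : S * (δ * D) ≤ S * (δ * T) := mul_le_mul_of_nonneg_left h1 hS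
  have h3 : T * S * q ≤ T * S * δ := mul_le_mul_of_nonneg_left hq (by positivity)
  have h4 : T * ((1 - 2 * δ) * S) ≤ T * (1 + 3 * δ) := by linarith
  have h6 : (1 - 2 * δ) * S ≤ 1 + 3 * δ := le_of_mul_le_mul_left h4 hT0
  have h7 := mul_le_mul_of_nonneg_right h6 h5.le
  have h8 : (1 - 2 * δ) * S * (5 + 2 * η) = (5 + 2 * η - 2 * (δ * (5 + 2 * η))) * S := by ring
  have h9 : (1 + 3 * δ) * (5 + 2 * η) = 5 + 2 * η + 3 * (δ * (5 + 2 * η)) := by ring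
  rw [h8, h9, hδ1] at h7
  linarith

end ASY

theorem st_ASY : St_ASY := by
  intro θ η hθ hθ1 hη
  obtain ⟨δ, hδ⟩ : ∃ δ : ℝ, δ = η / (5 + 2 * η) := ⟨_, rfl⟩
  have h5 : 0 < 5 + 2 * η := by linarith
  have hδ0 : 0 < δ := by
    rw [hδ]
    positivity
  have hδ2 : δ ≤ 1 / 2 := by
    rw [hδ, div_le_iff₀ h5]
    linarith
  have hδ1 : δ ≤ 1 := by linarith
  obtain ⟨e, he⟩ : ∃ e : ℝ, e = δ ^ 2 * θ ^ 2 / 34816 := ⟨_, rfl⟩
  have he0 : 0 < e := by
    rw [he]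
    positivity
  have hδδ : δ ^ 2 ≤ 1 := pow_le_one₀ hδ0.le hδ1
  have hθθ : θ ^ 2 ≤ 1 := pow_le_one₀ hθ.le hθ1
  have he2 : e ≤ 1 / 68 := by
    have h := mul_le_mul hδδ hθθ (by positivity) zero_le_one
    rw [he]
    linarith
  have he1 : e ≤ 1 := by linarith
  obtain ⟨u, hu⟩ : ∃ u : ℝ, u = δ ^ 2 * e ^ 6 * θ ^ 4 := ⟨_, rfl⟩
  have hu0 : 0 < u := by
    rw [hu]
    positivity
  have p1 : θ ^ 4 ≤ θ := by simpa using pow_le_pow_of_le_one hθ.le hθ1 (show 1 ≤ 4 by norm_num)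
  have p2 : θ ^ 4 ≤ θ ^ 2 := pow_le_pow_of_le_one hθ.le hθ1 (by norm_num)
  have p3 : e ^ 6 ≤ e ^ 2 := pow_le_pow_of_le_one he0.le he1 (by norm_num)
  have p4 : e ^ 6 ≤ e := by simpa using pow_le_pow_of_le_one he0.le he1 (show 1 ≤ 6 by norm_num)
  have p5 : δ ^ 2 ≤ δ := by simpa using pow_le_pow_of_le_one hδ0.le hδ1 (show 1 ≤ 2 by norm_num)
  have u1 : u ≤ δ ^ 2 * e ^ 6 * θ := by
    rw [hu]
    exact mul_le_mul_of_nonneg_left p1 (by positivity)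
  have u2 : u ≤ δ ^ 2 * e ^ 6 * θ ^ 2 := by
    rw [hu]
    exact mul_le_mul_of_nonneg_left p2 (by positivity)
  have u3 : u ≤ 1 * e * 1 := by
    rw [hu]
    exact mul_le_mul (mul_le_mul hδδ p4 (by positivity) zero_le_one) (p1.trans hθ1)
      (by positivity) (by positivity)
  have u4 : u ≤ 1 * e ^ 2 * θ ^ 2 := by
    rw [hu]
    exact mul_le_mul (mul_le_mul hδδ p3 (by positivity) zero_le_one) p2
      (by positivity) (by positivity)
  have u5 : u ≤ δ * 1 * θ := by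
    rw [hu]
    exact mul_le_mul (mul_le_mul p5 (p4.trans he1) (by positivity) hδ0.le) p1
      (by positivity) (by positivity)
  refine ⟨⌈(1179648 / u) ^ 2⌉₊, fun n hn => ?_⟩
  have hn1 : (1179648 / u) ^ 2 ≤ (n : ℝ) := (Nat.le_ceil _).trans (by exact_mod_cast hn)
  have hm1 : 1179648 / u ≤ √n := Real.le_sqrt_of_sq_le hn1
  have hK : 1179648 ≤ √n * u := (div_le_iff₀ hu0).1 hm1
  have hmm : √n * √n = (n : ℝ) := Real.mul_self_sqrt (by positivity)
  generalize √(n : ℝ) = m at hK hmm hm1 ⊢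
  have hm0 : 0 < m := lt_of_lt_of_le (by positivity) hm1
  have hm : 1 ≤ m := by
    have h : m * u ≤ m * 1 := mul_le_mul_of_nonneg_left (by linarith) hm0.le
    linarith
  have hmn : m ≤ n := by
    have h := mul_le_mul_of_nonneg_left hm hm0.le
    linarith
  have hn0 : (0 : ℝ) < n := hm0.trans_le hmn
  have hK' : 1179648 ≤ n * u := hK.trans (mul_le_mul_of_nonneg_right hmn hu0.le)
  have hen : 4 ≤ e * n := by
    have h := mul_le_mul_of_nonneg_left u3 hn0.le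
    linarith
  obtain ⟨ρ, hρ1, hρ2⟩ : ∃ ρ : ℕ, e * n ≤ ρ ∧ (ρ : ℝ) ≤ 2 * (e * n) :=
    ⟨⌈e * n⌉₊, Nat.le_ceil _, by
      have h := Nat.ceil_lt_add_one (show 0 ≤ e * n by positivity)
      linarith⟩
  have hρ4 : (4 : ℝ) ≤ ρ := hen.trans hρ1
  have hρ4' : 4 ≤ ρ := by exact_mod_cast hρ4
  have hen2 : e * n ≤ 1 / 68 * n := mul_le_mul_of_nonneg_right he2 hn0.le
  obtain ⟨D, hD⟩ : ∃ D : ℝ, D = (ρ : ℝ) ^ 3 / n := ⟨_, rfl⟩
  have hD1 : e ^ 3 * n ^ 2 ≤ D := by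
    rw [hD, le_div_iff₀ hn0]
    have h := pow_le_pow_left₀ (by positivity) hρ1 3
    calc e ^ 3 * n ^ 2 * n = (e * n) ^ 3 := by ring
      _ ≤ _ := h
  have hD0 : 0 < D := lt_of_lt_of_le (by positivity) hD1
  have hD2 : e ^ 6 * n ^ 4 ≤ D ^ 2 := by
    have h := pow_le_pow_left₀ (by positivity) hD1 2
    calc e ^ 6 * n ^ 4 = (e ^ 3 * n ^ 2) ^ 2 := by ring
      _ ≤ _ := h
  have hdb : 2 * (ρ : ℝ) ^ 3 / n ^ 2 = 2 * D / n := by
    rw [hD]
    field_simp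
  have hθm : 12 ≤ δ * (θ * m) := by
    have h := mul_le_mul_of_nonneg_left u5 hm0.le
    linarith
  have hθm0 : 0 < θ * m := by positivity
  have hn3 : (0 : ℝ) < n ^ 3 := by positivity
  refine ⟨ρ, δ * D / 4, δ * D / 8, δ * D / 32, hρ4', ?_, ?_, ?_, by positivity, by positivity,
    by positivity, ?_, ?_, ?_, ?_⟩
  · have h : (8 : ℝ) * ρ ≤ n := by linarith
    exact_mod_cast h
  · have h1 : ((ρ : ℝ)) ^ 2 ≤ 2 ^ ρ := by exact_mod_cast ASY.sq_le_pow ρ hρ4'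
    have h2 := pow_le_pow_left₀ (by positivity) hρ1 2
    have h3 := mul_le_mul_of_nonneg_left (h2.trans h1) (show 0 ≤ θ ^ 2 by positivity)
    have h4 := mul_le_mul_of_nonneg_left
      (hK'.trans (mul_le_mul_of_nonneg_left u4 hn0.le)) hn0.le
    linarith
  · have h := mul_le_mul_of_nonneg_right hδ2 hθm0.le
    linarith
  · have h1 := mul_le_mul_of_nonneg_left hD2 (show 0 ≤ δ ^ 2 * θ by positivity)
    have h2 := mul_le_mul_of_nonneg_left
      (hK.trans (mul_le_mul_of_nonneg_left u1 hm0.le)) (show 0 ≤ (n : ℝ) ^ 3 * m by positivity)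
    have h3 : (n : ℝ) ^ 3 * m * (m * (δ ^ 2 * e ^ 6 * θ)) = δ ^ 2 * θ * (e ^ 6 * n ^ 4) := by
      calc _ = (n : ℝ) ^ 3 * (m * m) * (δ ^ 2 * e ^ 6 * θ) := by ring
        _ = _ := by
          rw [hmm]
          ring
    have h4 : 0 ≤ (n : ℝ) ^ 3 * m := by positivity
    linarith
  · have h1 := mul_le_mul_of_nonneg_left hD2 (show 0 ≤ δ ^ 2 * θ ^ 2 by positivity)
    have h2 := mul_le_mul_of_nonneg_left
      (hK'.trans (mul_le_mul_of_nonneg_left u2 hn0.le)) hn3.le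
    have h3 : n * (2 * (2 * D / n) ^ 2 * (16 * ρ + 1)) = 8 * D ^ 2 * ((16 * ρ + 1) / n) := by
      field_simp
      ring
    have h4 : (16 * (ρ : ℝ) + 1) / n ≤ 34 * e := by
      rw [div_le_iff₀ hn0]
      linarith
    have h6 := mul_le_mul_of_nonneg_left h4 (show 0 ≤ 8 * D ^ 2 by positivity)
    have h7 : 8 * D ^ 2 * (34 * e) = δ ^ 2 * θ ^ 2 * D ^ 2 / 128 := by
      rw [he]
      ring
    rw [hdb, mul_add, h3]
    linarith
  · have h1 := mul_le_mul_of_nonneg_left hD2 (show 0 ≤ δ ^ 2 * θ ^ 4 by positivity)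
    have h2 := mul_le_mul_of_nonneg_left hK' hn3.le
    rw [hu] at h2
    linarith
  · intro τ S hτ hS h
    refine ASY.last η δ (2 * τ) S D (12 / (θ * m)) hη hδ hD0 (le_trans ?_ hτ) ?_ hS h
    · rw [hdb]
      have h1 : (n : ℝ) / 2 ≤ n - (16 * ρ + 1) := by linarith
      have h2 := mul_le_mul_of_nonneg_left h1 (show 0 ≤ 2 * D / n by positivity)
      have h3 : 2 * D / n * (n / 2) = D := by field_simp
      linarith
    · rw [div_le_iff₀ hθm0]
      exact hθm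

end Pool.Agent.Lib.LX33
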