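import Pool.Agent.Lib.LX33.B_LB

/-! The trace of a projection against a matrix that is traceless on the support. -/

namespace Pool.Agent.Lib.LX33

open Matrix Module

namespace LC

variable {Ω : Type} [Fintype Ω] [DecidableEq Ω]

theorem tr_ind (Λ : Finset Ω) (Z : Matrix Ω Ω ℂ) :
    (diagonal (fun x => if x ∈ Λ then (1 : ℂ) else 0) * Z).trace = ∑ x ∈ Λ, Z x x := by
  simp [trace, diagonal_mul]

/-- A traceless correction of the projection. -/
theorem corr {Q : Matrix Ω Ω ℂ} {N : Submodule ℂ (Ω → ℂ)} {Λ : Finset Ω} (hQ : IsProj Q N)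
    (hN : Supp Λ N) : ∃ (D : Matrix Ω Ω ℂ) (m : ℝ), Dᴴ = D ∧ (∀ x y, x ∉ Λ → D x y = 0) ∧
      D.trace = 0 ∧ rtr D D ≤ Λ.card ∧ ∀ Z, rtr D Z = rtr Q Z - m * ltr Λ Z := by
  have r0 := LB.row0 hQ.2.1 hN
  have e2 := LB.mul_eq hQ hQ.2.1
  obtain ⟨m, hm⟩ : ∃ m : ℝ, (finrank ℂ N : ℝ) = m * Λ.card := by
    rcases Λ.eq_empty_or_nonempty with rfl | h
    · have h : Q = 0 := by
        ext x y
        exact r0 x y (Finset.notMem_empty x)
      have h2 := hQ.2.2.2
      rw [h, trace_zero] at h2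
      exact ⟨0, by simpa using h2.symm⟩
    · have h2 : (Λ.card : ℝ) ≠ 0 := Nat.cast_ne_zero.2 h.card_pos.ne'
      exact ⟨finrank ℂ N / Λ.card, by field_simp⟩
  set J : Matrix Ω Ω ℂ := diagonal (fun x => if x ∈ Λ then (1 : ℂ) else 0) with hJ
  have j1 : Jᴴ = J := by
    rw [hJ, diagonal_conjTranspose]
    congr 1
    funext x
    by_cases h : x ∈ Λ <;> simp [h]
  have j2 : ∀ Z : Matrix Ω Ω ℂ, rtr (Q - (m : ℂ) • J) Z = rtr Q Z - m * ltr Λ Z := fun Z => by
    rw [rtr, Matrix.sub_mul, Matrix.smul_mul, trace_sub, trace_smul, Complex.sub_re, smul_eq_mul,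
      Complex.re_ofReal_mul, hJ, tr_ind, Complex.re_sum, rtr, ltr]
  have j3 : J.trace = Λ.card := by
    have h := tr_ind Λ (1 : Matrix Ω Ω ℂ)
    rw [Matrix.mul_one] at h
    rw [hJ, h]
    simp
  have j4 : J * Q = Q := by
    ext x y
    rw [hJ, diagonal_mul]
    by_cases h : x ∈ Λ
    · simp [h]
    · simp [r0 x y h]
  have j5 : (Q - (m : ℂ) • J).trace = 0 := by
    rw [trace_sub, trace_smul, hQ.2.2.2, j3, smul_eq_mul, sub_eq_zero]
    exact_mod_cast hm
  have j6 : ∀ x y, x ∉ Λ → (Q - (m : ℂ) • J) x y = 0 := fun x y hx => by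
    rw [Matrix.sub_apply, r0 x y hx, Matrix.smul_apply, hJ, diagonal_apply]
    simp [hx]
  refine ⟨Q - (m : ℂ) • J, m, ?_, j6, j5, ?_, j2⟩
  · rw [conjTranspose_sub, conjTranspose_smul, hQ.1, j1, Complex.star_def, Complex.conj_ofReal]
  · have k1 : ltr Λ (Q - (m : ℂ) • J) = 0 := by
      rw [ltr, ← Complex.re_sum, Finset.sum_subset (Finset.subset_univ Λ) fun x _ hx => j6 x x hx]
      exact congrArg Complex.re j5
    have k2 : rtr Q (Q - (m : ℂ) • J) = m * Λ.card - m * (m * Λ.card) := by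
      rw [rtr, trace_mul_comm, Matrix.sub_mul, Matrix.smul_mul, e2, j4, trace_sub, trace_smul,
        Complex.sub_re, smul_eq_mul, Complex.re_ofReal_mul, hQ.2.2.2, Complex.natCast_re, hm]
    rw [j2, k1, k2]
    nlinarith [mul_nonneg (Nat.cast_nonneg (α := ℝ) Λ.card) (sq_nonneg (m - 1 / 2)),
      Nat.cast_nonneg (α := ℝ) Λ.card]

end LC

theorem st_LC : St_LC := by
  intro Ω _ _ X Y Q N Λ p q μ ν α β hQ hN hα hβ hpq hX hY
  obtain ⟨D, m, h1, h2, h3, h4, h5⟩ := LC.corr hQ hN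
  have h6 : ∀ (Z : Matrix Ω Ω ℂ) (c : ℂ), rtr D (Z - c • 1) = rtr D Z := fun Z c => by
    rw [rtr, Matrix.mul_sub, Matrix.mul_smul, Matrix.mul_one, trace_sub, trace_smul, h3,
      smul_zero, sub_zero, rtr]
  have h7 : rtr D (X - Y) = rtr D X - rtr D Y := by
    rw [rtr, Matrix.mul_sub, trace_sub, Complex.sub_re, rtr, rtr]
  have hs := Real.sqrt_le_sqrt h4
  have ha := (LB.cs h1 h2 hα hX).trans (mul_le_mul_of_nonneg_right hs hα)
  have hb := (LB.cs h1 h2 hβ hY).trans (mul_le_mul_of_nonneg_right hs hβ)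
  rw [h6] at ha hb
  rw [h7] at hb
  have h8 : p * rtr Q Y - q * rtr Q X = -p * (rtr D X - rtr D Y) + (p - q) * rtr D X := by
    rw [h5, h5]
    linear_combination m * hpq
  have h9 := (le_abs_self (-p * (rtr D X - rtr D Y))).trans_eq (abs_mul _ _)
  have h10 := (le_abs_self ((p - q) * rtr D X)).trans_eq (abs_mul _ _)
  rw [abs_neg] at h9
  rw [h8]
  nlinarith [mul_le_mul_of_nonneg_left ha (abs_nonneg (p - q)),
    mul_le_mul_of_nonneg_left hb (abs_nonneg p)]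

end Pool.Agent.Lib.LX33
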