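import Pool.Agent.Lib.CH48.B_PHI

/-! Blueprint for the asymptotic product rank of the permanent. -/

namespace Pool.Agent.Lib.LX33

open Matrix MvPolynomial Module Pool.Agent.Lib.CH48

/-- All members of `U` vanish outside `Λ`. -/
def Supp {Ω : Type} (Λ : Finset Ω) (U : Submodule ℂ (Ω → ℂ)) : Prop :=
  ∀ v ∈ U, ∀ x, x ∉ Λ → v x = 0

/-- The sets of size `d`. -/
def lev (κ : Type) [Fintype κ] (d : ℕ) : Finset (Finset κ) :=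
  Finset.powersetCard d Finset.univ

/-- `P` is the orthogonal projection on `U`. -/
def IsProj {Ω : Type} [Fintype Ω] (P : Matrix Ω Ω ℂ) (U : Submodule ℂ (Ω → ℂ)) : Prop :=
  Pᴴ = P ∧ (∀ v, P *ᵥ v ∈ U) ∧ (∀ v ∈ U, P *ᵥ v = v) ∧ trace P = (finrank ℂ U : ℂ)

/-- Squared norm of the rows in `Λ`. -/
noncomputable def hs {Ω : Type} [Fintype Ω] (Λ : Finset Ω) (X : Matrix Ω Ω ℂ) : ℝ :=
  ∑ x ∈ Λ, ∑ y, ‖X x y‖ ^ 2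

/-- Real part of the trace over `Λ`. -/
noncomputable def ltr {Ω : Type} (Λ : Finset Ω) (X : Matrix Ω Ω ℂ) : ℝ :=
  ∑ x ∈ Λ, (X x x).re

/-- Real part of the trace of a product. -/
noncomputable def rtr {Ω : Type} [Fintype Ω] (P X : Matrix Ω Ω ℂ) : ℝ :=
  (trace (P * X)).re

/-- Leading components at `k`. -/
def lead {r : ℕ} {V : Type} [AddCommGroup V] [Module ℂ V] (X : Submodule ℂ (Fin r → V))
    (k : Fin r) : Submodule ℂ V where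
  carrier := {w | ∃ v ∈ X, (∀ i, i < k → v i = 0) ∧ v k = w}
  add_mem' := by
    rintro a b ⟨v, hv, hv0, rfl⟩ ⟨w, hw, hw0, rfl⟩
    exact ⟨v + w, X.add_mem hv hw, fun i hi => by simp [hv0 i hi, hw0 i hi], rfl⟩
  zero_mem' := ⟨0, X.zero_mem, fun _ _ => rfl, rfl⟩
  smul_mem' := by
    rintro c a ⟨v, hv, hv0, rfl⟩
    exact ⟨c • v, X.smul_mem c hv, fun i hi => by simp [hv0 i hi], rfl⟩

/-- The symmetrised coefficients with zero diagonal. -/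
noncomputable def gq {κ ι : Type} [DecidableEq κ] [Fintype ι] (c : ι × ι → ι × ι → ℂ)
    (L : κ → ι × ι → ℂ) : κ × κ → ℂ :=
  fun e => if e.1 = e.2 then 0 else mm c L e.1 e.2 + mm c L e.2 e.1

/-- A graded pair of subspaces: `N d ≤ M d` on level `d`. -/
def Pair {κ : Type} [Fintype κ] (M N : ℕ → Submodule ℂ (Finset κ → ℂ)) : Prop :=
  ∀ d, N d ≤ M d ∧ Supp (lev κ d) (M d)

/-- The matrix `X` sends `M (d + 2)` into `N d`. -/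
def Maps {κ : Type} [Fintype κ] (X : Matrix (Finset κ) (Finset κ) ℂ)
    (M N : ℕ → Submodule ℂ (Finset κ → ℂ)) : Prop :=
  ∀ d, ∀ v ∈ M (d + 2), X *ᵥ v ∈ N d

/-- The data attached to one product. -/
def Term {ι : Type} [Fintype ι] [DecidableEq ι] (L : ι → ι × ι → ℂ)
    (M N : ℕ → Submodule ℂ (Finset ι → ℂ)) : Prop :=
  Pair M N ∧ (∀ c, InQ c → Maps (E (mm c L)) M N) ∧
    ∀ d, ∀ v ∈ M d, PHI.phi L v = 0 → v ∈ N d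

/-- The lowering matrix of a member of a family. -/
noncomputable def Eg {κ : Type} [Fintype κ] [DecidableEq κ] (g : κ × κ → ℂ) :
    Matrix (Finset κ) (Finset κ) ℂ :=
  E fun s t => g (s, t)

/-- Down then up. -/
noncomputable def Dn {κ C : Type} [Fintype κ] [DecidableEq κ] [Fintype C] (g : C → κ × κ → ℂ) :
    Matrix (Finset κ) (Finset κ) ℂ :=
  ∑ c, (Eg (g c))ᴴ * Eg (g c)

/-- Up then down. -/
noncomputable def Up {κ C : Type} [Fintype κ] [DecidableEq κ] [Fintype C] (g : C → κ × κ → ℂ) :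
    Matrix (Finset κ) (Finset κ) ℂ :=
  ∑ c, Eg (g c) * (Eg (g c))ᴴ

/-- The Gram matrix of a family. -/
noncomputable def gr {P C : Type} [Fintype C] (g : C → P → ℂ) (e f : P) : ℂ :=
  ∑ c, g c e * star (g c f)

/-- The weight of a pair. -/
noncomputable def wt {P C : Type} [Fintype C] (g : C → P → ℂ) (e : P) : ℝ :=
  ∑ c, ‖g c e‖ ^ 2

/-- The total weight. -/
noncomputable def tau {P C : Type} [Fintype P] [Fintype C] (g : C → P → ℂ) : ℝ :=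
  ∑ e, wt g e

/-- The degree of an index. -/
noncomputable def dg {κ C : Type} [Fintype κ] [Fintype C] (g : C → κ × κ → ℂ) (s : κ) : ℝ :=
  ∑ t, (wt g (s, t) + wt g (t, s))

/-- Symmetric with zero diagonal. -/
def Sym0 {κ C : Type} (g : C → κ × κ → ℂ) : Prop :=
  (∀ c s t, g c (s, t) = g c (t, s)) ∧ ∀ c s, g c (s, s) = 0

/-- A balanced family. -/
def Bal {κ C : Type} [Fintype κ] [Fintype C] (g : C → κ × κ → ℂ) (db sig : ℝ) : Prop :=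
  0 ≤ db ∧ ∑ e, ∑ f, ‖gr g e f‖ ^ 2 ≤ tau g ∧ (∀ s, dg g s ≤ db) ∧
    ∑ s, (db - dg g s) ≤ db * sig

/-- The coordinates in `I` are independent on `U`. -/
def Free {P : Type} [Fintype P] (U : Submodule ℂ (P → ℂ)) (I : Finset P) : Prop :=
  ∀ β : P → ℂ, (∀ e, e ∉ I → β e = 0) → (∀ u ∈ U, ∑ e, β e * u e = 0) → β = 0

/-- The window of degrees `a + 2, a + 4, ..., a + 2 k`. -/
def Win (θ : ℝ) (n a k : ℕ) : Prop :=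
  a + 2 * k ≤ n ∧ k * θ ≤ √n ∧ ∀ j, j < k →
    θ * 2 ^ n ≤ √n * n.choose (a + 2 * j + 2) ∧
    |2 * ((a + 2 * j + 2 : ℕ) : ℝ) - n| * θ ≤ √n

/-- The normalised defect over a window. -/
noncomputable def defect {κ : Type} [Fintype κ] (M N : ℕ → Submodule ℂ (Finset κ → ℂ))
    (a k : ℕ) : ℝ :=
  ∑ j ∈ Finset.range k,
    ((finrank ℂ (M (a + 2 * j + 2)) : ℝ) - finrank ℂ (N (a + 2 * j + 2))) /
      (Fintype.card κ).choose (a + 2 * j + 2)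

def St_FLAG : Prop :=
  ∀ (r : ℕ) (V : Type) [AddCommGroup V] [Module ℂ V] [FiniteDimensional ℂ V]
    (X : Submodule ℂ (Fin r → V)), finrank ℂ X = ∑ k, finrank ℂ (lead X k)

def St_SUB1 : Prop :=
  ∀ (ι : Type) [Fintype ι] [DecidableEq ι] (Z : ℕ → Submodule ℂ (MvPolynomial (ι × ι) ℂ))
    (d₀ : ℕ) [Module.Finite ℂ (Z d₀)],
    per ι ∈ Z (Fintype.card ι) → (∀ d e p, p ∈ Z (d + 1) → pderiv e p ∈ Z d) →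
    (Fintype.card ι).choose d₀ ^ 2 ≤ finrank ℂ (Z d₀)

def St_FILT : Prop :=
  ∀ (ι : Type) [Fintype ι] [DecidableEq ι] (r : ℕ) (L : Fin r → ι → ι × ι → ℂ),
    per ι = ∑ k, ∏ s, lf (L k s) →
    ∃ M N : Fin r → ℕ → Submodule ℂ (Finset ι → ℂ), (∀ k, Term (L k) (M k) (N k)) ∧
      ∀ d, (Fintype.card ι).choose d ^ 2 + ∑ k, finrank ℂ (N k d) ≤ ∑ k, finrank ℂ (M k d)

def St_SMALL : Prop :=
  ∀ (ι : Type) [Fintype ι] [DecidableEq ι] (L : ι → ι × ι → ℂ) (S : Finset ι) (ρ : ℕ),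
    S.card = 8 * ρ → finrank ℂ (Submodule.span ℂ (L '' S)) ≤ ρ →
    2 ^ ρ * finrank ℂ (LinearMap.range (PHI.phi L)) ≤ 2 ^ Fintype.card ι

def St_LEAD : Prop :=
  ∀ (n ρ : ℕ) (W : Submodule ℂ (Fin n × Fin n → ℂ)), finrank ℂ W ≤ ρ →
    ∃ Δ : Finset ((Fin n × Fin n) × (Fin n × Fin n)), 4 * Δ.card ≤ ρ ^ 2 ∧
      ∀ F : Fin n × Fin n → Fin n × Fin n → ℂ, (∀ x, F x ∈ W) → (∀ x y, F x y = F y x) →
        (∀ a i j, F (a, i) (a, j) = 0) → (∀ a b i, F (a, i) (b, i) = 0) →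
        (∀ a b i j, F (a, i) (b, j) = F (b, i) (a, j)) → (∀ z ∈ Δ, F z.1 z.2 = 0) → F = 0

def St_RANK : Prop :=
  ∀ (n : ℕ) (L : Fin n → Fin n × Fin n → ℂ) (J : Finset (Fin n)),
    4 ≤ J.card → LinearIndepOn ℂ L J →
    ∃ I : Finset (Fin n × Fin n), J.card ^ 2 ≤ 8 * I.card ∧ (∀ e ∈ I, e.1 ∈ J ∧ e.2 ∈ J) ∧
      ∀ β : Fin n × Fin n → ℂ, (∀ e, e ∉ I → β e = 0) →
        (∀ c, InQ c → ∑ e, β e * gq c L e = 0) → β = 0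

def St_IND : Prop :=
  ∀ (κ V : Type) [AddCommGroup V] [Module ℂ V] (L : κ → V) (S : Finset κ) (ρ : ℕ),
    ρ ≤ finrank ℂ (Submodule.span ℂ (L '' S)) →
    ∃ J : Finset κ, J ⊆ S ∧ J.card = ρ ∧ LinearIndepOn ℂ L J

def St_DDET : Prop :=
  ∀ (P : Type) [Fintype P] [DecidableEq P] (X : ℝ → Matrix P P ℂ) (Y : Matrix P P ℂ),
    X 0 = 1 → (∀ i j, HasDerivAt (fun t => X t i j) (Y i j) 0) →
    HasDerivAt (fun t => (X t).det) (trace Y) 0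

def St_MINOR : Prop :=
  ∀ (P C : Type) [Fintype P] [DecidableEq P] [Fintype C] (G : Matrix P C ℂ),
    ((1 + G * Gᴴ).det.im = 0) ∧ ∀ I : Finset P,
      ((G * Gᴴ).submatrix (fun e : I => e.1) (fun e : I => e.1)).det.im = 0 ∧
      ((G * Gᴴ).submatrix (fun e : I => e.1) (fun e : I => e.1)).det.re ≤ (1 + G * Gᴴ).det.re

def St_COER : Prop :=
  ∀ (κ : Type) [Fintype κ] [DecidableEq κ] (f : (κ → ℝ) → ℝ) (dd : (κ → ℝ) → κ → ℝ)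
    (c r0 db : ℝ) (s1 : ℕ), Continuous f →
    (∀ γ s, HasDerivAt (fun t : ℝ => f (γ + Pi.single s t)) (dd γ s) 0) →
    0 < db → db * (Fintype.card κ : ℝ) ^ 2 = 2 * s1 * r0 → (∀ γ, c ≤ f γ) →
    (∀ γ (x : ℝ) (S : Finset κ), 0 ≤ x → s1 ≤ S.card → (∀ s ∈ S, x ≤ γ s) →
      c + 2 * r0 * x ≤ f γ) →
    ∃ γ, (∀ s, dd γ s ≤ db) ∧ ∑ s, (db - dd γ s) ≤ db * (2 * s1 + 1)

def St_PROJ : Prop :=
  ∀ (Ω : Type) [Fintype Ω] [DecidableEq Ω] (U : Submodule ℂ (Ω → ℂ)), ∃ P, IsProj P U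

def St_SCALE : Prop :=
  ∀ (κ : Type) [Fintype κ] [DecidableEq κ] (U : Submodule ℂ (κ × κ → ℂ)) (r0 db : ℝ) (s1 : ℕ),
    0 < db → db * (Fintype.card κ : ℝ) ^ 2 = 2 * s1 * r0 →
    (∀ S : Finset κ, s1 ≤ S.card → ∃ I : Finset (κ × κ), r0 ≤ I.card ∧
      (∀ e ∈ I, e.1 ∈ S ∧ e.2 ∈ S) ∧ Free U I) →
    ∃ (v : κ → ℝ) (g : (κ × κ) ⊕ (κ × κ) → κ × κ → ℂ), (∀ s, 0 < v s) ∧
      (∀ c, ∃ u ∈ U, ∀ e, g c e = (v e.1 : ℂ) * v e.2 * u e) ∧ Bal g db (2 * s1 + 1)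

def St_TOR : Prop :=
  ∀ (κ : Type) [Fintype κ] [DecidableEq κ],
    (∀ m : κ → κ → ℂ, E (fun s t => if s = t then 0 else m s t + m t s) = (2 : ℂ) • E m) ∧
    ∀ (v : κ → ℂ) (M N : ℕ → Submodule ℂ (Finset κ → ℂ)), (∀ s, v s ≠ 0) → Pair M N →
      ∃ M' N' : ℕ → Submodule ℂ (Finset κ → ℂ), Pair M' N' ∧
        (∀ d, finrank ℂ (M' d) = finrank ℂ (M d) ∧ finrank ℂ (N' d) = finrank ℂ (N d)) ∧
        ∀ m : κ → κ → ℂ, Maps (E m) M N → Maps (E fun s t => v s * v t * m s t) M' N'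

def St_LA : Prop :=
  ∀ (Ω C : Type) [Fintype Ω] [DecidableEq Ω] [Fintype C] (X : C → Matrix Ω Ω ℂ)
    (P Q : Matrix Ω Ω ℂ) (M N : Submodule ℂ (Ω → ℂ)) (Λ : Finset Ω),
    IsProj P M → IsProj Q N → Supp Λ N → (∀ c, ∀ v ∈ M, X c *ᵥ v ∈ N) →
    rtr P (∑ c, (X c)ᴴ * X c) ≤ rtr Q (∑ c, X c * (X c)ᴴ) ∧
    0 ≤ rtr Q (∑ c, X c * (X c)ᴴ) ∧
    rtr Q (∑ c, X c * (X c)ᴴ) ≤ ltr Λ (∑ c, X c * (X c)ᴴ)

def St_LB : Prop :=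
  ∀ (Ω : Type) [Fintype Ω] [DecidableEq Ω] (X P Q : Matrix Ω Ω ℂ)
    (M N : Submodule ℂ (Ω → ℂ)) (Λ : Finset Ω) (μ α : ℝ),
    IsProj P M → IsProj Q N → N ≤ M → Supp Λ M → 0 ≤ α →
    hs Λ (X - (μ : ℂ) • 1) ≤ α ^ 2 →
    μ * ((finrank ℂ M : ℝ) - finrank ℂ N) - √((finrank ℂ M : ℝ) - finrank ℂ N) * α ≤
      rtr P X - rtr Q X

def St_LC : Prop :=
  ∀ (Ω : Type) [Fintype Ω] [DecidableEq Ω] (X Y Q : Matrix Ω Ω ℂ)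
    (N : Submodule ℂ (Ω → ℂ)) (Λ : Finset Ω) (p q μ ν α β : ℝ),
    IsProj Q N → Supp Λ N → 0 ≤ α → 0 ≤ β → p * ltr Λ Y = q * ltr Λ X →
    hs Λ (X - (μ : ℂ) • 1) ≤ α ^ 2 → hs Λ (X - Y - (ν : ℂ) • 1) ≤ β ^ 2 →
    p * rtr Q Y - q * rtr Q X ≤ √(Λ.card : ℝ) * (|p| * β + |p - q| * α)

def St_DIAG : Prop :=
  ∀ (κ C : Type) [Fintype κ] [DecidableEq κ] [Fintype C] (g : C → κ × κ → ℂ), Sym0 g →
    (∀ T, Dn g T T = ((2 * ∑ s ∈ T, ∑ t ∈ T, wt g (s, t) : ℝ) : ℂ)) ∧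
    (∀ T, Up g T T = ((2 * ∑ s ∈ Tᶜ, ∑ t ∈ Tᶜ, wt g (s, t) : ℝ) : ℂ))

def St_LTR : Prop :=
  ∀ (κ C : Type) [Fintype κ] [DecidableEq κ] [Fintype C] (g : C → κ × κ → ℂ), Sym0 g →
    ∀ d, ltr (lev κ (d + 2)) (Dn g) = 2 * tau g * (Fintype.card κ - 2).choose d ∧
      ltr (lev κ d) (Up g) = 2 * tau g * (Fintype.card κ - 2).choose d

def St_SGN : Prop :=
  ∀ (κ : Type) [Fintype κ] [DecidableEq κ] (c : κ → ℂ),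
    ∑ T : Finset κ, ‖∑ u, c u * (if u ∈ T then 1 else -1)‖ ^ 2 =
      2 ^ Fintype.card κ * ∑ u, ‖c u‖ ^ 2

def St_OFF : Prop :=
  ∀ (κ C : Type) [Fintype κ] [DecidableEq κ] [Fintype C] (g : C → κ × κ → ℂ),
    ∑ T, ∑ T' ∈ Finset.univ.erase T, ‖Dn g T T'‖ ^ 2 ≤
      2 ^ Fintype.card κ * (4 * Fintype.card κ * ∑ e, ∑ f, ‖gr g e f‖ ^ 2)

def St_HS1 : Prop :=
  ∀ (κ C : Type) [Fintype κ] [DecidableEq κ] [Fintype C] (g : C → κ × κ → ℂ) (db sig : ℝ),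
    Sym0 g → Bal g db sig → db ≤ Fintype.card κ →
    hs Finset.univ (Dn g - ((tau g / 2 : ℝ) : ℂ) • 1) ≤
      2 ^ Fintype.card κ * (8 * (Fintype.card κ : ℝ) ^ 3)

def St_COMM : Prop :=
  ∀ (κ C : Type) [Fintype κ] [DecidableEq κ] [Fintype C] (g : C → κ × κ → ℂ), Sym0 g →
    Dn g - Up g =
      diagonal (fun T => ∑ u, (dg g u : ℂ) * (if u ∈ T then 1 else -1)) +
      (4 : ℂ) • ∑ t, ∑ t' ∈ Finset.univ.erase t,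
        diagonal (fun T => ∑ u, gr g (u, t') (u, t) * (if u ∈ T then 1 else -1)) *
          ((A t)ᴴ * A t')

def St_HS2 : Prop :=
  ∀ (κ C : Type) [Fintype κ] [DecidableEq κ] [Fintype C] (g : C → κ × κ → ℂ) (db sig : ℝ),
    Sym0 g → Bal g db sig → db ≤ Fintype.card κ →
    hs Finset.univ (Dn g - Up g -
        diagonal fun T => ((db * (2 * T.card - Fintype.card κ) : ℝ) : ℂ)) ≤
      2 ^ Fintype.card κ * (2 * db ^ 2 * sig + 32 * (Fintype.card κ : ℝ) ^ 2)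

def St_TEL : Prop :=
  ∀ (k : ℕ) (x y w Δ Cn c α β : ℕ → ℝ) (τ κ B X Y Z : ℝ),
    0 ≤ τ → 0 ≤ κ → κ ≤ 1 / 2 → 0 < B → 0 ≤ X → 0 ≤ Y → 0 ≤ Z →
    w 0 ≤ 2 * τ * c 0 → 0 ≤ w k →
    (∀ j, j < k → x j ≤ w j ∧ 0 ≤ Δ j ∧ 0 ≤ α j ∧ 0 ≤ β j ∧ B ≤ Cn j ∧
      |4 * c j - Cn j| ≤ κ * Cn j ∧ |4 * c (j + 1) - Cn j| ≤ κ * Cn j ∧
      τ / 2 * Δ j - √(Δ j) * α j ≤ x j - y j ∧
      1 / c (j + 1) * w (j + 1) - 1 / c j * y j ≤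
        √(Cn j) * (|1 / c (j + 1)| * β j + |1 / c (j + 1) - 1 / c j| * α j)) →
    ∑ j ∈ Finset.range k, α j ^ 2 ≤ X ^ 2 * B →
    k * ∑ j ∈ Finset.range k, β j ^ 2 ≤ Y ^ 2 * B →
    k * κ ^ 2 * ∑ j ∈ Finset.range k, α j ^ 2 ≤ Z ^ 2 * B →
    2 * τ * (1 - κ) * ∑ j ∈ Finset.range k, Δ j / Cn j ≤
      2 * τ + 4 * (1 + ∑ j ∈ Finset.range k, Δ j / Cn j) * X + 8 * Y + 32 * Z

def St_RAT : Prop :=
  ∀ (n d : ℕ) (w : ℝ), d + 2 ≤ n → 1 ≤ w → w ≤ n → |2 * ((d + 2 : ℕ) : ℝ) - n| ≤ w →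
    |4 * ((n - 2).choose d : ℝ) - n.choose (d + 2)| ≤ 12 * w / n * n.choose (d + 2) ∧
    |4 * ((n - 2).choose (d + 2) : ℝ) - n.choose (d + 2)| ≤ 12 * w / n * n.choose (d + 2)

def St_BIN : Prop :=
  ∀ ε : ℝ, 0 < ε → ∃ θ : ℝ, 0 < θ ∧ θ ≤ 1 ∧ ∃ N : ℕ, ∀ n, N ≤ n → ∃ a k, Win θ n a k ∧
    (1 - ε) * 2 ^ (n - 1) ≤ ∑ j ∈ Finset.range k, (n.choose (a + 2 * j + 2) : ℝ)

def St_ASY : Prop :=
  ∀ θ η : ℝ, 0 < θ → θ ≤ 1 → 0 < η → ∃ N : ℕ, ∀ n : ℕ, N ≤ n → ∃ (ρ : ℕ) (X Y Z : ℝ),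
    4 ≤ ρ ∧ 8 * ρ ≤ n ∧ (n : ℝ) ≤ θ ^ 2 * 2 ^ ρ ∧ 24 ≤ θ * √n ∧ 0 ≤ X ∧ 0 ≤ Y ∧ 0 ≤ Z ∧
    8 * (n : ℝ) ^ 3 * √n ≤ X ^ 2 * θ ∧
    n * (2 * (2 * (ρ : ℝ) ^ 3 / n ^ 2) ^ 2 * (16 * ρ + 1) + 32 * (n : ℝ) ^ 2) ≤ Y ^ 2 * θ ^ 2 ∧
    1152 * (n : ℝ) ^ 3 ≤ Z ^ 2 * θ ^ 4 ∧
    ∀ τ S : ℝ, 2 * (ρ : ℝ) ^ 3 / n ^ 2 * (n - (16 * ρ + 1)) ≤ 2 * τ → 0 ≤ S →
      2 * τ * (1 - 12 / (θ * √n)) * S ≤ 2 * τ + 4 * (1 + S) * X + 8 * Y + 32 * Z → S ≤ 1 + η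

def St_BIG : Prop :=
  ∀ (κ C : Type) [Fintype κ] [DecidableEq κ] [Fintype C] (g : C → κ × κ → ℂ)
    (M N : ℕ → Submodule ℂ (Finset κ → ℂ)) (db sig θ X Y Z : ℝ) (n a k : ℕ),
    Fintype.card κ = n → Sym0 g → Bal g db sig → db ≤ n → Pair M N →
    (∀ c, Maps (Eg (g c)) M N) → Win θ n a k → 0 < θ → θ ≤ 1 → 24 ≤ θ * √n →
    0 ≤ X → 0 ≤ Y → 0 ≤ Z → 8 * (n : ℝ) ^ 3 * √n ≤ X ^ 2 * θ →
    n * (2 * db ^ 2 * sig + 32 * (n : ℝ) ^ 2) ≤ Y ^ 2 * θ ^ 2 →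
    1152 * (n : ℝ) ^ 3 ≤ Z ^ 2 * θ ^ 4 →
    2 * tau g * (1 - 12 / (θ * √n)) * defect M N a k ≤
      2 * tau g + 4 * (1 + defect M N a k) * X + 8 * Y + 32 * Z

def St_KEY : Prop :=
  ∀ θ η : ℝ, 0 < θ → θ ≤ 1 → 0 < η → ∃ N₀ : ℕ, ∀ n, N₀ ≤ n →
    ∀ (L : Fin n → Fin n × Fin n → ℂ) (M N : ℕ → Submodule ℂ (Finset (Fin n) → ℂ)) (a k : ℕ),
      Term L M N → Win θ n a k → defect M N a k ≤ 1 + η

def St_MAIN : Prop :=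
  ∀ ε : ℝ, 0 < ε → ∃ N : ℕ, ∀ n, N ≤ n → ∀ (r : ℕ) (a : Fin r → Fin n → Fin n × Fin n → ℂ),
    (Matrix.of fun i j => (X (i, j) : MvPolynomial (Fin n × Fin n) ℂ)).permanent =
      ∑ k, ∏ s, ∑ e, C (a k s e) * X e →
    (1 - ε) * 2 ^ (n - 1) ≤ (r : ℝ)

end Pool.Agent.Lib.LX33
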